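import Mathlib

/-! Bundle of small proof modules (one section per former module). -/

section

/-!
# Smooth increasing maps of the line, and the group of smooth increasing diffeomorphisms

Work file for MP_4ec80c_gt.
-/

open Set Filter Topology
open scoped ContDiff

namespace W4ec

/-- `SI f`: the function `f : ℝ → ℝ` is of class `C^∞` with everywhere positive derivative. -/
structure SI (f : ℝ → ℝ) : Prop where
  smooth : ContDiff ℝ ∞ f
  pos : ∀ x, 0 < deriv f x

namespace SI

variable {f g : ℝ → ℝ}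

theorem strictMono (hf : SI f) : StrictMono f := strictMono_of_deriv_pos hf.pos

theorem continuous (hf : SI f) : Continuous f := hf.smooth.continuous

theorem differentiable (hf : SI f) : Differentiable ℝ f :=
  hf.smooth.differentiable (by simp)

theorem hasDerivAt (hf : SI f) (x : ℝ) : HasDerivAt f (deriv f x) x :=
  (hf.differentiable x).hasDerivAt

theorem comp (hf : SI f) (hg : SI g) : SI (fun x => f (g x)) where
  smooth := hf.smooth.comp hg.smooth
  pos := by
    intro x
    have h := (hf.hasDerivAt (g x)).comp x (hg.hasDerivAt x)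
    have h2 : deriv (fun x => f (g x)) x = deriv f (g x) * deriv g x := h.deriv
    rw [h2]
    exact mul_pos (hf.pos _) (hg.pos _)

theorem id' : SI (fun x : ℝ => x) where
  smooth := contDiff_id
  pos := by intro x; simp

theorem affine {a b : ℝ} (ha : 0 < a) : SI (fun x : ℝ => a * x + b) where
  smooth := (contDiff_const.mul contDiff_id).add contDiff_const
  pos := by
    intro x
    have h : HasDerivAt (fun x : ℝ => a * x + b) a x := by
      simpa using ((hasDerivAt_id x).const_mul a).add_const b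
    rw [h.deriv]; exact ha

theorem add_const (c : ℝ) : SI (fun x : ℝ => x + c) := by
  simpa using affine (a := 1) (b := c) one_pos

/-- An `SI` function agreeing near each point with some `SI` function is `SI`. -/
theorem of_eventuallyEq {w : ℝ → ℝ} (h : ∀ x, ∃ u : ℝ → ℝ, SI u ∧ w =ᶠ[𝓝 x] u) : SI w where
  smooth := by
    rw [contDiff_iff_contDiffAt]
    intro x
    obtain ⟨u, hu, hwu⟩ := h x
    exact (hu.smooth.contDiffAt).congr_of_eventuallyEq hwu
  pos := by
    intro x
    obtain ⟨u, hu, hwu⟩ := h x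
    rw [hwu.deriv_eq]
    exact hu.pos x

end SI

/-- The group of `C^∞` increasing diffeomorphisms of `ℝ`, as a subgroup of the permutations. -/
def Dg : Subgroup (Equiv.Perm ℝ) where
  carrier := {e | SI (e : ℝ → ℝ)}
  mul_mem' := by
    intro a b ha hb
    have ha' : SI (a : ℝ → ℝ) := ha
    have hb' : SI (b : ℝ → ℝ) := hb
    exact ha'.comp hb'
  one_mem' := SI.id'
  inv_mem' := by
    intro e he
    have he' : SI (e : ℝ → ℝ) := he
    -- the order isomorphism
    let o : ℝ ≃o ℝ := StrictMono.orderIsoOfSurjective e he'.strictMono e.surjective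
    have hoe : ∀ x, o x = e x := fun x => rfl
    have hos : ∀ y, o.symm y = e.symm y := by
      intro y
      apply o.injective
      rw [OrderIso.apply_symm_apply, hoe, Equiv.apply_symm_apply]
    let H : ℝ ≃ₜ ℝ := o.toHomeomorph
    have hsm : ContDiff ℝ ∞ (H.symm : ℝ → ℝ) :=
      Homeomorph.contDiff_symm_deriv H (f' := deriv e) (fun x => (he'.pos x).ne')
        (fun x => he'.hasDerivAt x) he'.smooth
    have hH : (H.symm : ℝ → ℝ) = ((e⁻¹ : Equiv.Perm ℝ) : ℝ → ℝ) := by
      funext y
      exact hos y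
    rw [hH] at hsm
    refine ⟨hsm, ?_⟩
    intro y
    have hd : DifferentiableAt ℝ ((e⁻¹ : Equiv.Perm ℝ) : ℝ → ℝ) y :=
      (hsm.differentiable (by simp)) y
    have h1 : HasDerivAt ((e⁻¹ : Equiv.Perm ℝ) : ℝ → ℝ)
        (deriv ((e⁻¹ : Equiv.Perm ℝ) : ℝ → ℝ) y) y := hd.hasDerivAt
    have h2 : HasDerivAt (fun z => e ((e⁻¹ : Equiv.Perm ℝ) z))
        (deriv e ((e⁻¹ : Equiv.Perm ℝ) y) * deriv ((e⁻¹ : Equiv.Perm ℝ) : ℝ → ℝ) y) y :=
      (he'.hasDerivAt _).comp y h1
    have h3 : (fun z => e ((e⁻¹ : Equiv.Perm ℝ) z)) = fun z => z := by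
      funext z; exact Equiv.apply_symm_apply e z
    rw [h3] at h2
    have h4 := h2.unique (hasDerivAt_id' y)
    by_contra hneg
    push Not at hneg
    have := mul_nonpos_of_nonneg_of_nonpos (he'.pos ((e⁻¹ : Equiv.Perm ℝ) y)).le hneg
    linarith

theorem mem_Dg {e : Equiv.Perm ℝ} : e ∈ Dg ↔ SI (e : ℝ → ℝ) := Iff.rfl

theorem pinv_apply (e : Equiv.Perm ℝ) (x : ℝ) : e⁻¹ (e x) = x := e.symm_apply_apply x

theorem papply_inv (e : Equiv.Perm ℝ) (x : ℝ) : e (e⁻¹ x) = x := e.apply_symm_apply x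

theorem Dg.si {e : Equiv.Perm ℝ} (he : e ∈ Dg) : SI (e : ℝ → ℝ) := he

theorem Dg.strictMono {e : Equiv.Perm ℝ} (he : e ∈ Dg) : StrictMono e := (Dg.si he).strictMono

/-- An `SI` function which is surjective gives an element of `Dg`. -/
theorem SI.exists_Dg {w : ℝ → ℝ} (hw : SI w) (hs : Function.Surjective w) :
    ∃ e ∈ Dg, ∀ x, e x = w x :=
  ⟨Equiv.ofBijective w ⟨hw.strictMono.injective, hs⟩, hw, fun _ => rfl⟩

/-- An `SI` function which agrees with elements of `Dg` near `-∞` and near `+∞` is given by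
an element of `Dg`. -/
theorem SI.exists_Dg_of_ends {w : ℝ → ℝ} (hw : SI w) {u v : Equiv.Perm ℝ} (hu : u ∈ Dg)
    (hv : v ∈ Dg) {a b : ℝ} (ha : ∀ x ≤ a, w x = u x) (hb : ∀ x ≥ b, w x = v x) :
    ∃ e ∈ Dg, ∀ x, e x = w x := by
  apply hw.exists_Dg
  intro y
  have hu' := Dg.strictMono hu
  have hv' := Dg.strictMono hv
  -- points where w is below / above y
  set x₁ := min a (u.symm y) with hx₁
  set x₂ := max b (v.symm y) with hx₂
  have h1 : w x₁ ≤ y := by
    rw [ha x₁ (min_le_left _ _)]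
    calc u x₁ ≤ u (u.symm y) := hu'.monotone (min_le_right _ _)
      _ = y := u.apply_symm_apply y
  have h2 : y ≤ w x₂ := by
    rw [hb x₂ (le_max_left _ _)]
    calc y = v (v.symm y) := (v.apply_symm_apply y).symm
      _ ≤ v x₂ := hv'.monotone (le_max_right _ _)
  have := mem_range_of_exists_le_of_exists_ge hw.continuous ⟨x₁, h1⟩ ⟨x₂, h2⟩
  exact this

theorem Dg.apply_lt {e : Equiv.Perm ℝ} (he : e ∈ Dg) {x y : ℝ} : e x < e y ↔ x < y :=
  (Dg.strictMono he).lt_iff_lt

theorem Dg.apply_le {e : Equiv.Perm ℝ} (he : e ∈ Dg) {x y : ℝ} : e x ≤ e y ↔ x ≤ y :=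
  (Dg.strictMono he).le_iff_le

theorem Dg.continuous {e : Equiv.Perm ℝ} (he : e ∈ Dg) : Continuous e := (Dg.si he).continuous

/-- The translation by `c`. -/
def tr (c : ℝ) : Equiv.Perm ℝ := Equiv.addRight c

@[simp] theorem tr_apply (c x : ℝ) : tr c x = x + c := rfl

@[simp] theorem tr_inv (c : ℝ) : (tr c)⁻¹ = tr (-c) := by
  ext x; simp [tr]

theorem tr_mul (a b : ℝ) : tr a * tr b = tr (a + b) := by
  ext x; simp [Equiv.Perm.mul_apply, add_comm, add_left_comm]

theorem tr_zero : tr 0 = 1 := by ext x; simp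

theorem tr_mem (c : ℝ) : tr c ∈ Dg := SI.add_const c

end W4ec

end

section

open Set Filter Topology MeasureTheory
open scoped ContDiff Manifold ENNReal

namespace W4ec

/-- diagonal operators on `ℓ²(ℤ)` -/
theorem exists_diag (m : ℤ → ℂ) (C : ℝ) (hm : ∀ n, ‖m n‖ ≤ C) :
    ∃ D : lp (fun _ : ℤ => ℂ) 2 →L[ℂ] lp (fun _ : ℤ => ℂ) 2, ∀ f n, D f n = m n * f n := by
  have hC : 0 ≤ C := (norm_nonneg _).trans (hm 0)
  have hmem : ∀ f : lp (fun _ : ℤ => ℂ) 2, Memℓp (fun n => m n * f n) 2 := by
    intro f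
    have h1 := (lp.memℓp f)
    have h2 : Memℓp (fun n => (C : ℂ) * f n) 2 := by
      have := h1.const_smul (C : ℂ)
      exact this
    rw [memℓp_gen_iff (by norm_num)] at h2 ⊢
    refine Summable.of_nonneg_of_le (fun n => by positivity) (fun n => ?_) h2
    simp only [ENNReal.toReal_ofNat, Real.rpow_ofNat, norm_mul]
    have h3 := hm n
    rw [Complex.norm_real, Real.norm_of_nonneg hC]
    gcongr
  let L : lp (fun _ : ℤ => ℂ) 2 →ₗ[ℂ] lp (fun _ : ℤ => ℂ) 2 :=
    { toFun := fun f => ⟨fun n => m n * f n, hmem f⟩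
      map_add' := by
        intro f g
        ext n
        show m n * (f n + g n) = m n * f n + m n * g n
        ring
      map_smul' := by
        intro c f
        ext n
        show m n * (c * f n) = c * (m n * f n)
        ring }
  refine ⟨L.mkContinuous C ?_, ?_⟩
  · intro f
    have h1 : ‖L f‖ ≤ ‖((C : ℂ) • f : lp (fun _ : ℤ => ℂ) 2)‖ := by
      apply lp.norm_mono (by norm_num)
      intro n
      show ‖m n * f n‖ ≤ ‖(C : ℂ) * f n‖
      rw [norm_mul, norm_mul, Complex.norm_real, Real.norm_of_nonneg hC]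
      have := hm n
      gcongr
    rw [norm_smul, Complex.norm_real, Real.norm_of_nonneg hC] at h1
    exact h1
  · intro f n
    rfl

/-- Fourier multipliers on `L²` of the circle -/
theorem exists_mult (m : ℤ → ℂ) (C : ℝ) (hm : ∀ n, ‖m n‖ ≤ C) :
    ∃ D : Lp ℂ 2 (@AddCircle.haarAddCircle 1 _) →L[ℂ] Lp ℂ 2 (@AddCircle.haarAddCircle 1 _),
      ∀ f n, fourierCoeff (D f) n = m n * fourierCoeff f n := by
  obtain ⟨D, hD⟩ := exists_diag m C hm
  let B := (@fourierBasis 1 _)
  refine ⟨(B.repr.symm.toContinuousLinearEquiv : _ →L[ℂ] _).comp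
    (D.comp (B.repr.toContinuousLinearEquiv : _ →L[ℂ] _)), ?_⟩
  intro f n
  rw [← fourierBasis_repr, ← fourierBasis_repr]
  show (B.repr (B.repr.symm (D (B.repr f)))) n = m n * (B.repr f) n
  rw [LinearIsometryEquiv.apply_symm_apply]
  exact hD _ _

/-- the small divisors of `√2` -/
theorem small_div (n : ℤ) (hn : n ≠ 0) :
    1 / |(n : ℝ)| ≤ ‖Complex.exp (2 * Real.pi * Complex.I * (n * (√2 : ℝ))) - 1‖ := by
  have hs : (√2 : ℝ) ^ 2 = 2 := Real.sq_sqrt (by norm_num)
  set k : ℤ := round ((n : ℝ) * √2) with hk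
  set d : ℝ := (n : ℝ) * √2 - k with hd
  have hdle : |d| ≤ 1 / 2 := abs_sub_round _
  have hn1 : (1 : ℝ) ≤ |(n : ℝ)| := by
    rw [← Int.cast_abs]
    exact_mod_cast Int.one_le_abs hn
  -- |n √2 - k| ≥ 1/(4|n|)
  have hdge : 1 / (4 * |(n : ℝ)|) ≤ |d| := by
    have h1 : (1 : ℝ) ≤ |2 * (n : ℝ) ^ 2 - (k : ℝ) ^ 2| := by
      have h2 : 2 * n ^ 2 - k ^ 2 ≠ 0 := by
        intro h3
        have h4 : (√2 : ℝ) = |(k : ℝ)| / |(n : ℝ)| := by
          have h5 : (k : ℝ) ^ 2 = 2 * (n : ℝ) ^ 2 := by
            have : (2 * (n : ℝ) ^ 2 - (k : ℝ) ^ 2) = 0 := by exact_mod_cast h3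
            linarith
          rw [Real.sqrt_eq_iff_mul_self_eq (by norm_num) (by positivity)]
          rw [div_mul_div_comm, ← abs_mul, ← abs_mul, ← sq, ← sq, h5, abs_of_nonneg (by positivity),
            abs_of_nonneg (by positivity)]
          have : (n : ℝ) ^ 2 ≠ 0 := by
            have : (n : ℝ) ≠ 0 := by exact_mod_cast hn
            positivity
          field_simp
        have h6 := irrational_sqrt_two
        apply h6
        refine ⟨((|k| : ℤ) : ℚ) / ((|n| : ℤ) : ℚ), ?_⟩
        rw [h4]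
        push_cast
        rfl
      have h5 := Int.one_le_abs h2
      exact_mod_cast h5
    have h2 : 2 * (n : ℝ) ^ 2 - (k : ℝ) ^ 2 = d * ((n : ℝ) * √2 + k) := by
      rw [hd]
      have : ((n : ℝ) * √2 - k) * ((n : ℝ) * √2 + k) = (n : ℝ) ^ 2 * √2 ^ 2 - k ^ 2 := by ring
      rw [this, hs]
      ring
    have h3 : |(n : ℝ) * √2 + k| ≤ 4 * |(n : ℝ)| := by
      have h4 : (n : ℝ) * √2 + k = 2 * ((n : ℝ) * √2) - d := by rw [hd]; ring
      have h5 : √2 ≤ 3 / 2 := by
        apply Real.sqrt_le_iff.mpr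
        constructor <;> norm_num
      rw [h4]
      calc |2 * ((n : ℝ) * √2) - d| ≤ |2 * ((n : ℝ) * √2)| + |d| := abs_sub _ _
        _ = 2 * √2 * |(n : ℝ)| + |d| := by
            rw [abs_mul, abs_mul, abs_of_nonneg (Real.sqrt_nonneg 2)]
            norm_num
            ring
        _ ≤ 3 * |(n : ℝ)| + 1 / 2 := by
            have : 2 * √2 * |(n : ℝ)| ≤ 3 * |(n : ℝ)| := by
              have : 2 * √2 ≤ 3 := by linarith
              gcongr
            linarith
        _ ≤ 4 * |(n : ℝ)| := by linarith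
    rw [h2, abs_mul] at h1
    have h4 : (1 : ℝ) ≤ |d| * (4 * |(n : ℝ)|) := h1.trans (by gcongr)
    rw [div_le_iff₀ (by positivity)]
    linarith
  -- the exponential
  have he : Complex.exp (2 * Real.pi * Complex.I * (n * (√2 : ℝ))) =
      Complex.exp (Complex.I * ((2 * Real.pi * d : ℝ) : ℂ)) := by
    have h1 : (2 * Real.pi * Complex.I * (n * (√2 : ℝ)) : ℂ) =
        Complex.I * ((2 * Real.pi * d : ℝ) : ℂ) + k * (2 * Real.pi * Complex.I) := by
      rw [hd]
      push_cast
      ring
    rw [h1, Complex.exp_add, Complex.exp_int_mul_two_pi_mul_I, mul_one]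
  rw [he]
  have h2 : ‖Complex.exp (Complex.I * ((2 * Real.pi * d : ℝ) : ℂ)) - 1‖ =
      ‖2 * Real.sin ((2 * Real.pi * d) / 2)‖ := by
    exact Complex.norm_exp_I_mul_ofReal_sub_one _
  rw [h2]
  have h3 : (2 * Real.pi * d) / 2 = Real.pi * d := by ring
  rw [h3, norm_mul, Real.norm_eq_abs, Real.norm_eq_abs, abs_of_nonneg (by norm_num : (0:ℝ) ≤ 2)]
  have h4 : 2 / Real.pi * |Real.pi * d| ≤ |Real.sin (Real.pi * d)| := by
    apply Real.mul_abs_le_abs_sin
    rw [abs_mul, abs_of_pos Real.pi_pos]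
    have := Real.pi_pos
    nlinarith
  have h5 : 2 / Real.pi * |Real.pi * d| = 2 * |d| := by
    rw [abs_mul, abs_of_pos Real.pi_pos]
    have := Real.pi_pos
    field_simp
  rw [h5] at h4
  calc 1 / |(n : ℝ)| = 4 * (1 / (4 * |(n : ℝ)|)) := by
        field_simp
    _ ≤ 4 * |d| := by gcongr
    _ ≤ 2 * |Real.sin (Real.pi * d)| := by linarith

end W4ec

end

section

/-!
# A Sobolev scale of periodic functions on the line

Work file for MP_4ec80c_gt.
-/

open Set Filter Topology MeasureTheory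
open scoped ContDiff

namespace W4ec

/-- Square integrable functions of period `1`. -/
def P2 (u : ℝ → ℝ) : Prop :=
  (∀ x, u (x + 1) = u x) ∧ MemLp u 2 (volume.restrict (Ioc (0:ℝ) 1))

/-- The Sobolev scale. -/
def HS : ℕ → (ℝ → ℝ) → Prop
  | 0, u => P2 u
  | k + 1, u => (∀ x, u (x + 1) = u x) ∧ ∃ w, HS k w ∧ ∀ x, u x = u 0 + ∫ t in (0:ℝ)..x, w t

theorem P2.intervalIntegrable {u : ℝ → ℝ} (h : P2 u) (a b : ℝ) :
    IntervalIntegrable u volume a b := by
  have h1 : Function.Periodic u 1 := h.1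
  refine h1.intervalIntegrable₀ one_ne_zero ?_ a b
  rw [intervalIntegrable_iff_integrableOn_Ioc_of_le zero_le_one]
  exact h.2.integrable (by norm_num)

theorem P2.of_continuous {u : ℝ → ℝ} (hu : ∀ x, u (x + 1) = u x) (hc : Continuous u) : P2 u := by
  refine ⟨hu, ?_⟩
  obtain ⟨C, hC⟩ := (isCompact_Icc (a := (0:ℝ)) (b := 1)).exists_bound_of_continuousOn
    hc.continuousOn
  refine MemLp.of_bound hc.aestronglyMeasurable C ?_
  refine (ae_restrict_iff' measurableSet_Ioc).2 (Eventually.of_forall fun x hx => ?_)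
  exact hC x (Ioc_subset_Icc_self hx)

theorem HS.periodic {k : ℕ} {u : ℝ → ℝ} (h : HS k u) : ∀ x, u (x + 1) = u x := by
  cases k with
  | zero => exact h.1
  | succ k => exact h.1

theorem continuous_of_integral {u w : ℝ → ℝ} (hw : ∀ a b, IntervalIntegrable w volume a b)
    (h : ∀ x, u x = u 0 + ∫ t in (0:ℝ)..x, w t) : Continuous u := by
  have : u = fun x => u 0 + ∫ t in (0:ℝ)..x, w t := funext h
  rw [this]
  exact continuous_const.add (intervalIntegral.continuous_primitive hw 0)

theorem HS.intervalIntegrable {k : ℕ} {u : ℝ → ℝ} (h : HS k u) :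
    ∀ a b, IntervalIntegrable u volume a b := by
  induction k generalizing u with
  | zero => exact fun a b => P2.intervalIntegrable h a b
  | succ k ih =>
    obtain ⟨_, w, hw, huw⟩ := h
    exact fun a b => (continuous_of_integral (ih hw) huw).intervalIntegrable a b

theorem HS.continuous {k : ℕ} {u : ℝ → ℝ} (h : HS (k + 1) u) : Continuous u := by
  obtain ⟨_, w, hw, huw⟩ := h
  exact continuous_of_integral hw.intervalIntegrable huw

theorem HS.pred {k : ℕ} {u : ℝ → ℝ} (h : HS (k + 1) u) : HS k u := by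
  induction k generalizing u with
  | zero => exact P2.of_continuous h.periodic h.continuous
  | succ k ih =>
    obtain ⟨hp, w, hw, huw⟩ := h
    exact ⟨hp, w, ih hw, huw⟩

theorem HS.mono {k l : ℕ} (hkl : k ≤ l) {u : ℝ → ℝ} (h : HS l u) : HS k u := by
  induction hkl with
  | refl => exact h
  | step _ ih => exact ih h.pred

theorem HS.const {k : ℕ} (c : ℝ) : HS k (fun _ => c) := by
  induction k generalizing c with
  | zero => exact P2.of_continuous (fun _ => rfl) continuous_const
  | succ k ih => exact ⟨fun _ => rfl, fun _ => 0, ih 0, fun x => by simp⟩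

theorem HS.add {k : ℕ} {u w : ℝ → ℝ} (hu : HS k u) (hw : HS k w) : HS k (fun x => u x + w x) := by
  induction k generalizing u w with
  | zero => exact ⟨fun x => by simp only [hu.1, hw.1], hu.2.add hw.2⟩
  | succ k ih =>
    obtain ⟨hp, a, ha, hua⟩ := hu
    obtain ⟨hp', b, hb, hwb⟩ := hw
    refine ⟨fun x => by simp only [hp, hp'], _, ih ha hb, fun x => ?_⟩
    rw [intervalIntegral.integral_add (ha.intervalIntegrable _ _) (hb.intervalIntegrable _ _)]
    show u x + w x = u 0 + w 0 + _
    rw [hua x, hwb x]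
    ring

theorem HS.const_mul {k : ℕ} {u : ℝ → ℝ} (hu : HS k u) (c : ℝ) : HS k (fun x => c * u x) := by
  induction k generalizing u with
  | zero => exact ⟨fun x => by simp only [hu.1], hu.2.const_mul c⟩
  | succ k ih =>
    obtain ⟨hp, a, ha, hua⟩ := hu
    refine ⟨fun x => by simp only [hp], _, ih ha, fun x => ?_⟩
    rw [intervalIntegral.integral_const_mul]
    show c * u x = c * u 0 + _
    rw [hua x]
    ring

theorem HS.neg {k : ℕ} {u : ℝ → ℝ} (hu : HS k u) : HS k (fun x => - u x) := by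
  have := hu.const_mul (-1)
  simpa using this

theorem HS.sub {k : ℕ} {u w : ℝ → ℝ} (hu : HS k u) (hw : HS k w) : HS k (fun x => u x - w x) := by
  have := hu.add hw.neg
  simpa [sub_eq_add_neg] using this

theorem HS.congr {k : ℕ} {u w : ℝ → ℝ} (hu : HS k u) (h : ∀ x, u x = w x) : HS k w := by
  have : u = w := funext h
  rwa [← this]

/-- The product rule for primitives. -/
theorem prod_rule {u w a b : ℝ → ℝ} (ha : ∀ c d, IntervalIntegrable a volume c d)
    (hb : ∀ c d, IntervalIntegrable b volume c d)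
    (hu : ∀ x, u x = u 0 + ∫ t in (0:ℝ)..x, a t) (hw : ∀ x, w x = w 0 + ∫ t in (0:ℝ)..x, b t)
    (x : ℝ) : u x * w x = u 0 * w 0 + ∫ t in (0:ℝ)..x, (a t * w t + u t * b t) := by
  have hac : ∀ {f c : ℝ → ℝ}, (∀ p q, IntervalIntegrable c volume p q) →
      (∀ x, f x = f 0 + ∫ t in (0:ℝ)..x, c t) → AbsolutelyContinuousOnInterval f 0 x := by
    intro f c hc hf
    have h1 := (hc 0 x).absolutelyContinuousOnInterval_intervalIntegral (c := 0) (by simp)
    have h2 : AbsolutelyContinuousOnInterval (fun _ : ℝ => f 0) 0 x :=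
      ((LipschitzWith.const (f 0)).lipschitzOnWith (s := uIcc 0 x)).absolutelyContinuousOnInterval
    have h3 := h2.fun_add h1
    have : f = fun x => f 0 + ∫ t in (0:ℝ)..x, c t := funext hf
    rw [this]
    simpa using h3
  have h1 := (hac ha hu).integral_deriv_mul_eq_sub (hac hb hw)
  have hder : ∀ {f c : ℝ → ℝ}, (∀ p q, IntervalIntegrable c volume p q) →
      (∀ x, f x = f 0 + ∫ t in (0:ℝ)..x, c t) → ∀ᵐ t, t ∈ uIcc 0 x → deriv f t = c t := by
    intro f c hc hf
    filter_upwards [(hc 0 x).ae_hasDerivAt_integral] with t ht htx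
    have h4 := (ht htx 0 (by simp)).const_add (f 0)
    have : f = fun x => f 0 + ∫ t in (0:ℝ)..x, c t := funext hf
    rw [this]
    exact h4.deriv
  have h2 : ∫ t in (0:ℝ)..x, (a t * w t + u t * b t) =
      ∫ t in (0:ℝ)..x, (deriv u t * w t + u t * deriv w t) := by
    apply intervalIntegral.integral_congr_ae
    filter_upwards [hder ha hu, hder hb hw] with t h5 h6 ht
    rw [h5 (uIoc_subset_uIcc ht), h6 (uIoc_subset_uIcc ht)]
  rw [h2, h1]
  ring

theorem HS.mul_aux {k : ℕ} : ∀ {a w : ℝ → ℝ}, HS k a → HS (k + 1) w → HS k (fun x => a x * w x) := by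
  induction k with
  | zero =>
    intro a w ha hw
    refine ⟨fun x => by simp only [ha.1, hw.periodic], ?_⟩
    obtain ⟨C, hC⟩ := (isCompact_Icc (a := (0:ℝ)) (b := 1)).exists_bound_of_continuousOn
      hw.continuous.continuousOn
    have h1 : MemLp w ⊤ (volume.restrict (Ioc (0:ℝ) 1)) := by
      refine memLp_top_of_bound hw.continuous.aestronglyMeasurable C ?_
      refine (ae_restrict_iff' measurableSet_Ioc).2 (Eventually.of_forall fun x hx => ?_)
      exact hC x (Ioc_subset_Icc_self hx)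
    have := h1.mul ha.2 (r := 2)
    exact this
  | succ k ih =>
    intro a w ha hw
    obtain ⟨hp, a', ha', haa⟩ := ha
    obtain ⟨hp', w', hw', hww⟩ := hw
    have hw1 : HS (k + 2) w := ⟨hp', w', hw', hww⟩
    have ha1 : HS (k + 1) a := ⟨hp, a', ha', haa⟩
    refine ⟨fun x => by simp only [hp, hp'], fun x => a' x * w x + a x * w' x, ?_, ?_⟩
    · refine (ih ha' hw1.pred).add ((ih hw'.pred ha1).congr (fun x => mul_comm _ _))
    · intro x
      exact prod_rule ha'.intervalIntegrable hw'.intervalIntegrable haa hww x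

theorem HS.mul {k : ℕ} {u w : ℝ → ℝ} (hu : HS (k + 1) u) (hw : HS (k + 1) w) :
    HS (k + 1) (fun x => u x * w x) := by
  obtain ⟨hp, a, ha, hua⟩ := id hu
  obtain ⟨hp', b, hb, hwb⟩ := id hw
  refine ⟨fun x => by simp only [hp, hp'], fun x => a x * w x + u x * b x, ?_, ?_⟩
  · exact (HS.mul_aux ha hw).add ((HS.mul_aux hb hu).congr (fun x => mul_comm _ _))
  · intro x
    exact prod_rule ha.intervalIntegrable hb.intervalIntegrable hua hwb x

theorem HS.contDiff {k : ℕ} {u : ℝ → ℝ} (h : HS (k + 1) u) : ContDiff ℝ k u := by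
  induction k generalizing u with
  | zero => exact contDiff_zero.2 h.continuous
  | succ k ih =>
    obtain ⟨hp, w, hw, huw⟩ := h
    have hder : ∀ x, HasDerivAt u (w x) x := by
      intro x
      have h1 := (intervalIntegral.integral_hasDerivAt_right (hw.intervalIntegrable 0 x)
        (hw.continuous.stronglyMeasurableAtFilter _ _) hw.continuous.continuousAt).const_add (u 0)
      have : u = fun x => u 0 + ∫ t in (0:ℝ)..x, w t := funext huw
      rw [this]
      exact h1
    have hd : deriv u = w := funext fun x => (hder x).deriv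
    have : ((k + 1 : ℕ) : WithTop ℕ∞) = (k : WithTop ℕ∞) + 1 := by push_cast; rfl
    rw [this, contDiff_succ_iff_deriv]
    refine ⟨fun x => (hder x).differentiableAt, by simp, ?_⟩
    rw [hd]
    exact ih hw

theorem contDiff_of_forall_HS {u : ℝ → ℝ} (h : ∀ k, HS k u) : ContDiff ℝ ∞ u := by
  rw [contDiff_infty]
  intro k
  exact (h (k + 1)).contDiff

end W4ec

end

section

open Set Filter Topology MeasureTheory
open scoped ContDiff Manifold ENNReal

namespace W4ec

/-- integration by parts against the primitive of an integrable function -/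
theorem ibp_real {u : ℝ → ℝ} (hu : IntervalIntegrable u volume 0 1) {g : ℝ → ℝ}
    (hg : ContDiff ℝ 1 g) :
    ∫ x in (0:ℝ)..1, (∫ t in (0:ℝ)..x, u t) * deriv g x =
      (∫ t in (0:ℝ)..1, u t) * g 1 - ∫ x in (0:ℝ)..1, u x * g x := by
  have hU : AbsolutelyContinuousOnInterval (fun x => ∫ t in (0:ℝ)..x, u t) 0 1 :=
    hu.absolutelyContinuousOnInterval_intervalIntegral (by simp)
  have hg' : AbsolutelyContinuousOnInterval g 0 1 :=
    (hg.contDiffOn).absolutelyContinuousOnInterval
  have h1 := hU.integral_mul_deriv_eq_deriv_mul hg'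
  rw [h1]
  simp only [intervalIntegral.integral_same, zero_mul, sub_zero]
  congr 1
  apply intervalIntegral.integral_congr_ae
  filter_upwards [hu.ae_hasDerivAt_integral] with x hx hx2
  have hx3 : x ∈ uIcc (0:ℝ) 1 := uIoc_subset_uIcc hx2
  rw [(hx hx3 0 (by simp)).deriv]

theorem ii_ofReal {f : ℝ → ℝ} {a b : ℝ} (h : IntervalIntegrable f volume a b) :
    IntervalIntegrable (fun x => (f x : ℂ)) volume a b := ⟨h.1.ofReal, h.2.ofReal⟩

theorem ibp_complex {u : ℝ → ℝ} (hu : IntervalIntegrable u volume 0 1) {G : ℝ → ℂ}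
    (hG : ContDiff ℝ 1 G) :
    ∫ x in (0:ℝ)..1, ((∫ t in (0:ℝ)..x, u t : ℝ) : ℂ) * deriv G x =
      ((∫ t in (0:ℝ)..1, u t : ℝ) : ℂ) * G 1 - ∫ x in (0:ℝ)..1, (u x : ℂ) * G x := by
  have hre : ContDiff ℝ 1 (fun x => (G x).re) := Complex.reCLM.contDiff.comp hG
  have him : ContDiff ℝ 1 (fun x => (G x).im) := Complex.imCLM.contDiff.comp hG
  have hGd : Differentiable ℝ G := hG.differentiable (by norm_num)
  have dre : ∀ x, deriv (fun x => (G x).re) x = (deriv G x).re := by
    intro x
    exact (Complex.reCLM.hasFDerivAt.comp_hasDerivAt x (hGd x).hasDerivAt).deriv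
  have dim : ∀ x, deriv (fun x => (G x).im) x = (deriv G x).im := by
    intro x
    exact (Complex.imCLM.hasFDerivAt.comp_hasDerivAt x (hGd x).hasDerivAt).deriv
  have hUc : ContinuousOn (fun x => ∫ t in (0:ℝ)..x, u t) (uIcc 0 1) :=
    (hu.absolutelyContinuousOnInterval_intervalIntegral (by simp)).continuousOn
  have h1 := ibp_real hu hre
  have h2 := ibp_real hu him
  simp_rw [dre] at h1
  simp_rw [dim] at h2
  have hdG : Continuous (deriv G) := hG.continuous_deriv (by norm_num)
  have i1 : IntervalIntegrable (fun x => (∫ t in (0:ℝ)..x, u t) * (deriv G x).re) volume 0 1 :=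
    (hUc.mul (Complex.continuous_re.comp hdG).continuousOn).intervalIntegrable
  have i2 : IntervalIntegrable (fun x => (∫ t in (0:ℝ)..x, u t) * (deriv G x).im) volume 0 1 :=
    (hUc.mul (Complex.continuous_im.comp hdG).continuousOn).intervalIntegrable
  have i3 : IntervalIntegrable (fun x => u x * (G x).re) volume 0 1 :=
    hu.mul_continuousOn (Complex.continuous_re.comp hG.continuous).continuousOn
  have i4 : IntervalIntegrable (fun x => u x * (G x).im) volume 0 1 :=
    hu.mul_continuousOn (Complex.continuous_im.comp hG.continuous).continuousOn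
  have e1 : ∫ x in (0:ℝ)..1, ((∫ t in (0:ℝ)..x, u t : ℝ) : ℂ) * deriv G x =
      ((∫ x in (0:ℝ)..1, (∫ t in (0:ℝ)..x, u t) * (deriv G x).re : ℝ) : ℂ) +
      ((∫ x in (0:ℝ)..1, (∫ t in (0:ℝ)..x, u t) * (deriv G x).im : ℝ) : ℂ) * Complex.I := by
    rw [← intervalIntegral.integral_ofReal, ← intervalIntegral.integral_ofReal,
      ← intervalIntegral.integral_mul_const, ← intervalIntegral.integral_add (ii_ofReal i1)
        ((ii_ofReal i2).mul_const _)]
    apply intervalIntegral.integral_congr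
    intro x _
    simp only
    conv_lhs => rw [← Complex.re_add_im (deriv G x)]
    push_cast
    ring
  have e2 : ∫ x in (0:ℝ)..1, (u x : ℂ) * G x =
      ((∫ x in (0:ℝ)..1, u x * (G x).re : ℝ) : ℂ) +
      ((∫ x in (0:ℝ)..1, u x * (G x).im : ℝ) : ℂ) * Complex.I := by
    rw [← intervalIntegral.integral_ofReal, ← intervalIntegral.integral_ofReal,
      ← intervalIntegral.integral_mul_const, ← intervalIntegral.integral_add (ii_ofReal i3)
        ((ii_ofReal i4).mul_const _)]
    apply intervalIntegral.integral_congr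
    intro x _
    simp only
    conv_lhs => rw [← Complex.re_add_im (G x)]
    push_cast
    ring
  rw [e1, e2, h1, h2]
  conv_rhs => rw [← Complex.re_add_im (G 1)]
  push_cast
  ring

theorem fourier_eq_exp (n : ℤ) (x : ℝ) :
    fourier n (x : AddCircle (1:ℝ)) = Complex.exp (2 * Real.pi * Complex.I * n * x) := by
  rw [fourier_coe_apply]
  congr 1
  push_cast
  ring

/-- Fourier coefficients of the primitive of a mean-zero function -/
theorem coeff_prim {u : ℝ → ℝ} (hu : IntervalIntegrable u volume 0 1)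
    (hu0 : ∫ t in (0:ℝ)..1, u t = 0) (n : ℤ) (hn : n ≠ 0) :
    ∫ x in (0:ℝ)..1, fourier (-n) (x : AddCircle (1:ℝ)) * ((∫ t in (0:ℝ)..x, u t : ℝ) : ℂ) =
      1 / (2 * Real.pi * Complex.I * n) *
        ∫ x in (0:ℝ)..1, fourier (-n) (x : AddCircle (1:ℝ)) * (u x : ℂ) := by
  set c : ℂ := -(2 * Real.pi * Complex.I * n) with hc
  have hc0 : c ≠ 0 := by
    rw [hc]
    have h1 : (n : ℂ) ≠ 0 := by exact_mod_cast hn
    have h2 : (Real.pi : ℂ) ≠ 0 := by exact_mod_cast Real.pi_ne_zero
    simp [h1, h2, Complex.I_ne_zero]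
  set G : ℝ → ℂ := fun x => Complex.exp (c * x) / c with hG
  have hGd : ∀ x : ℝ, HasDerivAt G (Complex.exp (c * x)) x := by
    intro x
    have h1 : HasDerivAt (fun x : ℝ => c * (x : ℂ)) c x := by
      have := (Complex.ofRealCLM.hasDerivAt (x := x)).const_mul c
      simpa using this
    have h2 := (h1.cexp).div_const c
    have h3 : Complex.exp (c * x) * c / c = Complex.exp (c * x) := by
      field_simp
    rw [h3] at h2
    exact h2
  have hGc : ContDiff ℝ 1 G := by
    rw [hG]
    apply ContDiff.div_const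
    apply ContDiff.cexp
    exact contDiff_const.mul Complex.ofRealCLM.contDiff
  have h1 := ibp_complex hu hGc
  have hd : ∀ x : ℝ, deriv G x = fourier (-n) (x : AddCircle (1:ℝ)) := by
    intro x
    rw [(hGd x).deriv, fourier_eq_exp]
    congr 1
    rw [hc]
    push_cast
    ring
  have hGv : ∀ x : ℝ, G x = fourier (-n) (x : AddCircle (1:ℝ)) / c := by
    intro x
    rw [← hd, (hGd x).deriv]
  simp_rw [hd] at h1
  rw [hu0, Complex.ofReal_zero, zero_mul, zero_sub] at h1
  have h2 : ∫ x in (0:ℝ)..1, fourier (-n) (x : AddCircle (1:ℝ)) *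
      ((∫ t in (0:ℝ)..x, u t : ℝ) : ℂ) =
      ∫ x in (0:ℝ)..1, ((∫ t in (0:ℝ)..x, u t : ℝ) : ℂ) *
        fourier (-n) (x : AddCircle (1:ℝ)) := by
    apply intervalIntegral.integral_congr
    intro x _
    simp only
    ring
  rw [h2, h1]
  have h3 : ∫ x in (0:ℝ)..1, (u x : ℂ) * G x =
      (1 / c) * ∫ x in (0:ℝ)..1, fourier (-n) (x : AddCircle (1:ℝ)) * (u x : ℂ) := by
    rw [← intervalIntegral.integral_const_mul]
    apply intervalIntegral.integral_congr
    intro x _
    simp only
    rw [hGv]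
    ring
  rw [h3, hc]
  have h4 : (n : ℂ) ≠ 0 := by exact_mod_cast hn
  have h5 : (Real.pi : ℂ) ≠ 0 := by exact_mod_cast Real.pi_ne_zero
  have h6 := Complex.I_ne_zero
  field_simp

/-- Fourier coefficients of a translate -/
theorem coeff_translate (f : AddCircle (1:ℝ) → ℂ) (a : AddCircle (1:ℝ)) (n : ℤ) :
    fourierCoeff (fun z => f (z + a)) n = fourier n a * fourierCoeff f n := by
  unfold fourierCoeff
  have h1 : ∀ z : AddCircle (1:ℝ), fourier (-n) z • f (z + a) =
      (fun w : AddCircle (1:ℝ) => fourier n a * (fourier (-n) w • f w)) (z + a) := by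
    intro z
    simp only [smul_eq_mul]
    have h2 : fourier (-n) (z + a) = fourier (-n) z * fourier (-n) a := by
      rw [fourier_apply, fourier_apply, fourier_apply, smul_add, AddCircle.toCircle_add,
        Circle.coe_mul]
    have h3 : fourier n a * fourier (-n) a = (1 : ℂ) := by
      rw [← fourier_add]
      simp
    rw [h2]
    calc fourier (-n) z * f (z + a) = (fourier n a * fourier (-n) a) * (fourier (-n) z * f (z + a)) := by
          rw [h3, one_mul]
      _ = _ := by ring
  simp_rw [h1]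
  rw [integral_add_right_eq_self (fun w : AddCircle (1:ℝ) =>
    fourier n a * (fourier (-n) w • f w)) a, integral_const_mul]

end W4ec

end
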