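import Mathlib
import Pool.Agent.Work.MP_4ec80c_gt.Bd.B01

/-! Bundle of small proof modules (one section per former module). -/

section

/-!
# Group theoretic lemmas: collecting modifications, Burago-Ivanov-Polterovich trick
-/

namespace W4ec

variable {G : Type*} [Group G]

/-- `Rp s n = s n * s (n-1) * ... * s 0`. -/
def Rp (s : ℕ → G) : ℕ → G
  | 0 => s 0
  | n + 1 => s (n + 1) * Rp s n

/-- `Pp B s n = ∏_{j ≤ n} B^j s_j B^{-j}` (in increasing order of `j`). -/
def Pp (B : G) (s : ℕ → G) : ℕ → G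
  | 0 => s 0
  | n + 1 => Pp B s n * (B ^ (n + 1) * s (n + 1) * (B ^ (n + 1))⁻¹)

theorem Pp_congr {B : G} {s t : ℕ → G} : ∀ {n : ℕ}, (∀ j ≤ n, s j = t j) → Pp B s n = Pp B t n
  | 0, h => h 0 le_rfl
  | n + 1, h => by
    rw [Pp, Pp, Pp_congr (fun j hj => h j (Nat.le_succ_of_le hj)), h (n + 1) le_rfl]

theorem Rp_congr {s t : ℕ → G} : ∀ {n : ℕ}, (∀ j ≤ n, s j = t j) → Rp s n = Rp t n
  | 0, h => h 0 le_rfl
  | n + 1, h => by
    rw [Rp, Rp, Rp_congr (fun j hj => h j (Nat.le_succ_of_le hj)), h (n + 1) le_rfl]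

/-- `B^m a B^{-m}` commutes with `Pp B s k` for `k < m ≤ n`. -/
theorem commute_Pp {B : G} {S : Subgroup G} {n : ℕ}
    (hc : ∀ m, 1 ≤ m → m ≤ n → ∀ a ∈ S, ∀ b ∈ S, Commute (B ^ m * a * (B ^ m)⁻¹) b)
    {s : ℕ → G} (hs : ∀ j ≤ n, s j ∈ S) {m : ℕ} (hm : m ≤ n) {a : G} (ha : a ∈ S) :
    ∀ k, k < m → Commute (B ^ m * a * (B ^ m)⁻¹) (Pp B s k)
  | 0, hk => hc m hk hm a ha _ (hs 0 (Nat.zero_le _))
  | k + 1, hk => by
    rw [Pp]
    refine Commute.mul_right (commute_Pp hc hs hm ha k (by omega)) ?_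
    have h := hc (m - (k + 1)) (by omega) (by omega) a ha _ (hs (k + 1) (by omega))
    have e : B ^ m = B ^ (k + 1) * B ^ (m - (k + 1)) := by
      rw [← pow_add]; congr 1; omega
    have h2 := Commute.map h (MulAut.conj (B ^ (k + 1))).toMonoidHom
    simp only [MulEquiv.coe_toMonoidHom, MulAut.conj_apply] at h2
    have e2 : B ^ m * a * (B ^ m)⁻¹ =
        B ^ (k + 1) * (B ^ (m - (k + 1)) * a * (B ^ (m - (k + 1)))⁻¹) * (B ^ (k + 1))⁻¹ := by
      rw [e]; group
    rw [e2]
    exact h2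

/-- **Collect lemma.** -/
theorem collect {B : G} {S K : Subgroup G} (hBK : B ∈ K) (hSK : S ≤ K) :
    ∀ (n : ℕ), (∀ m, 1 ≤ m → m ≤ n → ∀ a ∈ S, ∀ b ∈ S, Commute (B ^ m * a * (B ^ m)⁻¹) b) →
    ∀ s : ℕ → G, (∀ j ≤ n, s j ∈ S) →
      ∃ C ∈ K, C * (B * Pp B s n) * C⁻¹ = B * Rp s n
  | 0, _, s, _ => ⟨1, K.one_mem, by simp [Pp, Rp]⟩
  | n + 1, hc, s, hs => by
    -- new sequence with `s' n = s (n+1) * s n`
    set s' : ℕ → G := fun j => if j = n then s (n + 1) * s n else s j with hs'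
    have hs'n : s' n = s (n + 1) * s n := by simp [hs']
    have hs'lt : ∀ j, j ≠ n → s' j = s j := by intro j hj; simp [hs', hj]
    have hs'S : ∀ j ≤ n, s' j ∈ S := by
      intro j hj
      by_cases h : j = n
      · rw [h, hs'n]; exact S.mul_mem (hs _ le_rfl) (hs _ (by omega))
      · rw [hs'lt j h]; exact hs j (by omega)
    obtain ⟨C, hCK, hC⟩ := collect hBK hSK n (fun m h1 h2 => hc m h1 (by omega)) s' hs'S
    have hRp : Rp s' n = Rp s (n + 1) := by
      cases n with
      | zero => simp [Rp, hs'n]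
      | succ k =>
        rw [Rp, Rp, Rp, hs'n, mul_assoc]
        congr 2
        exact Rp_congr (fun j hj => hs'lt j (by omega))
    set x := B ^ (n + 1) * s (n + 1) * (B ^ (n + 1))⁻¹ with hx
    -- the conjugation by `x`
    have hPp : x * (B * Pp B s (n + 1)) * x⁻¹ = B * Pp B s' n := by
      have e1 : Pp B s (n + 1) * x⁻¹ = Pp B s n := by rw [Pp, ← hx]; group
      have e2 : x * B = B * (B ^ n * s (n + 1) * (B ^ n)⁻¹) := by
        rw [hx, pow_succ']; group
      have e3 : x * (B * Pp B s (n + 1)) * x⁻¹ = (x * B) * (Pp B s (n + 1) * x⁻¹) := by group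
      rw [e3, e1, e2, mul_assoc]
      congr 1
      cases n with
      | zero => simp [Pp, hs'n]
      | succ k =>
        have hcomm := commute_Pp (n := k + 2) (B := B) (S := S) hc hs (m := k + 1) (by omega)
          (hs (k + 2) (by omega)) k (by omega)
        rw [Pp, ← mul_assoc, hcomm.eq, mul_assoc]
        rw [Pp]
        have : Pp B s' k = Pp B s k := Pp_congr (fun j hj => hs'lt j (by omega))
        rw [this, hs'n]
        group
    refine ⟨C * x, K.mul_mem hCK ?_, ?_⟩
    · exact K.mul_mem (K.mul_mem (K.pow_mem hBK _) (hSK (hs _ le_rfl))) (K.inv_mem (K.pow_mem hBK _))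
    · rw [← hRp, ← hC, ← hPp]
      group

/-! ### Burago-Ivanov-Polterovich -/

open scoped commutatorElement

/-- product of commutators of a list of pairs -/
def Yl : List (G × G) → G
  | [] => 1
  | p :: t => ⁅p.1, p.2⁆ * Yl t

/-- `∏_{i ≥ 1} g^i x_i g^{-i}` -/
def Ql (g : G) : List G → G
  | [] => 1
  | x :: t => g * (x * Ql g t) * g⁻¹

theorem Ql_good {g : G} {L : Subgroup G}
    (hL : ∀ i : ℕ, ∀ a ∈ L, ∀ b ∈ L, Commute (g ^ (i + 1) * a * (g ^ (i + 1))⁻¹) b) :
    ∀ (l : List G), (∀ x ∈ l, x ∈ L) → ∀ i : ℕ, ∀ b ∈ L, Commute (g ^ i * Ql g l * (g ^ i)⁻¹) b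
  | [], _, i, b, _ => by simp [Ql]
  | x :: t, hl, i, b, hb => by
    have h1 := hL i x (hl x (by simp)) b hb
    have h2 := Ql_good hL t (fun y hy => hl y (by simp [hy])) (i + 1) b hb
    have e : g ^ i * Ql g (x :: t) * (g ^ i)⁻¹ =
        (g ^ (i + 1) * x * (g ^ (i + 1))⁻¹) * (g ^ (i + 1) * Ql g t * (g ^ (i + 1))⁻¹) := by
      rw [Ql, pow_succ]; group
    rw [e]
    exact h1.mul_left h2

theorem Ql_mem {g : G} {L K : Subgroup G} (hLK : L ≤ K) (hg : g ∈ K) :
    ∀ (l : List G), (∀ x ∈ l, x ∈ L) → Ql g l ∈ K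
  | [], _ => K.one_mem
  | x :: t, hl => by
    rw [Ql]
    exact K.mul_mem (K.mul_mem hg (K.mul_mem (hLK (hl x (by simp)))
      (Ql_mem hLK hg t (fun y hy => hl y (by simp [hy]))))) (K.inv_mem hg)

theorem Ql_commutator {g : G} {L : Subgroup G}
    (hL : ∀ i : ℕ, ∀ a ∈ L, ∀ b ∈ L, Commute (g ^ (i + 1) * a * (g ^ (i + 1))⁻¹) b) :
    ∀ (l : List (G × G)), (∀ p ∈ l, p.1 ∈ L ∧ p.2 ∈ L) →
      Ql g (l.map fun p => ⁅p.1, p.2⁆) = ⁅Ql g (l.map Prod.fst), Ql g (l.map Prod.snd)⁆
  | [], _ => by simp [Ql]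
  | p :: t, hl => by
    have ih := Ql_commutator hL t (fun q hq => hl q (by simp [hq]))
    obtain ⟨hp1, hp2⟩ := hl p (by simp)
    have hA : ∀ b ∈ L, Commute (Ql g (t.map Prod.fst)) b := by
      intro b hb
      have := Ql_good hL (t.map Prod.fst) (by
        intro x hx
        obtain ⟨q, hq, rfl⟩ := List.mem_map.1 hx
        exact (hl q (by simp [hq])).1) 0 b hb
      simpa using this
    have hB : ∀ b ∈ L, Commute (Ql g (t.map Prod.snd)) b := by
      intro b hb
      have := Ql_good hL (t.map Prod.snd) (by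
        intro x hx
        obtain ⟨q, hq, rfl⟩ := List.mem_map.1 hx
        exact (hl q (by simp [hq])).2) 0 b hb
      simpa using this
    simp only [List.map_cons, Ql]
    rw [ih]
    set P := Ql g (t.map Prod.fst)
    set Q := Ql g (t.map Prod.snd)
    have c1 : Commute P p.1 := hA _ hp1
    have c2 : Commute P p.2 := hA _ hp2
    have c3 : Commute Q p.1 := hB _ hp1
    have c4 : Commute Q p.2 := hB _ hp2
    have key : ⁅p.1 * P, p.2 * Q⁆ = ⁅p.1, p.2⁆ * ⁅P, Q⁆ := by
      simp only [commutatorElement_def, mul_inv_rev]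
      have k1 : P * p.2 = p.2 * P := c2.eq
      have k2 : Q * P⁻¹ * p.1⁻¹ = p.1⁻¹ * (Q * P⁻¹) := by
        have a1 : Commute P⁻¹ p.1⁻¹ := c1.inv_inv
        have a2 : Commute Q p.1⁻¹ := c3.inv_right
        rw [mul_assoc, a1.eq, ← mul_assoc, a2.eq, mul_assoc]
      have k3 : P * p.1⁻¹ = p.1⁻¹ * P := (c1.inv_right).eq
      have k4 : (P * (Q * P⁻¹) * Q⁻¹) * p.2⁻¹ = p.2⁻¹ * (P * (Q * P⁻¹) * Q⁻¹) := by
        have a1 : Commute P p.2⁻¹ := c2.inv_right
        have a2 : Commute Q p.2⁻¹ := c4.inv_right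
        exact ((((a1.mul_left (a2.mul_left c2.inv_inv))).mul_left c4.inv_inv)).eq
      calc p.1 * P * (p.2 * Q) * (P⁻¹ * p.1⁻¹) * (Q⁻¹ * p.2⁻¹)
          = p.1 * (P * p.2) * (Q * P⁻¹ * p.1⁻¹) * (Q⁻¹ * p.2⁻¹) := by group
        _ = p.1 * (p.2 * P) * (p.1⁻¹ * (Q * P⁻¹)) * (Q⁻¹ * p.2⁻¹) := by rw [k1, k2]
        _ = p.1 * p.2 * (P * p.1⁻¹) * (Q * P⁻¹) * (Q⁻¹ * p.2⁻¹) := by group
        _ = p.1 * p.2 * (p.1⁻¹ * P) * (Q * P⁻¹) * (Q⁻¹ * p.2⁻¹) := by rw [k3]
        _ = p.1 * p.2 * p.1⁻¹ * ((P * (Q * P⁻¹) * Q⁻¹) * p.2⁻¹) := by group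
        _ = p.1 * p.2 * p.1⁻¹ * (p.2⁻¹ * (P * (Q * P⁻¹) * Q⁻¹)) := by rw [k4]
        _ = p.1 * p.2 * p.1⁻¹ * p.2⁻¹ * (P * Q * P⁻¹ * Q⁻¹) := by group
    rw [← key]
    simp only [commutatorElement_def]
    group

theorem bip_aux {g : G} {L K : Subgroup G} (hLK : L ≤ K) (hg : g ∈ K)
    (hL : ∀ i : ℕ, ∀ a ∈ L, ∀ b ∈ L, Commute (g ^ (i + 1) * a * (g ^ (i + 1))⁻¹) b) :
    ∀ (l : List G), (∀ x ∈ l, x ∈ L) → ∃ F ∈ K, l.prod = ⁅F, g⁆ * Ql g l
  | [], _ => ⟨1, K.one_mem, by simp [Ql]⟩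
  | x :: t, hl => by
    obtain ⟨F', hF', h⟩ := bip_aux hLK hg hL t (fun y hy => hl y (by simp [hy]))
    have hx : x ∈ L := hl x (by simp)
    have htL : t.prod ∈ L := Subgroup.list_prod_mem L (fun y hy => hl y (by simp [hy]))
    have hQ : Commute (Ql g t) t.prod := by
      have := Ql_good hL t (fun y hy => hl y (by simp [hy])) 0 _ htL
      simpa using this
    refine ⟨x * t.prod * (g * F' * g⁻¹), ?_, ?_⟩
    · exact K.mul_mem (K.mul_mem (hLK hx) (hLK htL)) (K.mul_mem (K.mul_mem hg hF') (K.inv_mem hg))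
    · rw [List.prod_cons, Ql]
      set z := t.prod
      set Q := Ql g t
      have e1 : F' * g * F'⁻¹ * g⁻¹ = z * Q⁻¹ := by
        rw [h, commutatorElement_def]; group
      have e2 : z * Q⁻¹ * z⁻¹ = Q⁻¹ := by
        have : Commute z Q⁻¹ := hQ.symm.inv_right
        rw [this.eq]; group
      simp only [commutatorElement_def]
      have e3 : x * z * (g * F' * g⁻¹) * g * (x * z * (g * F' * g⁻¹))⁻¹ * g⁻¹ =
          x * z * g * ((F' * g * F'⁻¹ * g⁻¹) * z⁻¹) * x⁻¹ * g⁻¹ := by group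
      rw [e3, e1, e2]
      group

/-- **Burago-Ivanov-Polterovich**: a product of commutators in `L` is a product of two
commutators in `K`. -/
theorem bip {g : G} {L K : Subgroup G} (hLK : L ≤ K) (hg : g ∈ K)
    (hL : ∀ i : ℕ, ∀ a ∈ L, ∀ b ∈ L, Commute (g ^ (i + 1) * a * (g ^ (i + 1))⁻¹) b)
    (l : List (G × G)) (hl : ∀ p ∈ l, p.1 ∈ L ∧ p.2 ∈ L) :
    ∃ F ∈ K, ∃ P ∈ K, ∃ Q ∈ K, (l.map fun p => ⁅p.1, p.2⁆).prod = ⁅F, g⁆ * ⁅P, Q⁆ := by
  have h1 : ∀ x ∈ l.map fun p => ⁅p.1, p.2⁆, x ∈ L := by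
    intro x hx
    obtain ⟨q, hq, rfl⟩ := List.mem_map.1 hx
    obtain ⟨a, b⟩ := hl q hq
    rw [commutatorElement_def]
    exact L.mul_mem (L.mul_mem (L.mul_mem a b) (L.inv_mem a)) (L.inv_mem b)
  obtain ⟨F, hF, h⟩ := bip_aux hLK hg hL _ h1
  refine ⟨F, hF, Ql g (l.map Prod.fst), ?_, Ql g (l.map Prod.snd), ?_, ?_⟩
  · exact Ql_mem hLK hg _ (by
      intro x hx
      obtain ⟨q, hq, rfl⟩ := List.mem_map.1 hx
      exact (hl q hq).1)
  · exact Ql_mem hLK hg _ (by
      intro x hx
      obtain ⟨q, hq, rfl⟩ := List.mem_map.1 hx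
      exact (hl q hq).2)
  · rw [h, Ql_commutator hL l hl]

end W4ec

end

section

/-!
# Regularity bootstrap for the cohomological equation

Work file for MP_4ec80c_gt (item B).
-/

open Set Filter Topology MeasureTheory
open scoped ContDiff

namespace W4ec

/-- The statement of item T. -/
def StatementT : Prop :=
  ∃ T : Lp ℝ 2 (volume.restrict (Ioc (0:ℝ) 1)) →L[ℝ] Lp ℝ 2 (volume.restrict (Ioc (0:ℝ) 1)),
    ∀ ρ : Lp ℝ 2 (volume.restrict (Ioc (0:ℝ) 1)),
      (∫ x in (0:ℝ)..1, T ρ x = 0) ∧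
      ∀ᵐ x ∂(volume.restrict (Ioc (0:ℝ) 1)),
        T ρ (Int.fract (x + √2)) - T ρ x =
          (∫ t in (0:ℝ)..x, (ρ t - ∫ s in (0:ℝ)..1, ρ s)) -
            ∫ z in (0:ℝ)..1, ∫ t in (0:ℝ)..z, (ρ t - ∫ s in (0:ℝ)..1, ρ s)

/-- A periodic property which holds almost everywhere on `(0, 1]` holds almost everywhere. -/
theorem ae_of_ae_Ioc {p : ℝ → Prop} (hp : ∀ (x : ℝ) (n : ℤ), p (x - n) → p x)
    (h : ∀ᵐ x ∂(volume.restrict (Ioc (0:ℝ) 1)), p x) : ∀ᵐ x, p x := by
  rw [ae_restrict_iff' measurableSet_Ioc] at h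
  have h1 : ∀ n : ℤ, ∀ᵐ x : ℝ, x - n ∈ Ioc (0:ℝ) 1 → p (x - n) := fun n =>
    (measurePreserving_sub_right volume (n : ℝ)).quasiMeasurePreserving.ae h
  filter_upwards [ae_all_iff.2 h1] with x hx
  refine hp x (⌈x⌉ - 1) (hx _ ?_)
  have h2 := Int.ceil_lt_add_one x
  have h3 := Int.le_ceil x
  push_cast
  constructor <;> linarith

theorem per_int {w : ℝ → ℝ} (hw : ∀ x, w (x + 1) = w x) (x : ℝ) (n : ℤ) : w (x - n) = w x := by
  have h : Function.Periodic w 1 := hw
  have := h.sub_int_mul_eq (x := x) n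
  simpa using this

/-- The primitive of the mean-free part, normalised to have mean zero. -/
noncomputable def Pr (ρ : ℝ → ℝ) (x : ℝ) : ℝ :=
  (∫ t in (0:ℝ)..x, (ρ t - ∫ s in (0:ℝ)..1, ρ s)) -
    ∫ z in (0:ℝ)..1, ∫ t in (0:ℝ)..z, (ρ t - ∫ s in (0:ℝ)..1, ρ s)

theorem Pr_periodic {ρ : ℝ → ℝ} (hρ : P2 ρ) (x : ℝ) : Pr ρ (x + 1) = Pr ρ x := by
  unfold Pr
  set m := ∫ s in (0:ℝ)..1, ρ s with hm
  have h1 : ∀ a b, IntervalIntegrable (fun t => ρ t - m) volume a b := fun a b =>
    (hρ.intervalIntegrable a b).sub intervalIntegrable_const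
  have h2 : Function.Periodic (fun t => ρ t - m) 1 := fun t => by
    show ρ (t + 1) - m = ρ t - m
    rw [hρ.1]
  have h3 := h2.intervalIntegral_add_eq_add 0 x h1
  have h4 : ∫ t in (0:ℝ)..0 + 1, (ρ t - m) = 0 := by
    rw [zero_add, intervalIntegral.integral_sub (hρ.intervalIntegrable _ _)
      intervalIntegrable_const]
    simp [hm]
  rw [h3, h4, add_zero]

theorem int_shift {w : ℝ → ℝ} (hw : ∀ x, w (x + 1) = w x) (c : ℝ) :
    ∫ x in (0:ℝ)..1, w (x + c) = ∫ x in (0:ℝ)..1, w x := by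
  rw [intervalIntegral.integral_comp_add_right]
  have h : Function.Periodic w 1 := hw
  have := h.intervalIntegral_add_eq c 0
  rw [zero_add] at this
  rw [zero_add, add_comm 1 c]
  exact this

theorem Pr_mean {ρ : ℝ → ℝ} (hρ : P2 ρ) : ∫ x in (0:ℝ)..1, Pr ρ x = 0 := by
  unfold Pr
  rw [intervalIntegral.integral_sub]
  · simp
  · apply Continuous.intervalIntegrable
    exact intervalIntegral.continuous_primitive (fun a b =>
      (hρ.intervalIntegrable a b).sub intervalIntegrable_const) 0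
  · exact intervalIntegrable_const

/-- The case `k = 0` of the solution of the cohomological equation (integrated form). -/
theorem solve0 (hT : StatementT) {ρ : ℝ → ℝ} (hρ : P2 ρ) :
    ∃ w, P2 w ∧ ∫ x in (0:ℝ)..1, w x = 0 ∧
      ∀ x, ∫ t in (0:ℝ)..x, (w (t + √2) - w t) = ∫ t in (0:ℝ)..x, Pr ρ t := by
  obtain ⟨T, hT⟩ := hT
  obtain ⟨h1, h2⟩ := hT (hρ.2.toLp ρ)
  set ρ' := hρ.2.toLp ρ with hρ'
  have hae : ∀ᵐ x ∂(volume.restrict (Ioc (0:ℝ) 1)), ρ' x = ρ x := hρ.2.coeFn_toLp
  -- integrals of ρ' over subintervals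
  have hint : ∀ x ∈ Icc (0:ℝ) 1, ∀ c : ℝ, ∫ t in (0:ℝ)..x, (ρ' t - c) = ∫ t in (0:ℝ)..x, (ρ t - c) := by
    intro x hx c
    apply intervalIntegral.integral_congr_ae
    rw [ae_restrict_iff' measurableSet_Ioc] at hae
    filter_upwards [hae] with t ht htx
    rw [uIoc_of_le hx.1] at htx
    rw [ht ⟨htx.1, htx.2.trans hx.2⟩]
  have hmean : ∫ s in (0:ℝ)..1, ρ' s = ∫ s in (0:ℝ)..1, ρ s := by
    have := hint 1 (by simp) 0
    simpa using this
  have hdd : ∫ z in (0:ℝ)..1, ∫ t in (0:ℝ)..z, (ρ' t - ∫ s in (0:ℝ)..1, ρ' s) =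
      ∫ z in (0:ℝ)..1, ∫ t in (0:ℝ)..z, (ρ t - ∫ s in (0:ℝ)..1, ρ s) := by
    apply intervalIntegral.integral_congr
    intro z hz
    rw [uIcc_of_le zero_le_one] at hz
    show ∫ t in (0:ℝ)..z, (ρ' t - ∫ s in (0:ℝ)..1, ρ' s) = ∫ t in (0:ℝ)..z, (ρ t - ∫ s in (0:ℝ)..1, ρ s)
    rw [hmean, hint z hz]
  -- the solution
  set w : ℝ → ℝ := fun x => T ρ' (Int.fract x) with hw
  have hwp : ∀ x, w (x + 1) = w x := fun x => by simp [hw]
  have hwae : ∀ᵐ x ∂(volume.restrict (Ioc (0:ℝ) 1)), w x = T ρ' x := by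
    have h3 : ∀ᵐ x : ℝ ∂(volume.restrict (Ioc (0:ℝ) 1)), x ≠ 1 := by
      apply ae_restrict_of_ae
      simp [ae_iff, measure_singleton]
    filter_upwards [h3, ae_restrict_mem measurableSet_Ioc] with x hx hx2
    have : Int.fract x = x := by
      rw [Int.fract_eq_self]
      exact ⟨hx2.1.le, lt_of_le_of_ne hx2.2 hx⟩
    simp only [hw, this]
  have hwP : P2 w := ⟨hwp, (Lp.memLp (T ρ')).ae_eq (by
    filter_upwards [hwae] with x hx
    exact hx.symm)⟩
  refine ⟨w, hwP, ?_, ?_⟩
  · have h7 : ∫ x in (0:ℝ)..1, w x = ∫ x in (0:ℝ)..1, T ρ' x := by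
      rw [intervalIntegral.integral_of_le zero_le_one, intervalIntegral.integral_of_le zero_le_one]
      exact integral_congr_ae hwae
    rw [h7, h1]
  · have h4 : ∀ᵐ x ∂(volume.restrict (Ioc (0:ℝ) 1)), w (x + √2) - w x = Pr ρ x := by
      filter_upwards [h2, hwae, ae_restrict_mem measurableSet_Ioc] with x hx hx2 hx3
      rw [hx2]
      show T ρ' (Int.fract (x + √2)) - T ρ' x = Pr ρ x
      rw [hx, hdd, hmean, hint x ⟨hx3.1.le, hx3.2⟩]
      rfl
    have h5 : ∀ᵐ x, w (x + √2) - w x = Pr ρ x := by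
      refine ae_of_ae_Ioc (fun x n hx => ?_) h4
      rw [per_int hwp x n, per_int (Pr_periodic hρ) x n] at hx
      have h6 : w (x - n + √2) = w (x + √2) := by
        have := per_int hwp (x + √2) n
        rw [← this]
        congr 1; ring
      rw [← hx, h6]
    intro x
    exact intervalIntegral.integral_congr_ae (by filter_upwards [h5] with t ht _ using ht)

theorem eq_of_integral_eq {F G : ℝ → ℝ} (hF : Continuous F) (hG : Continuous G)
    (h : ∀ x, ∫ t in (0:ℝ)..x, F t = ∫ t in (0:ℝ)..x, G t) (x : ℝ) : F x = G x := by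
  have h1 := intervalIntegral.integral_hasDerivAt_right (hF.intervalIntegrable 0 x)
    (hF.stronglyMeasurableAtFilter _ _) hF.continuousAt
  have h2 := intervalIntegral.integral_hasDerivAt_right (hG.intervalIntegrable 0 x)
    (hG.stronglyMeasurableAtFilter _ _) hG.continuousAt
  rw [funext h] at h1
  exact h1.unique h2

/-- Solution of the cohomological equation in the scale. -/
theorem solve (hT : StatementT) : ∀ (k : ℕ) {ρ : ℝ → ℝ}, HS (k + 1) ρ →
    ∫ x in (0:ℝ)..1, ρ x = 0 → ∃ w, HS (k + 1) w ∧ ∫ x in (0:ℝ)..1, w x = 0 ∧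
      ∃ c, ∀ x, w (x + √2) - w x = (∫ t in (0:ℝ)..x, ρ t) + c := by
  -- integrated form, for all `k ≥ 0`
  have key : ∀ (k : ℕ) {ρ : ℝ → ℝ}, HS k ρ → ∫ x in (0:ℝ)..1, ρ x = 0 →
      ∃ w, HS k w ∧ ∫ x in (0:ℝ)..1, w x = 0 ∧
        ∀ x, ∫ t in (0:ℝ)..x, (w (t + √2) - w t) = ∫ t in (0:ℝ)..x, Pr ρ t := by
    intro k
    induction k with
    | zero =>
      intro ρ hρ _
      exact solve0 hT hρ
    | succ k ih =>
      intro ρ hρ hρ0
      obtain ⟨hp, ρ', hρ', hρρ⟩ := id hρ
      have hρ'0 : ∫ x in (0:ℝ)..1, ρ' x = 0 := by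
        have h1 := hρρ 1
        have h2 := hp 0
        rw [zero_add] at h2
        linarith
      obtain ⟨w', hw', hw'0, hww⟩ := ih hρ' hρ'0
      have hPr : ∀ x, Pr ρ' x = ρ x := by
        intro x
        have h2 : ∀ z, ∫ t in (0:ℝ)..z, (ρ' t - ∫ s in (0:ℝ)..1, ρ' s) = ρ z - ρ 0 := by
          intro z
          rw [hρ'0]
          simp only [sub_zero]
          have := hρρ z
          linarith
        unfold Pr
        rw [h2, intervalIntegral.integral_congr (g := fun z => ρ z - ρ 0) (fun z _ => h2 z),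
          intervalIntegral.integral_sub (hρ.intervalIntegrable _ _) intervalIntegrable_const, hρ0]
        simp
      have hcont : Continuous (fun x => ∫ t in (0:ℝ)..x, w' t) :=
        intervalIntegral.continuous_primitive hw'.intervalIntegrable 0
      set M := ∫ z in (0:ℝ)..1, ∫ t in (0:ℝ)..z, w' t with hM
      set w : ℝ → ℝ := fun x => (∫ t in (0:ℝ)..x, w' t) - M with hw
      have hwp : ∀ x, w (x + 1) = w x := by
        intro x
        have h2 : Function.Periodic w' 1 := hw'.periodic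
        have h3 := h2.intervalIntegral_add_eq_add 0 x hw'.intervalIntegrable
        rw [zero_add, hw'0, add_zero] at h3
        simp only [hw, h3]
      have hwS : HS (k + 1) w := ⟨hwp, w', hw', fun x => by simp [hw]; ring⟩
      have hw0 : ∫ x in (0:ℝ)..1, w x = 0 := by
        simp only [hw]
        rw [intervalIntegral.integral_sub (hcont.intervalIntegrable _ _) intervalIntegrable_const]
        simp [hM]
      refine ⟨w, hwS, hw0, ?_⟩
      -- w (x + √2) - w x = w √2 - w 0 + ∫₀ˣ ρ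
      have h5 : ∀ x, w (x + √2) - w x = (w √2 - w 0) + ∫ t in (0:ℝ)..x, ρ t := by
        intro x
        have h6 := hww x
        rw [intervalIntegral.integral_congr (g := ρ) (fun z _ => hPr z)] at h6
        rw [← h6, intervalIntegral.integral_sub]
        · rw [intervalIntegral.integral_comp_add_right]
          simp only [hw, intervalIntegral.integral_same, zero_add]
          have h7 := intervalIntegral.integral_add_adjacent_intervals
            (hw'.intervalIntegrable 0 √2) (hw'.intervalIntegrable √2 (x + √2))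
          linarith
        · have := (hw'.intervalIntegrable (0 + √2) (x + √2)).comp_add_right √2
          simpa using this
        · exact hw'.intervalIntegrable _ _
      have h8 : ∀ x, w (x + √2) - w x = Pr ρ x := by
        have h9 : ∀ x, w (x + √2) - w x = ((w √2 - w 0) +
            ∫ z in (0:ℝ)..1, ∫ t in (0:ℝ)..z, ρ t) + Pr ρ x := by
          intro x
          unfold Pr
          rw [hρ0]
          simp only [sub_zero]
          rw [h5 x]
          ring
        have h10 : ∫ x in (0:ℝ)..1, (w (x + √2) - w x) = 0 := by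
          rw [intervalIntegral.integral_sub, int_shift hwp, sub_self]
          · have := (hwS.intervalIntegrable (0 + √2) (1 + √2)).comp_add_right √2
            simpa using this
          · exact hwS.intervalIntegrable _ _
        have hρP : P2 ρ := HS.mono (Nat.zero_le _) hρ
        have hPrc : Continuous (Pr ρ) := by
          unfold Pr
          exact (intervalIntegral.continuous_primitive (fun a b =>
            (hρP.intervalIntegrable a b).sub intervalIntegrable_const) 0).sub continuous_const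
        have h11 : ∫ x in (0:ℝ)..1, (w (x + √2) - w x) = ((w √2 - w 0) +
            ∫ z in (0:ℝ)..1, ∫ t in (0:ℝ)..z, ρ t) := by
          rw [intervalIntegral.integral_congr (fun z _ => h9 z),
            intervalIntegral.integral_add intervalIntegrable_const
              (hPrc.intervalIntegrable _ _), Pr_mean hρP]
          simp
        intro x
        rw [h9 x, ← h11, h10, zero_add]
      intro x
      exact intervalIntegral.integral_congr (fun z _ => h8 z)
  intro k ρ hρ hρ0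
  obtain ⟨w, hw, hw0, hww⟩ := key (k + 1) hρ hρ0
  refine ⟨w, hw, hw0, - ∫ z in (0:ℝ)..1, ∫ t in (0:ℝ)..z, ρ t, ?_⟩
  have hρP : P2 ρ := HS.mono (Nat.zero_le _) hρ
  have hPrc : Continuous (Pr ρ) := by
    unfold Pr
    exact (intervalIntegral.continuous_primitive (fun a b =>
      (hρP.intervalIntegrable a b).sub intervalIntegrable_const) 0).sub continuous_const
  have hwc : Continuous (fun t => w (t + √2) - w t) :=
    (hw.continuous.comp (continuous_id.add continuous_const)).sub hw.continuous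
  intro x
  have h1 : w (x + √2) - w x = Pr ρ x := eq_of_integral_eq hwc hPrc hww x
  rw [h1]
  unfold Pr
  rw [hρ0]
  simp only [sub_zero]
  ring

/-! ### Regularity -/

theorem ftc {u w : ℝ → ℝ} (hd : ∀ x, HasDerivAt u (w x) x) (hw : Continuous w) (x : ℝ) :
    u x = u 0 + ∫ t in (0:ℝ)..x, w t := by
  rw [intervalIntegral.integral_eq_sub_of_hasDerivAt (fun t _ => hd t)
    (hw.intervalIntegrable _ _)]
  ring

theorem HS.of_deriv {k : ℕ} {u w : ℝ → ℝ} (hp : ∀ x, u (x + 1) = u x)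
    (hd : ∀ x, HasDerivAt u (w x) x) (hwc : Continuous w) (hw : HS k w) : HS (k + 1) u :=
  ⟨hp, w, hw, ftc hd hwc⟩

theorem periodic_deriv {G : ℝ → ℝ} (h : ∀ x, G (x + 1) = G x) (x : ℝ) :
    deriv G (x + 1) = deriv G x := by
  have h1 : deriv (fun y => G (y + 1)) x = deriv G (x + 1) := by
    rw [deriv_comp_add_const]
  have h2 : (fun y => G (y + 1)) = G := funext h
  rw [← h1, h2]

/-- A continuous function with periods `1` and `√2` is constant. -/
theorem const_of_periods {u : ℝ → ℝ} (hc : Continuous u) (h1 : ∀ x, u (x + 1) = u x)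
    (h2 : ∀ x, u (x + √2) = u x) (x : ℝ) : u x = u 0 := by
  have hirr : Irrational (√2 / 1) := by simpa using irrational_sqrt_two
  have hd := dense_addSubgroupClosure_pair_iff.2 hirr
  have hS : ∀ t ∈ AddSubgroup.closure ({√2, 1} : Set ℝ), ∀ x, u (x + t) = u x := by
    intro t ht
    induction ht using AddSubgroup.closure_induction with
    | mem t ht =>
      rcases ht with rfl | rfl
      · exact h2
      · exact h1
    | zero => intro x; simp
    | add a b _ _ iha ihb => intro x; rw [← add_assoc, ihb, iha]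
    | neg a _ iha => intro x; rw [← iha (x + -a)]; congr 1; ring
  have hcl : IsClosed {t : ℝ | u t = u 0} := isClosed_eq hc continuous_const
  have hsub : (AddSubgroup.closure ({√2, 1} : Set ℝ) : Set ℝ) ⊆ {t : ℝ | u t = u 0} := by
    intro t ht
    have := hS t ht 0
    rwa [zero_add] at this
  have := (hcl.closure_subset_iff.2 hsub) (hd x)
  exact this

theorem v_smooth_of_T (hT : StatementT) (g : ℝ → ℝ) (hg : ContDiff ℝ ∞ g)
    (hgp : ∀ x, g (x + 1) = g x)
    (v y : ℝ → ℝ) (hv : Continuous v) (hvp : ∀ x, v (x + 1) = v x)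
    (hv0 : ∫ x in (0:ℝ)..1, v x = 0)
    (hyp : ∀ x, y (x + 1) = y x) (hy : MemLp y 2 (volume.restrict (Ioc (0:ℝ) 1)))
    (hvy : ∀ x, v x = v 0 + ∫ t in (0:ℝ)..x, y t)
    (Dh h : ℝ → ℝ)
    (hDh : ∀ x, Dh x = Real.exp (∫ t in (0:ℝ)..x, v t) /
          ∫ s in (0:ℝ)..1, Real.exp (∫ t in (0:ℝ)..s, v t))
    (hh : ∀ x, h x = ∫ t in (0:ℝ)..x, Dh t)
    (heq : ∀ x, v (x + √2) - v x = g (h x) * Dh x) :
    ContDiff ℝ ∞ v := by
  -- the primitive of `v`
  set V : ℝ → ℝ := fun x => ∫ t in (0:ℝ)..x, v t with hV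
  have hVd : ∀ x, HasDerivAt V (v x) x := fun x =>
    intervalIntegral.integral_hasDerivAt_right (hv.intervalIntegrable 0 x)
      (hv.stronglyMeasurableAtFilter _ _) hv.continuousAt
  have hVc : Continuous V := continuous_iff_continuousAt.2 fun x => (hVd x).continuousAt
  have hVp : ∀ x, V (x + 1) = V x := by
    intro x
    have h2 : Function.Periodic v 1 := hvp
    have h3 := h2.intervalIntegral_add_eq_add 0 x (fun a b => hv.intervalIntegrable a b)
    rw [zero_add, hv0, add_zero] at h3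
    exact h3
  set c : ℝ := ∫ s in (0:ℝ)..1, Real.exp (V s) with hc
  have hcpos : 0 < c := by
    refine intervalIntegral.intervalIntegral_pos_of_pos ?_ (fun x => Real.exp_pos _) one_pos
    exact (Real.continuous_exp.comp hVc).intervalIntegrable _ _
  have hDh' : Dh = fun x => Real.exp (V x) / c := funext hDh
  have hDd : ∀ x, HasDerivAt Dh (Dh x * v x) x := by
    intro x
    rw [hDh']
    exact (((hVd x).exp).div_const c).congr_deriv (by beta_reduce; ring)
  have hDc : Continuous Dh := continuous_iff_continuousAt.2 fun x => (hDd x).continuousAt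
  have hDp : ∀ x, Dh (x + 1) = Dh x := fun x => by rw [hDh']; simp only [hVp]
  have hD1 : ∫ t in (0:ℝ)..1, Dh t = 1 := by
    rw [hDh', intervalIntegral.integral_div]
    exact div_self hcpos.ne'
  have hhd : ∀ x, HasDerivAt h (Dh x) x := by
    intro x
    rw [funext hh]
    exact intervalIntegral.integral_hasDerivAt_right (hDc.intervalIntegrable 0 x)
      (hDc.stronglyMeasurableAtFilter _ _) hDc.continuousAt
  have hhc : Continuous h := continuous_iff_continuousAt.2 fun x => (hhd x).continuousAt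
  have hhp : ∀ x, h (x + 1) = h x + 1 := by
    intro x
    have h2 : Function.Periodic Dh 1 := hDp
    have h3 := h2.intervalIntegral_add_eq_add 0 x (fun a b => hDc.intervalIntegrable a b)
    rw [zero_add, hD1] at h3
    rw [hh, hh, h3]
  -- composition with periodic functions
  have hcomp : ∀ G : ℝ → ℝ, (∀ x, G (x + 1) = G x) → ∀ x, G (h (x + 1)) = G (h x) := by
    intro G hG x
    rw [hhp, hG]
  have hGd : ∀ G : ℝ → ℝ, ContDiff ℝ ∞ G → ∀ x,
      HasDerivAt (fun x => G (h x)) (deriv G (h x) * Dh x) x := by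
    intro G hG x
    exact ((hG.differentiable (by simp) (h x)).hasDerivAt).comp x (hhd x)
  have hG' : ∀ G : ℝ → ℝ, ContDiff ℝ ∞ G → ContDiff ℝ ∞ (deriv G) := by
    intro G hG
    exact (contDiff_infty_iff_deriv.1 hG).2
  -- the function `r`
  set r : ℝ → ℝ := fun x => g (h x) * Dh x with hr
  have hrd : ∀ x, HasDerivAt r (deriv g (h x) * Dh x * Dh x + g (h x) * (Dh x * v x)) x :=
    fun x => (hGd g hg x).mul (hDd x)
  set g2 : ℝ → ℝ := fun x => deriv g x - (1 / 2) * (g x * g x) with hg2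
  have hg2s : ContDiff ℝ ∞ g2 := (hG' g hg).sub (contDiff_const.mul (hg.mul hg))
  have hg2p : ∀ x, g2 (x + 1) = g2 x := fun x => by
    simp only [hg2, periodic_deriv hgp, hgp]
  set κ : ℝ → ℝ := fun x => g2 (h x) * (Dh x * Dh x) with hκ
  have hκc : Continuous κ := (hg2s.continuous.comp hhc).mul (hDc.mul hDc)
  have hκp : ∀ x, κ (x + 1) = κ x := fun x => by
    simp only [hκ, hDp, hcomp g2 hg2p]
  have hvs : ∀ x, v (x + √2) = v x + r x := fun x => by
    have := heq x
    simp only [hr]; linarith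
  have hid : ∀ x, deriv g (h x) * Dh x * Dh x + g (h x) * (Dh x * v x) =
      κ x + ((1 / 2) * (v (x + √2) * v (x + √2)) - (1 / 2) * (v x * v x)) := by
    intro x
    rw [hvs]
    simp only [hκ, hg2, hr]
    ring
  have hκ0 : ∫ x in (0:ℝ)..1, κ x = 0 := by
    have h1 : ∫ x in (0:ℝ)..1, (deriv g (h x) * Dh x * Dh x + g (h x) * (Dh x * v x)) = 0 := by
      rw [intervalIntegral.integral_eq_sub_of_hasDerivAt (fun x _ => hrd x)]
      · have : r (0 + 1) = r 0 := by simp only [hr, hcomp g hgp, hDp]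
        rw [zero_add] at this
        linarith
      · exact (((((hG' g hg).continuous.comp hhc).mul hDc).mul hDc).add
          ((hg.continuous.comp hhc).mul (hDc.mul hv))).intervalIntegrable _ _
    have hq : Continuous (fun x => (1 / 2 : ℝ) * (v x * v x)) := continuous_const.mul (hv.mul hv)
    have hq' : Continuous (fun x => (1 / 2 : ℝ) * (v (x + √2) * v (x + √2))) :=
      hq.comp (continuous_id.add continuous_const)
    have hqq : Continuous (fun x => (1 / 2 : ℝ) * (v (x + √2) * v (x + √2)) -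
        (1 / 2 : ℝ) * (v x * v x)) := hq'.sub hq
    rw [intervalIntegral.integral_congr (fun x _ => hid x), intervalIntegral.integral_add
      (hκc.intervalIntegrable _ _) (hqq.intervalIntegrable _ _),
      intervalIntegral.integral_sub (hq'.intervalIntegrable _ _) (hq.intervalIntegrable _ _),
      int_shift (w := fun x => (1 / 2 : ℝ) * (v x * v x)) (fun x => by simp only [hvp]) √2] at h1
    linarith
  -- the bootstrap
  have step : ∀ k, HS (k + 1) v → HS (k + 2) v := by
    intro k hk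
    have hDS : ∀ j, j ≤ k + 1 → HS (j + 1) Dh := by
      intro j
      induction j with
      | zero =>
        intro _
        exact HS.of_deriv hDp hDd (hDc.mul hv)
          (P2.of_continuous (fun x => by simp only [hDp, hvp]) (hDc.mul hv))
      | succ j ih =>
        intro hj
        exact HS.of_deriv hDp hDd (hDc.mul hv) ((ih (by omega)).mul (HS.mono (by omega) hk))
    have hGS : ∀ j, j ≤ k + 1 → ∀ G : ℝ → ℝ, ContDiff ℝ ∞ G → (∀ x, G (x + 1) = G x) →
        HS (j + 1) (fun x => G (h x)) := by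
      intro j
      induction j with
      | zero =>
        intro _ G hG hGp
        have hcont : Continuous (fun x => deriv G (h x) * Dh x) :=
          ((hG' G hG).continuous.comp hhc).mul hDc
        exact HS.of_deriv (hcomp G hGp) (hGd G hG) hcont
          (P2.of_continuous (fun x => by
            simp only [hDp, hcomp (deriv G) (periodic_deriv hGp)]) hcont)
      | succ j ih =>
        intro hj G hG hGp
        have hcont : Continuous (fun x => deriv G (h x) * Dh x) :=
          ((hG' G hG).continuous.comp hhc).mul hDc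
        exact HS.of_deriv (hcomp G hGp) (hGd G hG) hcont
          ((ih (by omega) (deriv G) (hG' G hG) (periodic_deriv hGp)).mul (hDS j (by omega)))
    have hκS : HS (k + 2) κ :=
      (hGS (k + 1) le_rfl g2 hg2s hg2p).mul ((hDS (k + 1) le_rfl).mul (hDS (k + 1) le_rfl))
    obtain ⟨W2, hW2, -, c2, hW2e⟩ := solve hT (k + 1) hκS hκ0
    -- the primitive of `v²`
    set m : ℝ := ∫ x in (0:ℝ)..1, v x * v x with hm
    set q : ℝ → ℝ := fun x => (1 / 2) * (v x * v x - m) with hq
    have hqc : Continuous q := continuous_const.mul ((hv.mul hv).sub continuous_const)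
    have hqp : ∀ x, q (x + 1) = q x := fun x => by simp only [hq, hvp]
    have hqS : HS (k + 1) q := ((hk.mul hk).sub (HS.const m)).const_mul (1 / 2)
    have hq0 : ∫ x in (0:ℝ)..1, q x = 0 := by
      have hvv : Continuous (fun x => v x * v x) := hv.mul hv
      simp only [hq]
      rw [intervalIntegral.integral_const_mul, intervalIntegral.integral_sub
        (hvv.intervalIntegrable _ _) intervalIntegrable_const]
      simp [hm]
    set W1 : ℝ → ℝ := fun x => ∫ t in (0:ℝ)..x, q t with hW1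
    have hW1d : ∀ x, HasDerivAt W1 (q x) x := fun x =>
      intervalIntegral.integral_hasDerivAt_right (hqc.intervalIntegrable 0 x)
        (hqc.stronglyMeasurableAtFilter _ _) hqc.continuousAt
    have hW1p : ∀ x, W1 (x + 1) = W1 x := by
      intro x
      have h2 : Function.Periodic q 1 := hqp
      have h3 := h2.intervalIntegral_add_eq_add 0 x (fun a b => hqc.intervalIntegrable a b)
      rw [zero_add, hq0, add_zero] at h3
      exact h3
    have hW1S : HS (k + 2) W1 := HS.of_deriv hW1p hW1d hqc hqS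
    -- the difference
    set u : ℝ → ℝ := fun x => v x - W1 x - W2 x with hu
    have huc : Continuous u := (hv.sub hW1S.continuous).sub hW2.continuous
    have hup : ∀ x, u (x + 1) = u x := fun x => by
      simp only [hu, hvp, hW1p, hW2.periodic]
    have hF : ∀ x, u (x + √2) - u x = u (0 + √2) - u 0 := by
      have hFe : ∀ x, u (x + √2) - u x =
          r x - (W1 (x + √2) - W1 x) - ((∫ t in (0:ℝ)..x, κ t) + c2) := by
        intro x
        rw [← hW2e x]
        simp only [hu, hvs]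
        ring
      have hFd : ∀ x, HasDerivAt (fun x => u (x + √2) - u x) 0 x := by
        intro x
        rw [funext hFe]
        have h1 := (((hrd x).sub (((hW1d (x + √2)).comp_add_const x √2).sub (hW1d x))).sub
          ((intervalIntegral.integral_hasDerivAt_right (hκc.intervalIntegrable 0 x)
            (hκc.stronglyMeasurableAtFilter _ _) hκc.continuousAt).add_const c2))
        refine (h1.congr_deriv (g' := 0) ?_)
        rw [hid x]
        simp only [hq]
        ring
      intro x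
      exact is_const_of_deriv_eq_zero (fun x => (hFd x).differentiableAt)
        (fun x => (hFd x).deriv) x 0
    have hC : u (0 + √2) - u 0 = 0 := by
      have h1 : ∫ x in (0:ℝ)..1, (u (x + √2) - u x) = 0 := by
        rw [intervalIntegral.integral_sub, int_shift hup, sub_self]
        · exact (huc.comp (continuous_id.add continuous_const)).intervalIntegrable _ _
        · exact huc.intervalIntegrable _ _
      rw [intervalIntegral.integral_congr (fun x _ => hF x)] at h1
      simpa using h1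
    have hconst : ∀ x, u x = u 0 := const_of_periods huc hup (fun x => by
      have := hF x
      rw [hC] at this
      linarith)
    refine ((hW1S.add hW2).add (HS.const (u 0))).congr (fun x => ?_)
    have := hconst x
    simp only [hu] at this ⊢
    linarith
  have hall : ∀ k, HS (k + 1) v := by
    intro k
    induction k with
    | zero => exact ⟨hvp, y, ⟨hyp, hy⟩, hvy⟩
    | succ k ih => exact step k ih
  exact contDiff_of_forall_HS (fun k => (hall k).pred)

end W4ec

end

section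

open Set Filter Topology MeasureTheory
open scoped ContDiff Manifold ENNReal

namespace W4ec

theorem vol_eq : (volume : Measure (AddCircle (1:ℝ))) = @AddCircle.haarAddCircle 1 _ := by
  rw [AddCircle.volume_eq_smul_haarAddCircle, ENNReal.ofReal_one, one_smul]

theorem mk_mp : MeasurePreserving (fun x : ℝ => (x : AddCircle (1:ℝ)))
    (volume.restrict (Ioc (0:ℝ) 1)) (@AddCircle.haarAddCircle 1 _) := by
  have h := AddCircle.measurePreserving_mk (1:ℝ) 0
  rw [zero_add, vol_eq] at h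
  exact h

/-- representative in `(0, 1]` -/
noncomputable def io (z : AddCircle (1:ℝ)) : ℝ := (AddCircle.equivIoc (1:ℝ) 0 z : ℝ)

theorem io_mp : MeasurePreserving io (@AddCircle.haarAddCircle 1 _)
    (volume.restrict (Ioc (0:ℝ) 1)) := by
  have h1 := AddCircle.measurePreserving_equivIoc (T := 1) (a := 0)
  have h2 : MeasurePreserving (Subtype.val : Ioc (0:ℝ) (0+1) → ℝ)
      (Measure.comap Subtype.val volume) (volume.restrict (Ioc (0:ℝ) (0+1))) :=
    measurePreserving_subtype_coe measurableSet_Ioc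
  have h3 := h2.comp h1
  rw [vol_eq] at h3
  have h4 : volume.restrict (Ioc (0:ℝ) (0 + 1)) = volume.restrict (Ioc (0:ℝ) 1) := by
    rw [zero_add]
  rw [h4] at h3
  exact h3

theorem io_coe {x : ℝ} (hx : x ∈ Ioc (0:ℝ) 1) : io (x : AddCircle (1:ℝ)) = x := by
  unfold io
  have hx' : x ∈ Ioc (0:ℝ) (0 + 1) := by rwa [zero_add]
  rw [AddCircle.equivIoc_coe_eq hx']

theorem coe_io (z : AddCircle (1:ℝ)) : ((io z : ℝ) : AddCircle (1:ℝ)) = z :=
  AddCircle.coe_equivIoc

theorem coeff_eq (f : AddCircle (1:ℝ) → ℂ) (n : ℤ) :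
    fourierCoeff f n = ∫ x in (0:ℝ)..1, fourier (-n) (x : AddCircle (1:ℝ)) *
      f (x : AddCircle (1:ℝ)) := by
  rw [fourierCoeff_eq_intervalIntegral f n 0]
  simp

theorem coeff_io (f : ℝ → ℝ) (n : ℤ) :
    fourierCoeff (fun z => ((f (io z) : ℝ) : ℂ)) n =
      ∫ x in (0:ℝ)..1, fourier (-n) (x : AddCircle (1:ℝ)) * ((f x : ℝ) : ℂ) := by
  rw [coeff_eq, intervalIntegral.integral_of_le zero_le_one,
    intervalIntegral.integral_of_le zero_le_one]
  apply setIntegral_congr_fun measurableSet_Ioc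
  intro x hx
  simp only
  rw [io_coe hx]

theorem integral_fourier_neg (n : ℤ) (hn : n ≠ 0) :
    ∫ x in (0:ℝ)..1, fourier (-n) (x : AddCircle (1:ℝ)) = 0 := by
  have h1 : ∀ x ∈ uIcc (0:ℝ) 1, HasDerivAt
      (fun y : ℝ => (1:ℝ) / (-2 * Real.pi * Complex.I * n) * fourier (-n) (y : AddCircle (1:ℝ)))
      (fourier (-n) (x : AddCircle (1:ℝ))) x := fun x _ =>
    has_antideriv_at_fourier_neg (⟨one_pos⟩ : Fact ((0:ℝ) < 1)) hn x
  have h2 : IntervalIntegrable (fun x : ℝ => fourier (-n) (x : AddCircle (1:ℝ))) volume 0 1 := by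
    apply Continuous.intervalIntegrable
    exact (map_continuous (fourier (-n))).comp (AddCircle.continuous_mk' 1)
  rw [intervalIntegral.integral_eq_sub_of_hasDerivAt h1 h2]
  have h3 : ((1:ℝ) : AddCircle (1:ℝ)) = ((0:ℝ) : AddCircle (1:ℝ)) := by
    rw [AddCircle.coe_period]
    rfl
  rw [h3, sub_self]


/-- the multiplier solving the cohomological equation over the rotation by `√2` -/
noncomputable def mu1 (n : ℤ) : ℂ :=
  if n = 0 then 0 else 1 / (2 * Real.pi * Complex.I * n *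
    (Complex.exp (2 * Real.pi * Complex.I * (n * (√2 : ℝ))) - 1))

theorem mu1_le (n : ℤ) : ‖mu1 n‖ ≤ 1 := by
  unfold mu1
  split_ifs with hn
  · simp
  · have h1 := small_div n hn
    have hn1 : (1 : ℝ) ≤ |(n : ℝ)| := by
      rw [← Int.cast_abs]
      exact_mod_cast Int.one_le_abs hn
    rw [norm_div, norm_one, norm_mul]
    have h2 : ‖(2 * Real.pi * Complex.I * n : ℂ)‖ = 2 * Real.pi * |(n:ℝ)| := by
      rw [norm_mul, norm_mul, norm_mul]
      simp [abs_of_pos Real.pi_pos]
    rw [h2]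
    have h3 : 1 ≤ 2 * Real.pi * |(n:ℝ)| *
        ‖Complex.exp (2 * Real.pi * Complex.I * (n * (√2 : ℝ))) - 1‖ := by
      calc (1:ℝ) ≤ 2 * Real.pi := by linarith [Real.pi_gt_three]
        _ = 2 * Real.pi * |(n:ℝ)| * (1 / |(n:ℝ)|) := by field_simp
        _ ≤ _ := by gcongr
    exact div_le_one_of_le₀ h3 (by positivity)

theorem ae_zero_of_coeff {g : AddCircle (1:ℝ) → ℂ}
    (hg : MemLp g 2 (@AddCircle.haarAddCircle 1 _))
    (h : ∀ n, fourierCoeff g n = 0) : g =ᵐ[@AddCircle.haarAddCircle 1 _] 0 := by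
  have h1 : hg.toLp g = 0 := by
    apply (@fourierBasis 1 _).repr.injective
    ext n
    rw [map_zero]
    rw [fourierBasis_repr, fourierCoeff_congr_ae hg.coeFn_toLp, h n]
    rfl
  have h2 := hg.coeFn_toLp
  rw [h1] at h2
  exact h2.symm.trans (Lp.coeFn_zero _ _ _)

/-- extension to complex functions on the circle -/
noncomputable def Ecl : Lp ℝ 2 (volume.restrict (Ioc (0:ℝ) 1)) →L[ℝ]
    Lp ℂ 2 (@AddCircle.haarAddCircle 1 _) :=
  (Lp.compMeasurePreservingₗᵢ ℝ io io_mp).toContinuousLinearMap.comp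
    (Complex.ofRealCLM.compLpL 2 (volume.restrict (Ioc (0:ℝ) 1)))

/-- real part on the interval -/
noncomputable def Rcl : Lp ℂ 2 (@AddCircle.haarAddCircle 1 _) →L[ℝ]
    Lp ℝ 2 (volume.restrict (Ioc (0:ℝ) 1)) :=
  (Complex.reCLM.compLpL 2 (volume.restrict (Ioc (0:ℝ) 1))).comp
    (Lp.compMeasurePreservingₗᵢ ℝ (fun x : ℝ => (x : AddCircle (1:ℝ)))
      mk_mp).toContinuousLinearMap

theorem Ecl_ae (ρ : Lp ℝ 2 (volume.restrict (Ioc (0:ℝ) 1))) :
    Ecl ρ =ᵐ[@AddCircle.haarAddCircle 1 _] fun z => ((ρ (io z) : ℝ) : ℂ) := by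
  have h1 : Ecl ρ =ᵐ[@AddCircle.haarAddCircle 1 _]
      (Complex.ofRealCLM.compLpL 2 (volume.restrict (Ioc (0:ℝ) 1)) ρ) ∘ io :=
    Lp.coeFn_compMeasurePreserving _ io_mp
  have h2 := Complex.ofRealCLM.coeFn_compLpL (p := 2) (μ := volume.restrict (Ioc (0:ℝ) 1)) ρ
  have h3 := io_mp.quasiMeasurePreserving.ae h2
  filter_upwards [h1, h3] with z hz1 hz3
  rw [hz1]
  exact hz3

theorem Rcl_ae (w : Lp ℂ 2 (@AddCircle.haarAddCircle 1 _)) :
    Rcl w =ᵐ[volume.restrict (Ioc (0:ℝ) 1)] fun x => (w (x : AddCircle (1:ℝ))).re := by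
  have h1 := Complex.reCLM.coeFn_compLpL (p := 2) (μ := volume.restrict (Ioc (0:ℝ) 1))
    (Lp.compMeasurePreserving (fun x : ℝ => (x : AddCircle (1:ℝ))) mk_mp w)
  have h2 := Lp.coeFn_compMeasurePreserving w mk_mp
  filter_upwards [h1, h2] with x hx1 hx2
  have h3 : Rcl w x = (Complex.reCLM.compLpL 2 (volume.restrict (Ioc (0:ℝ) 1))
    (Lp.compMeasurePreserving (fun x : ℝ => (x : AddCircle (1:ℝ))) mk_mp w)) x := rfl
  rw [h3, hx1, hx2]
  rfl


/-- centred primitive of a centred function -/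
noncomputable def Pf (ρ : ℝ → ℝ) (x : ℝ) : ℝ :=
  (∫ t in (0:ℝ)..x, (ρ t - ∫ s in (0:ℝ)..1, ρ s)) -
    ∫ z in (0:ℝ)..1, ∫ t in (0:ℝ)..z, (ρ t - ∫ s in (0:ℝ)..1, ρ s)

theorem Pf_cont {ρ : ℝ → ℝ} (hρ : IntervalIntegrable ρ volume 0 1) :
    ContinuousOn (Pf ρ) (Icc 0 1) := by
  have hu : IntervalIntegrable (fun t => ρ t - ∫ s in (0:ℝ)..1, ρ s) volume 0 1 :=
    hρ.sub (intervalIntegrable_const)
  have h1 : ContinuousOn (fun x => ∫ t in (0:ℝ)..x, (ρ t - ∫ s in (0:ℝ)..1, ρ s))
      (uIcc 0 1) :=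
    (hu.absolutelyContinuousOnInterval_intervalIntegral (by simp)).continuousOn
  rw [uIcc_of_le zero_le_one] at h1
  exact h1.sub continuousOn_const

theorem Pf_memLp {ρ : ℝ → ℝ} (hρ : IntervalIntegrable ρ volume 0 1) :
    MemLp (Pf ρ) 2 (volume.restrict (Ioc (0:ℝ) 1)) := by
  have h1 := Pf_cont hρ
  obtain ⟨C, hC⟩ := (isCompact_Icc.bddAbove_image h1.norm)
  apply MemLp.of_bound (C := C)
  · exact (h1.mono Ioc_subset_Icc_self).aestronglyMeasurable measurableSet_Ioc
  · filter_upwards [ae_restrict_mem measurableSet_Ioc] with x hx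
    exact hC ⟨x, Ioc_subset_Icc_self hx, rfl⟩

theorem Pf_coeff {ρ : ℝ → ℝ} (hρ : IntervalIntegrable ρ volume 0 1) (n : ℤ) :
    fourierCoeff (fun z => ((Pf ρ (io z) : ℝ) : ℂ)) n =
      if n = 0 then 0 else 1 / (2 * Real.pi * Complex.I * n) *
        ∫ x in (0:ℝ)..1, fourier (-n) (x : AddCircle (1:ℝ)) * ((ρ x : ℝ) : ℂ) := by
  have hu : IntervalIntegrable (fun t => ρ t - ∫ s in (0:ℝ)..1, ρ s) volume 0 1 :=
    hρ.sub (intervalIntegrable_const)
  have hu0 : ∫ t in (0:ℝ)..1, (ρ t - ∫ s in (0:ℝ)..1, ρ s) = 0 := by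
    rw [intervalIntegral.integral_sub hρ intervalIntegrable_const]
    simp
  have hF : IntervalIntegrable (fun x => ∫ t in (0:ℝ)..x, (ρ t - ∫ s in (0:ℝ)..1, ρ s))
      volume 0 1 :=
    (hu.absolutelyContinuousOnInterval_intervalIntegral (by simp)).continuousOn.intervalIntegrable
  rw [coeff_io]
  split_ifs with hn
  · subst hn
    simp only [neg_zero, fourier_zero, one_mul]
    rw [intervalIntegral.integral_ofReal]
    unfold Pf
    rw [intervalIntegral.integral_sub hF intervalIntegrable_const]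
    simp
  · have hfc : Continuous (fun x : ℝ => fourier (-n) (x : AddCircle (1:ℝ))) :=
      (map_continuous (fourier (-n))).comp (AddCircle.continuous_mk' 1)
    have h1 := coeff_prim hu hu0 n hn
    have h2 : ∫ x in (0:ℝ)..1, fourier (-n) (x : AddCircle (1:ℝ)) * ((Pf ρ x : ℝ) : ℂ) =
        ∫ x in (0:ℝ)..1, fourier (-n) (x : AddCircle (1:ℝ)) *
          ((∫ t in (0:ℝ)..x, (ρ t - ∫ s in (0:ℝ)..1, ρ s) : ℝ) : ℂ) := by
      have h3 : ∀ x : ℝ, fourier (-n) (x : AddCircle (1:ℝ)) * ((Pf ρ x : ℝ) : ℂ) =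
          fourier (-n) (x : AddCircle (1:ℝ)) *
          ((∫ t in (0:ℝ)..x, (ρ t - ∫ s in (0:ℝ)..1, ρ s) : ℝ) : ℂ) -
          fourier (-n) (x : AddCircle (1:ℝ)) *
          ((∫ z in (0:ℝ)..1, ∫ t in (0:ℝ)..z, (ρ t - ∫ s in (0:ℝ)..1, ρ s) : ℝ) : ℂ) := by
        intro x
        unfold Pf
        push_cast
        ring
      simp_rw [h3]
      rw [intervalIntegral.integral_sub]
      · rw [intervalIntegral.integral_mul_const, integral_fourier_neg n hn, zero_mul, sub_zero]
      · exact (ii_ofReal hF).continuousOn_mul hfc.continuousOn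
      · exact (hfc.mul continuous_const).intervalIntegrable _ _
    have h4 : ∫ x in (0:ℝ)..1, fourier (-n) (x : AddCircle (1:ℝ)) *
        ((ρ x - ∫ s in (0:ℝ)..1, ρ s : ℝ) : ℂ) =
        ∫ x in (0:ℝ)..1, fourier (-n) (x : AddCircle (1:ℝ)) * ((ρ x : ℝ) : ℂ) := by
      have h3 : ∀ x : ℝ, fourier (-n) (x : AddCircle (1:ℝ)) *
          ((ρ x - ∫ s in (0:ℝ)..1, ρ s : ℝ) : ℂ) =
          fourier (-n) (x : AddCircle (1:ℝ)) * ((ρ x : ℝ) : ℂ) -
          fourier (-n) (x : AddCircle (1:ℝ)) * ((∫ s in (0:ℝ)..1, ρ s : ℝ) : ℂ) := by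
        intro x
        push_cast
        ring
      simp_rw [h3]
      rw [intervalIntegral.integral_sub]
      · rw [intervalIntegral.integral_mul_const, integral_fourier_neg n hn, zero_mul, sub_zero]
      · exact (ii_ofReal hρ).continuousOn_mul hfc.continuousOn
      · exact (hfc.mul continuous_const).intervalIntegrable _ _
    rw [h2, h1, h4]

theorem exists_T : ∃ T : Lp ℝ 2 (volume.restrict (Ioc (0:ℝ) 1)) →L[ℝ]
      Lp ℝ 2 (volume.restrict (Ioc (0:ℝ) 1)),
    ∀ ρ : Lp ℝ 2 (volume.restrict (Ioc (0:ℝ) 1)),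
      (∫ x in (0:ℝ)..1, T ρ x = 0) ∧
      ∀ᵐ x ∂(volume.restrict (Ioc (0:ℝ) 1)),
        T ρ (Int.fract (x + √2)) - T ρ x =
          (∫ t in (0:ℝ)..x, (ρ t - ∫ s in (0:ℝ)..1, ρ s)) -
            ∫ z in (0:ℝ)..1, ∫ t in (0:ℝ)..z, (ρ t - ∫ s in (0:ℝ)..1, ρ s) := by
  obtain ⟨D, hD⟩ := exists_mult mu1 1 mu1_le
  refine ⟨Rcl.comp ((D.restrictScalars ℝ).comp Ecl), ?_⟩
  intro ρ
  set w : Lp ℂ 2 (@AddCircle.haarAddCircle 1 _) := D (Ecl ρ) with hw
  have hTw : Rcl.comp ((D.restrictScalars ℝ).comp Ecl) ρ = Rcl w := rfl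
  rw [hTw]
  have hR := Rcl_ae w
  have hwm : MemLp (w : AddCircle (1:ℝ) → ℂ) 2 (@AddCircle.haarAddCircle 1 _) := Lp.memLp w
  have hwc : ∀ n, fourierCoeff w n = mu1 n *
      ∫ x in (0:ℝ)..1, fourier (-n) (x : AddCircle (1:ℝ)) * ((ρ x : ℝ) : ℂ) := by
    intro n
    rw [hw, hD, fourierCoeff_congr_ae (Ecl_ae ρ), coeff_io]
  have hρi : IntervalIntegrable ρ volume 0 1 := by
    rw [intervalIntegrable_iff_integrableOn_Ioc_of_le zero_le_one]
    exact (Lp.memLp ρ).integrable (by norm_num)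
  constructor
  · have h1 : ∫ x in (0:ℝ)..1, Rcl w x = ∫ x in (0:ℝ)..1, (w (x : AddCircle (1:ℝ))).re := by
      rw [intervalIntegral.integral_of_le zero_le_one,
        intervalIntegral.integral_of_le zero_le_one]
      exact integral_congr_ae hR
    have h2 : Integrable (fun x : ℝ => w (x : AddCircle (1:ℝ)))
        (volume.restrict (Ioc (0:ℝ) 1)) :=
      (hwm.comp_measurePreserving mk_mp).integrable (by norm_num)
    have h3 : ∫ x in (0:ℝ)..1, (w (x : AddCircle (1:ℝ))).re =
        (∫ x in (0:ℝ)..1, w (x : AddCircle (1:ℝ))).re := by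
      rw [intervalIntegral.integral_of_le zero_le_one,
        intervalIntegral.integral_of_le zero_le_one]
      exact integral_re h2
    have h4 := hwc 0
    rw [coeff_eq] at h4
    simp only [neg_zero, fourier_zero, one_mul, mu1, if_true, zero_mul] at h4
    rw [h1, h3, h4]
    rfl
  · set a : AddCircle (1:ℝ) := ((√2 : ℝ) : AddCircle (1:ℝ)) with ha
    have htr : MeasurePreserving (fun z : AddCircle (1:ℝ) => z + a)
        (@AddCircle.haarAddCircle 1 _) (@AddCircle.haarAddCircle 1 _) :=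
      measurePreserving_add_right _ a
    have hg1 : MemLp (fun z => w (z + a)) 2 (@AddCircle.haarAddCircle 1 _) :=
      hwm.comp_measurePreserving htr
    have hg2 : MemLp (fun z => ((Pf ρ (io z) : ℝ) : ℂ)) 2 (@AddCircle.haarAddCircle 1 _) :=
      ((Pf_memLp hρi).comp_measurePreserving io_mp).ofReal
    have hg : MemLp (fun z => w (z + a) - w z - ((Pf ρ (io z) : ℝ) : ℂ)) 2
        (@AddCircle.haarAddCircle 1 _) := (hg1.sub hwm).sub hg2
    have hc : ∀ n, fourierCoeff (fun z => w (z + a) - w z - ((Pf ρ (io z) : ℝ) : ℂ)) n = 0 := by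
      intro n
      have e1 : fourierCoeff (fun z => w (z + a) - w z - ((Pf ρ (io z) : ℝ) : ℂ)) n =
          fourierCoeff (fun z => w (z + a)) n - fourierCoeff w n -
            fourierCoeff (fun z => ((Pf ρ (io z) : ℝ) : ℂ)) n := by
        unfold fourierCoeff
        have i1 := (hg1.integrable (by norm_num)).fourier_smul (-n)
        have i2 := (hwm.integrable (by norm_num)).fourier_smul (-n)
        have i3 := (hg2.integrable (by norm_num)).fourier_smul (-n)
        simp only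
        rw [← integral_sub i1 i2]
        have i12 := i1.sub i2
        simp only [Pi.sub_def] at i12
        rw [← integral_sub i12 i3]
        congr 1
        ext z
        simp only [smul_eq_mul]
        ring
      rw [e1, coeff_translate, hwc, Pf_coeff hρi n]
      by_cases hn : n = 0
      · subst hn
        simp [mu1]
      · rw [if_neg hn]
        set R : ℂ := ∫ x in (0:ℝ)..1, fourier (-n) (x : AddCircle (1:ℝ)) * ((ρ x : ℝ) : ℂ)
          with hRdef
        have e2 : fourier n a = Complex.exp (2 * Real.pi * Complex.I * (n * (√2 : ℝ))) := by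
          rw [ha, fourier_eq_exp]
          congr 1
          ring
        rw [e2]
        unfold mu1
        rw [if_neg hn]
        set E : ℂ := Complex.exp (2 * Real.pi * Complex.I * (n * (√2 : ℝ))) with hE
        have hE1 : E - 1 ≠ 0 := by
          intro h0
          have h1 := small_div n hn
          rw [← hE, h0, norm_zero] at h1
          have hn1 : (0 : ℝ) < |(n : ℝ)| := by
            have : (n : ℝ) ≠ 0 := by exact_mod_cast hn
            positivity
          have : 0 < 1 / |(n : ℝ)| := by positivity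
          linarith
        have h4 : (n : ℂ) ≠ 0 := by exact_mod_cast hn
        have h5 : (Real.pi : ℂ) ≠ 0 := by exact_mod_cast Real.pi_ne_zero
        have h6 := Complex.I_ne_zero
        have h7 : E * (1 / (2 * Real.pi * Complex.I * n * (E - 1)) * R) -
            1 / (2 * Real.pi * Complex.I * n * (E - 1)) * R -
            1 / (2 * Real.pi * Complex.I * n) * R =
            (E - 1) * (1 / (2 * Real.pi * Complex.I * n * (E - 1)) * R) -
            1 / (2 * Real.pi * Complex.I * n) * R := by ring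
        rw [h7]
        field_simp
        ring
    have hz := ae_zero_of_coeff hg hc
    have hz2 := mk_mp.quasiMeasurePreserving.ae hz
    have hR2 := mk_mp.quasiMeasurePreserving.ae (htr.quasiMeasurePreserving.ae
      (io_mp.quasiMeasurePreserving.ae hR))
    have hex : ∀ᵐ x ∂(volume.restrict (Ioc (0:ℝ) 1)), x ∉ range (fun n : ℤ => (n:ℝ) - √2) :=
      (countable_range _).ae_notMem _
    filter_upwards [hR, hz2, hR2, hex, ae_restrict_mem measurableSet_Ioc] with
      x hx1 hx2 hx3 hx4 hx5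
    have f1 : Int.fract (x + √2) ∈ Ioc (0:ℝ) 1 := by
      refine ⟨?_, (Int.fract_lt_one _).le⟩
      rw [Int.fract_pos]
      intro h1
      apply hx4
      exact ⟨⌊x + √2⌋, by simp only; linarith⟩
    have f2 : ((Int.fract (x + √2) : ℝ) : AddCircle (1:ℝ)) = (x : AddCircle (1:ℝ)) + a := by
      rw [ha, ← AddCircle.coe_add]
      have h1 : x + √2 = Int.fract (x + √2) + ⌊x + √2⌋ := (Int.fract_add_floor _).symm
      conv_rhs => rw [h1]
      rw [AddCircle.coe_add]
      have h2 : ((⌊x + √2⌋ : ℝ) : AddCircle (1:ℝ)) = 0 := by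
        rw [AddCircle.coe_eq_zero_iff]
        exact ⟨⌊x + √2⌋, by simp⟩
      rw [h2, add_zero]
    have f3 : io ((x : AddCircle (1:ℝ)) + a) = Int.fract (x + √2) := by
      rw [← f2, io_coe f1]
    rw [f3] at hx3
    rw [hx3, hx1, f2]
    have f4 : io (x : AddCircle (1:ℝ)) = x := io_coe hx5
    rw [f4] at hx2
    have f5 : w ((x : AddCircle (1:ℝ)) + a) - w (x : AddCircle (1:ℝ)) = ((Pf ρ x : ℝ) : ℂ) :=
      sub_eq_zero.mp hx2
    have f6 := congrArg Complex.re f5
    rw [Complex.sub_re, Complex.ofReal_re] at f6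
    exact f6

end W4ec

end
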