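import Mathlib
import Pool.Agent.Work.MP_4ec80c_gt.Bd.B01
import Pool.Agent.Work.MP_4ec80c_gt.Bd.B02

/-! Bundle of small proof modules (one section per former module). -/

section

/-!
# Interpolation, gluing and periodic extension of smooth increasing maps
-/

open Set Filter Topology
open scoped ContDiff

namespace W4ec

/-- The smooth step from `0` (at `a` and before) to `1` (at `a + d` and after). -/
noncomputable def step (a d x : ℝ) : ℝ := Real.smoothTransition ((x - a) / d)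

theorem step_contDiff (a d : ℝ) : ContDiff ℝ ∞ (step a d) := by
  unfold step
  have h : ContDiff ℝ ∞ Real.smoothTransition := Real.smoothTransition.contDiff
  exact h.comp ((contDiff_id.sub contDiff_const).div_const d)

theorem step_nonneg (a d x : ℝ) : 0 ≤ step a d x := Real.smoothTransition.nonneg _

theorem step_le_one (a d x : ℝ) : step a d x ≤ 1 := Real.smoothTransition.le_one _

theorem step_zero {a d x : ℝ} (hd : 0 < d) (hx : x ≤ a) : step a d x = 0 := by
  unfold step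
  apply Real.smoothTransition.zero_of_nonpos
  exact div_nonpos_of_nonpos_of_nonneg (by linarith) hd.le

theorem step_one {a d x : ℝ} (hd : 0 < d) (hx : a + d ≤ x) : step a d x = 1 := by
  unfold step
  apply Real.smoothTransition.one_of_one_le
  rw [le_div_iff₀ hd]; linarith

theorem step_mono {a d : ℝ} (hd : 0 < d) : Monotone (step a d) := by
  intro x y hxy
  unfold step
  apply Real.smoothTransition.monotone
  gcongr

theorem step_differentiable (a d : ℝ) : Differentiable ℝ (step a d) :=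
  (step_contDiff a d).differentiable (by simp)

theorem step_deriv_nonneg {a d : ℝ} (hd : 0 < d) (x : ℝ) : 0 ≤ deriv (step a d) x :=
  (step_mono hd).deriv_nonneg

theorem step_deriv_left {a d x : ℝ} (hd : 0 < d) (hx : x < a) : deriv (step a d) x = 0 := by
  have h : step a d =ᶠ[𝓝 x] fun _ => 0 := by
    filter_upwards [Iio_mem_nhds hx] with z hz
    exact step_zero hd (le_of_lt hz)
  rw [h.deriv_eq]; simp

theorem step_deriv_right {a d x : ℝ} (hd : 0 < d) (hx : a + d < x) : deriv (step a d) x = 0 := by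
  have h : step a d =ᶠ[𝓝 x] fun _ => 1 := by
    filter_upwards [Ioi_mem_nhds hx] with z hz
    exact step_one hd (le_of_lt hz)
  rw [h.deriv_eq]; simp

/-- **Interpolation lemma.** -/
theorem interp {u v : ℝ → ℝ} (hu : SI u) (hv : SI v) {a b : ℝ} (hab : a < b) (huv : u a < v b) :
    ∃ w : ℝ → ℝ, SI w ∧ (∀ x ≤ a, w x = u x) ∧ (∀ x ≥ b, w x = v x) := by
  -- choose `d`
  obtain ⟨d, hd0, hdab, hd⟩ : ∃ d : ℝ, 0 < d ∧ a + d < b - d ∧ u (a + d) < v (b - d) := by
    have h1 : ∀ᶠ d in 𝓝[>] (0:ℝ), u (a + d) < v (b - d) := by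
      have hc1 : Tendsto (fun d => u (a + d)) (𝓝[>] (0:ℝ)) (𝓝 (u a)) := by
        have : Continuous fun d => u (a + d) := hu.continuous.comp (continuous_const.add continuous_id)
        have h := this.tendsto 0
        simp only [add_zero] at h
        exact h.mono_left nhdsWithin_le_nhds
      have hc2 : Tendsto (fun d => v (b - d)) (𝓝[>] (0:ℝ)) (𝓝 (v b)) := by
        have : Continuous fun d => v (b - d) := hv.continuous.comp (continuous_const.sub continuous_id)
        have h := this.tendsto 0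
        simp only [sub_zero] at h
        exact h.mono_left nhdsWithin_le_nhds
      exact hc1.eventually_lt hc2 huv
    have h2 : ∀ᶠ d in 𝓝[>] (0:ℝ), d < (b - a) / 2 := by
      have : (0:ℝ) < (b - a) / 2 := by linarith
      exact eventually_nhdsWithin_of_eventually_nhds (eventually_lt_nhds this)
    have h3 : ∀ᶠ d in 𝓝[>] (0:ℝ), 0 < d := eventually_mem_nhdsWithin
    obtain ⟨d, hd1, hd2, hd3⟩ := (h1.and (h2.and h3)).exists
    exact ⟨d, hd3, by linarith, hd1⟩
  set c₁ := u (a + d) with hc₁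
  set c₂ := v (b - d) with hc₂
  set k := (c₂ - c₁) / (3 * (b - a)) with hk
  have hba : 0 < b - a := by linarith
  have hkpos : 0 < k := by
    apply div_pos <;> linarith
  set m : ℝ → ℝ := fun x => k * x + (c₁ + (c₂ - c₁) / 3 - k * a) with hm
  have hmSI : SI m := SI.affine hkpos
  have hma : m a = c₁ + (c₂ - c₁) / 3 := by simp only [hm]; ring
  have hmb : m b = c₁ + 2 * (c₂ - c₁) / 3 := by
    have : k * (b - a) = (c₂ - c₁) / 3 := by
      rw [hk]; field_simp
    simp only [hm]; linear_combination this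
  set t₁ := step a d with ht₁
  set t₂ := step (b - d) d with ht₂
  set w : ℝ → ℝ := fun x => (1 - t₁ x) * u x + (t₁ x - t₂ x) * m x + t₂ x * v x with hw
  have ht1 : ContDiff ℝ ∞ t₁ := step_contDiff _ _
  have ht2 : ContDiff ℝ ∞ t₂ := step_contDiff _ _
  have h12 : ∀ x, t₂ x ≤ t₁ x := by
    intro x
    rcases le_or_gt x (b - d) with hx | hx
    · rw [ht₂, step_zero hd0 hx]; exact step_nonneg _ _ _
    · rw [ht₁, step_one hd0 (by linarith : a + d ≤ x)]; exact step_le_one _ _ _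
  have hwd : ∀ x, HasDerivAt w
      ((1 - t₁ x) * deriv u x + (t₁ x - t₂ x) * deriv m x + t₂ x * deriv v x
        + (deriv t₁ x * (m x - u x) + deriv t₂ x * (v x - m x))) x := by
    intro x
    have e1 : HasDerivAt t₁ (deriv t₁ x) x := (step_differentiable _ _ x).hasDerivAt
    have e2 : HasDerivAt t₂ (deriv t₂ x) x := (step_differentiable _ _ x).hasDerivAt
    have e3 := (((e1.const_sub 1).mul (hu.hasDerivAt x)).add
      ((e1.sub e2).mul (hmSI.hasDerivAt x))).add (e2.mul (hv.hasDerivAt x))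
    refine e3.congr_deriv ?_
    simp only [Pi.sub_apply]
    ring
  have hwSI : SI w := by
    refine ⟨?_, ?_⟩
    · exact ((((contDiff_const.sub ht1).mul hu.smooth)).add
        ((ht1.sub ht2).mul hmSI.smooth)).add (ht2.mul hv.smooth)
    · intro x
      rw [(hwd x).deriv]
      have p1 := hu.pos x
      have p2 := hmSI.pos x
      have p3 := hv.pos x
      have q1 : 0 ≤ 1 - t₁ x := by
        have := step_le_one a d x
        rw [ht₁]; linarith
      have q2 : 0 ≤ t₁ x - t₂ x := by linarith [h12 x]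
      have q3 : 0 ≤ t₂ x := step_nonneg _ _ _
      have s1 : 0 ≤ deriv t₁ x * (m x - u x) := by
        rcases lt_or_ge x a with hx | hx
        · rw [ht₁, step_deriv_left hd0 hx]; simp
        · rcases lt_or_ge (a + d) x with hx' | hx'
          · rw [ht₁, step_deriv_right hd0 hx']; simp
          · apply mul_nonneg (step_deriv_nonneg hd0 x)
            have e1 : m a ≤ m x := hmSI.strictMono.monotone hx
            have e2 : u x ≤ c₁ := hu.strictMono.monotone hx'
            have : c₁ < m a := by rw [hma]; linarith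
            linarith
      have s2 : 0 ≤ deriv t₂ x * (v x - m x) := by
        rcases lt_or_ge x (b - d) with hx | hx
        · rw [ht₂, step_deriv_left hd0 hx]; simp
        · rcases lt_or_ge (b - d + d) x with hx' | hx'
          · rw [ht₂, step_deriv_right hd0 hx']; simp
          · apply mul_nonneg (step_deriv_nonneg hd0 x)
            have e1 : m x ≤ m b := hmSI.strictMono.monotone (by linarith)
            have e2 : c₂ ≤ v x := hv.strictMono.monotone hx
            have : m b < c₂ := by rw [hmb]; linarith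
            linarith
      have key : 0 < (1 - t₁ x) * deriv u x + (t₁ x - t₂ x) * deriv m x + t₂ x * deriv v x := by
        set p := min (deriv u x) (min (deriv m x) (deriv v x)) with hp
        have hppos : 0 < p := lt_min p1 (lt_min p2 p3)
        have l1 : p ≤ deriv u x := min_le_left _ _
        have l2 : p ≤ deriv m x := (min_le_right _ _).trans (min_le_left _ _)
        have l3 : p ≤ deriv v x := (min_le_right _ _).trans (min_le_right _ _)
        have a1 := mul_le_mul_of_nonneg_left l1 q1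
        have a2 := mul_le_mul_of_nonneg_left l2 q2
        have a3 := mul_le_mul_of_nonneg_left l3 q3
        nlinarith
      linarith
  refine ⟨w, hwSI, ?_, ?_⟩
  · intro x hx
    have e1 : t₁ x = 0 := step_zero hd0 hx
    have e2 : t₂ x = 0 := step_zero hd0 (by linarith)
    simp [hw, e1, e2]
  · intro x hx
    have e1 : t₁ x = 1 := step_one hd0 (by linarith)
    have e2 : t₂ x = 1 := step_one hd0 (by linarith)
    simp [hw, e1, e2]

/-- **Gluing lemma.** Two `SI` functions which agree on `[a, b]`, `a < b`, can be glued. -/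
theorem glue {u v : ℝ → ℝ} (hu : SI u) (hv : SI v) {a b : ℝ} (hab : a < b)
    (huv : ∀ x, a ≤ x → x ≤ b → u x = v x) :
    ∃ w : ℝ → ℝ, SI w ∧ (∀ x ≤ b, w x = u x) ∧ (∀ x ≥ a, w x = v x) := by
  refine ⟨fun x => if x ≤ b then u x else v x, ?_, ?_, ?_⟩
  · apply SI.of_eventuallyEq
    intro x
    rcases lt_or_ge x b with hx | hx
    · refine ⟨u, hu, ?_⟩
      filter_upwards [Iio_mem_nhds hx] with z hz
      have hz' : z ≤ b := le_of_lt (mem_Iio.1 hz)
      simp [hz']
    · refine ⟨v, hv, ?_⟩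
      filter_upwards [Ioi_mem_nhds (lt_of_lt_of_le hab hx)] with z hz
      by_cases hzb : z ≤ b
      · simp [hzb, huv z (le_of_lt (mem_Ioi.1 hz)) hzb]
      · simp [hzb]
  · intro x hx; simp [hx]
  · intro x hx
    by_cases hxb : x ≤ b
    · simp [hxb, huv x hx hxb]
    · simp [hxb]

/-- `Dg` version of the interpolation lemma. -/
theorem interpD {u v : Equiv.Perm ℝ} (hu : u ∈ Dg) (hv : v ∈ Dg) {a b : ℝ} (hab : a < b)
    (huv : u a < v b) :
    ∃ w ∈ Dg, (∀ x ≤ a, w x = u x) ∧ (∀ x ≥ b, w x = v x) := by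
  obtain ⟨w, hw, h1, h2⟩ := interp (Dg.si hu) (Dg.si hv) hab huv
  obtain ⟨e, he, hew⟩ := hw.exists_Dg_of_ends hu hv h1 h2
  exact ⟨e, he, fun x hx => (hew x).trans (h1 x hx), fun x hx => (hew x).trans (h2 x hx)⟩

/-- `Dg` version of the gluing lemma. -/
theorem glueD {u v : Equiv.Perm ℝ} (hu : u ∈ Dg) (hv : v ∈ Dg) {a b : ℝ} (hab : a < b)
    (huv : ∀ x, a ≤ x → x ≤ b → u x = v x) :
    ∃ w ∈ Dg, (∀ x ≤ b, w x = u x) ∧ (∀ x ≥ a, w x = v x) := by
  obtain ⟨w, hw, h1, h2⟩ := glue (Dg.si hu) (Dg.si hv) hab huv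
  obtain ⟨e, he, hew⟩ := hw.exists_Dg_of_ends hu hv h1 h2
  exact ⟨e, he, fun x hx => (hew x).trans (h1 x hx), fun x hx => (hew x).trans (h2 x hx)⟩

/-- **Periodic extension.** If `w` is smooth increasing and `w (x + p) = w x + p` for `x` near `c`
(on `(c - e, c + e)`), then there is a diffeomorphism commuting with the translation by `p` which
agrees with `w` on `(c - e, c + p + e)`. -/
theorem perExt {w : ℝ → ℝ} (hw : SI w) {c e p : ℝ} (hp : 0 < p) (he : 0 < e)
    (hper : ∀ x, c - e < x → x < c + e → w (x + p) = w x + p) :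
    ∃ G ∈ Dg, (∀ x, G (x + p) = G x + p) ∧ (∀ x, c ≤ x → x ≤ c + p → G x = w x) := by
  -- the extension
  set n : ℝ → ℤ := fun x => ⌊(x - c) / p⌋ with hn
  set f : ℝ → ℝ := fun x => w (x - n x * p) + n x * p with hf
  -- local description: for every integer `k`, on `(c + k p - e', c + (k+1) p)` `f = w (x - k p) + k p`
  have hloc : ∀ (k : ℤ) (x : ℝ), c + k * p - min e p < x → x < c + k * p + p →
      f x = w (x - k * p) + k * p := by
    intro k x hx1 hx2
    by_cases hx : c + k * p ≤ x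
    · have : n x = k := by
        rw [hn]; simp only
        rw [Int.floor_eq_iff]
        constructor
        · rw [le_div_iff₀ hp]; linarith
        · rw [div_lt_iff₀ hp]; linarith
      rw [hf]; simp only [this]
    · push Not at hx
      have h1 : min e p ≤ e := min_le_left _ _
      have h2 : min e p ≤ p := min_le_right _ _
      have : n x = k - 1 := by
        rw [hn]; simp only
        rw [Int.floor_eq_iff]
        push_cast
        constructor
        · rw [le_div_iff₀ hp]; linarith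
        · rw [div_lt_iff₀ hp]; linarith
      rw [hf]; simp only [this]
      push_cast
      have h3 := hper (x - k * p) (by linarith) (by linarith)
      have h4 : x - (k - 1) * p = x - k * p + p := by ring
      rw [h4, h3]; ring
  have hfSI : SI f := by
    apply SI.of_eventuallyEq
    intro x
    set k : ℤ := ⌊(x - c) / p⌋ with hk
    have hk1 : (k : ℝ) ≤ (x - c) / p := Int.floor_le _
    have hk2 : (x - c) / p < k + 1 := Int.lt_floor_add_one _
    rw [le_div_iff₀ hp] at hk1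
    rw [div_lt_iff₀ hp] at hk2
    refine ⟨fun y => w (y - k * p) + k * p, ?_, ?_⟩
    · have h1 : SI (fun y : ℝ => y + (-(k * p))) := SI.add_const _
      have h2 : SI (fun y : ℝ => y + (k * p)) := SI.add_const _
      have := h2.comp (hw.comp h1)
      simpa [sub_eq_add_neg] using this
    · have hmin : 0 < min e p := lt_min he hp
      have hm : Ioo (c + k * p - min e p) (c + k * p + p) ∈ 𝓝 x :=
        Ioo_mem_nhds (by linarith) (by linarith)
      filter_upwards [hm] with y hy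
      exact hloc k y hy.1 hy.2
  have hfper : ∀ x, f (x + p) = f x + p := by
    intro x
    have : n (x + p) = n x + 1 := by
      rw [hn]; simp only
      have : (x + p - c) / p = (x - c) / p + 1 := by field_simp; ring
      rw [this, Int.floor_add_one]
    rw [hf]; simp only [this]
    push_cast
    have : x + p - (n x + 1) * p = x - n x * p := by ring
    rw [this]; ring
  have hfint : ∀ (k : ℕ) (x : ℝ), f (x + k * p) = f x + k * p := by
    intro k
    induction k with
    | zero => intro x; simp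
    | succ k ih =>
      intro x
      have : x + ((k + 1 : ℕ) : ℝ) * p = (x + k * p) + p := by push_cast; ring
      rw [this, hfper, ih]; push_cast; ring
  have hfneg : ∀ (k : ℕ) (x : ℝ), f (x - k * p) = f x - k * p := by
    intro k x
    have := hfint k (x - k * p)
    rw [sub_add_cancel] at this
    linarith
  have hsurj : Function.Surjective f := by
    intro y
    have hx1 : ∃ x, f x ≤ y := by
      obtain ⟨k, hk⟩ := exists_nat_ge ((f 0 - y) / p)
      refine ⟨0 - k * p, ?_⟩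
      rw [hfneg]
      rw [div_le_iff₀ hp] at hk
      linarith
    have hx2 : ∃ x, y ≤ f x := by
      obtain ⟨k, hk⟩ := exists_nat_ge ((y - f 0) / p)
      refine ⟨0 + k * p, ?_⟩
      rw [hfint]
      rw [div_le_iff₀ hp] at hk
      linarith
    obtain ⟨x₁, h1⟩ := hx1
    obtain ⟨x₂, h2⟩ := hx2
    exact mem_range_of_exists_le_of_exists_ge hfSI.continuous ⟨x₁, h1⟩ ⟨x₂, h2⟩
  obtain ⟨G, hG, hGf⟩ := hfSI.exists_Dg hsurj
  refine ⟨G, hG, fun x => by rw [hGf, hGf, hfper], ?_⟩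
  intro x hx1 hx2
  rw [hGf]
  rcases lt_or_eq_of_le hx2 with h | h
  · have hmin : 0 < min e p := lt_min he hp
    have := hloc 0 x (by push_cast; linarith) (by push_cast; linarith)
    simpa using this
  · have e1 : f x = f c + p := by rw [h, hfper]
    have hmin : 0 < min e p := lt_min he hp
    have e2 : f c = w c := by
      have := hloc 0 c (by push_cast; linarith) (by push_cast; linarith)
      simpa using this
    rw [e1, e2, h]
    exact (hper c (by linarith) (by linarith)).symm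

end W4ec

end

section

/-!
# Existence of a solution of the nonlinear cohomological equation (Banach fixed point)
-/

open Set Filter Topology MeasureTheory
open scoped ContDiff Manifold

namespace W4ec

section prim

/-- primitives of continuous functions -/
theorem hasDerivAt_prim {f : ℝ → ℝ} (hf : Continuous f) (a x : ℝ) :
    HasDerivAt (fun u => ∫ t in a..u, f t) (f x) x :=
  intervalIntegral.integral_hasDerivAt_right (hf.intervalIntegrable _ _)
    (hf.stronglyMeasurableAtFilter _ _) hf.continuousAt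

/-- primitives of periodic functions -/
theorem prim_add_one {f : ℝ → ℝ} (hp : ∀ x, f (x + 1) = f x)
    (hf : ∀ a b, IntervalIntegrable f volume a b) (x : ℝ) :
    ∫ t in (0:ℝ)..(x + 1), f t = (∫ t in (0:ℝ)..x, f t) + ∫ t in (0:ℝ)..1, f t := by
  have hper : Function.Periodic f 1 := hp
  rw [← intervalIntegral.integral_add_adjacent_intervals (hf 0 x) (hf x (x + 1)),
    hper.intervalIntegral_add_eq x 0, zero_add]

/-- Fundamental theorem for absolutely continuous functions. -/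
theorem ac_ftc {f f' : ℝ → ℝ} {a b : ℝ} (hf : AbsolutelyContinuousOnInterval f a b)
    (h : ∀ᵐ x, x ∈ uIcc a b → HasDerivAt f (f' x) x) : ∫ x in a..b, f' x = f b - f a := by
  rw [← hf.integral_deriv_eq_sub]
  apply intervalIntegral.integral_congr_ae
  filter_upwards [h] with x hx hx'
  exact (hx (uIoc_subset_uIcc hx')).deriv.symm

/-- Product rule for a `C^1` function and a primitive of an integrable function. -/
theorem prim_mul {u u' v y : ℝ → ℝ} (hu : ∀ x, HasDerivAt u (u' x) x) (hu' : Continuous u')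
    (hy : ∀ a b, IntervalIntegrable y volume a b) (hv : ∀ x, v x = v 0 + ∫ t in (0:ℝ)..x, y t)
    (x : ℝ) : u x * v x = u 0 * v 0 + ∫ t in (0:ℝ)..x, (u' t * v t + u t * y t) := by
  have hv' : v = fun x => v 0 + ∫ t in (0:ℝ)..x, y t := funext hv
  have hac1 : AbsolutelyContinuousOnInterval u 0 x := by
    apply ContDiffOn.absolutelyContinuousOnInterval
    have : ContDiff ℝ 1 u := by
      rw [contDiff_one_iff_deriv]
      refine ⟨fun x => (hu x).differentiableAt, ?_⟩
      have h2 : deriv u = u' := funext fun x => (hu x).deriv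
      rw [h2]; exact hu'
    exact this.contDiffOn
  have hac2 : AbsolutelyContinuousOnInterval v 0 x := by
    rw [hv']
    have h1 : AbsolutelyContinuousOnInterval (fun _ : ℝ => v 0) 0 x :=
      ContDiffOn.absolutelyContinuousOnInterval contDiff_const.contDiffOn
    exact h1.add ((hy 0 x).absolutelyContinuousOnInterval_intervalIntegral (by simp))
  have h := ac_ftc (f' := fun t => u' t * v t + u t * y t) (hac1.mul hac2) (by
    filter_upwards [(hy 0 x).ae_hasDerivAt_integral] with t ht ht'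
    have h3 : HasDerivAt v (y t) t := by
      rw [hv']
      exact (ht ht' 0 (by simp)).const_add _
    exact (hu t).mul h3)
  rw [h]
  simp

end prim

section defs

/-- mean zero primitive -/
noncomputable def vF (y : ℝ → ℝ) (x : ℝ) : ℝ :=
  (∫ t in (0:ℝ)..x, y t) - ∫ z in (0:ℝ)..1, ∫ t in (0:ℝ)..z, y t

/-- its primitive -/
noncomputable def VF (y : ℝ → ℝ) (x : ℝ) : ℝ := ∫ t in (0:ℝ)..x, vF y t

/-- the derivative of the diffeomorphism -/
noncomputable def DF (y : ℝ → ℝ) (x : ℝ) : ℝ :=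
  Real.exp (VF y x) / ∫ s in (0:ℝ)..1, Real.exp (VF y s)

/-- the diffeomorphism -/
noncomputable def hF (y : ℝ → ℝ) (x : ℝ) : ℝ := ∫ t in (0:ℝ)..x, DF y t

/-- periodic, locally integrable, mean zero -/
structure PM (y : ℝ → ℝ) : Prop where
  per : ∀ x, y (x + 1) = y x
  int : ∀ a b, IntervalIntegrable y volume a b
  mean : ∫ x in (0:ℝ)..1, y x = 0

variable {y : ℝ → ℝ}

theorem vF_cont (hy : PM y) : Continuous (vF y) :=
  (intervalIntegral.continuous_primitive hy.int 0).sub continuous_const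

theorem vF_per (hy : PM y) (x : ℝ) : vF y (x + 1) = vF y x := by
  rw [vF, vF, prim_add_one hy.per hy.int, hy.mean, add_zero]

theorem vF_mean (hy : PM y) : ∫ x in (0:ℝ)..1, vF y x = 0 := by
  have h1 : IntervalIntegrable (fun x => ∫ t in (0:ℝ)..x, y t) volume 0 1 :=
    (intervalIntegral.continuous_primitive hy.int 0).intervalIntegrable _ _
  simp only [vF]
  rw [intervalIntegral.integral_sub h1 intervalIntegrable_const,
    intervalIntegral.integral_const]
  simp

theorem vF_eq (y : ℝ → ℝ) (x : ℝ) : vF y x = vF y 0 + ∫ t in (0:ℝ)..x, y t := by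
  simp only [vF, intervalIntegral.integral_same]
  ring

theorem VF_deriv (hy : PM y) (x : ℝ) : HasDerivAt (VF y) (vF y x) x :=
  hasDerivAt_prim (vF_cont hy) 0 x

theorem VF_cont (hy : PM y) : Continuous (VF y) :=
  continuous_iff_continuousAt.2 fun x => (VF_deriv hy x).continuousAt

theorem VF_per (hy : PM y) (x : ℝ) : VF y (x + 1) = VF y x := by
  rw [VF, VF, prim_add_one (vF_per hy) (fun a b => (vF_cont hy).intervalIntegrable a b),
    vF_mean hy, add_zero]

theorem IF_pos (hy : PM y) : 0 < ∫ s in (0:ℝ)..1, Real.exp (VF y s) :=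
  intervalIntegral.intervalIntegral_pos_of_pos
    ((Real.continuous_exp.comp (VF_cont hy)).intervalIntegrable _ _)
    (fun _ => Real.exp_pos _) one_pos

theorem DF_cont (hy : PM y) : Continuous (DF y) :=
  (Real.continuous_exp.comp (VF_cont hy)).div_const _

theorem DF_pos (hy : PM y) (x : ℝ) : 0 < DF y x := div_pos (Real.exp_pos _) (IF_pos hy)

theorem DF_deriv (hy : PM y) (x : ℝ) : HasDerivAt (DF y) (DF y x * vF y x) x := by
  have h := ((VF_deriv hy x).exp).div_const (∫ s in (0:ℝ)..1, Real.exp (VF y s))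
  have h2 : Real.exp (VF y x) * vF y x / (∫ s in (0:ℝ)..1, Real.exp (VF y s))
      = DF y x * vF y x := by
    rw [DF]; ring
  rw [h2] at h
  exact h

theorem DF_per (hy : PM y) (x : ℝ) : DF y (x + 1) = DF y x := by
  rw [DF, DF, VF_per hy]

theorem DF_int (hy : PM y) : ∫ x in (0:ℝ)..1, DF y x = 1 := by
  simp only [DF]
  rw [intervalIntegral.integral_div, div_self (IF_pos hy).ne']

theorem hF_deriv (hy : PM y) (x : ℝ) : HasDerivAt (hF y) (DF y x) x :=
  hasDerivAt_prim (DF_cont hy) 0 x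

theorem hF_cont (hy : PM y) : Continuous (hF y) :=
  continuous_iff_continuousAt.2 fun x => (hF_deriv hy x).continuousAt

theorem hF_add_one (hy : PM y) (x : ℝ) : hF y (x + 1) = hF y x + 1 := by
  rw [hF, hF, prim_add_one (DF_per hy) (fun a b => (DF_cont hy).intervalIntegrable a b),
    DF_int hy]

theorem hF_zero (y : ℝ → ℝ) : hF y 0 = 0 := by
  rw [hF, intervalIntegral.integral_same]

theorem hF_one (hy : PM y) : hF y 1 = 1 := by
  have := hF_add_one hy 0
  rwa [zero_add, hF_zero, zero_add] at this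

end defs

section bounds

/-- bounded by `C`, and Lipschitz with constant `C` -/
structure BL (C δ a b : ℝ) : Prop where
  left : |a| ≤ C
  right : |b| ≤ C
  diff : |a - b| ≤ C * δ

variable {C D δ a b a' b' : ℝ}

theorem BL.nonneg (h : BL C δ a b) : 0 ≤ C := le_trans (abs_nonneg _) h.left

theorem BL.mono (h : BL C δ a b) (hCD : C ≤ D) (hδ : 0 ≤ δ) : BL D δ a b :=
  ⟨h.left.trans hCD, h.right.trans hCD, h.diff.trans (mul_le_mul_of_nonneg_right hCD hδ)⟩

theorem BL.add (h : BL C δ a b) (h' : BL D δ a' b') : BL (C + D) δ (a + a') (b + b') where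
  left := (abs_add_le _ _).trans (add_le_add h.left h'.left)
  right := (abs_add_le _ _).trans (add_le_add h.right h'.right)
  diff := by
    have h1 : a + a' - (b + b') = (a - b) + (a' - b') := by ring
    rw [h1, add_mul]
    exact (abs_add_le _ _).trans (add_le_add h.diff h'.diff)

theorem BL.sub (h : BL C δ a b) (h' : BL D δ a' b') : BL (C + D) δ (a - a') (b - b') where
  left := (abs_sub _ _).trans (add_le_add h.left h'.left)
  right := (abs_sub _ _).trans (add_le_add h.right h'.right)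
  diff := by
    have h1 : a - a' - (b - b') = (a - b) - (a' - b') := by ring
    rw [h1, add_mul]
    exact (abs_sub _ _).trans (add_le_add h.diff h'.diff)

theorem BL.mul (h : BL C δ a b) (h' : BL D δ a' b') (hδ : 0 ≤ δ) :
    BL (2 * (C * D)) δ (a * a') (b * b') := by
  have hC := h.nonneg
  have hD := h'.nonneg
  have hCD : 0 ≤ C * D := mul_nonneg hC hD
  refine ⟨?_, ?_, ?_⟩
  · rw [abs_mul]
    have := mul_le_mul h.left h'.left (abs_nonneg _) hC
    linarith
  · rw [abs_mul]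
    have := mul_le_mul h.right h'.right (abs_nonneg _) hC
    linarith
  · have h1 : a * a' - b * b' = a * (a' - b') + (a - b) * b' := by ring
    rw [h1]
    refine (abs_add_le _ _).trans ?_
    rw [abs_mul, abs_mul]
    have h2 := mul_le_mul h.left h'.diff (abs_nonneg _) hC
    have h3 := mul_le_mul h.diff h'.right (abs_nonneg _) (mul_nonneg hC hδ)
    linarith

theorem BL.const (c : ℝ) (hδ : 0 ≤ δ) : BL |c| δ c c :=
  ⟨le_rfl, le_rfl, by rw [sub_self, abs_zero]; positivity⟩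

theorem BL.comp {g : ℝ → ℝ} {ε : ℝ} (h : BL C δ a b) (hg : Differentiable ℝ g)
    (hg0 : ∀ x, |g x| ≤ ε) (hg1 : ∀ x, |deriv g x| ≤ ε) (hδ : 0 ≤ δ) :
    BL (ε * (1 + C)) δ (g a) (g b) := by
  have hε : 0 ≤ ε := le_trans (abs_nonneg _) (hg0 0)
  have hC := h.nonneg
  have h1 : ε ≤ ε * (1 + C) := le_mul_of_one_le_right hε (by linarith)
  refine ⟨(hg0 a).trans h1, (hg0 b).trans h1, ?_⟩
  have h2 : |g a - g b| ≤ ε * |a - b| := by
    have := Convex.norm_image_sub_le_of_norm_deriv_le (f := g) (C := ε) (s := univ) (x := b)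
      (y := a) (fun x _ => hg x) (fun x _ => hg1 x) convex_univ (mem_univ _) (mem_univ _)
    exact this
  calc |g a - g b| ≤ ε * |a - b| := h2
    _ ≤ ε * (C * δ) := mul_le_mul_of_nonneg_left h.diff hε
    _ ≤ ε * (1 + C) * δ := by nlinarith [mul_nonneg hε hδ]

theorem BL.exp (h : BL C δ a b) (hδ : 0 ≤ δ) :
    BL (Real.exp C * (1 + C)) δ (Real.exp a) (Real.exp b) := by
  have hC := h.nonneg
  have ha := (abs_le.1 h.left).2
  have hb := (abs_le.1 h.right).2
  have h1 : Real.exp C ≤ Real.exp C * (1 + C) :=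
    le_mul_of_one_le_right (Real.exp_pos _).le (by linarith)
  have key : ∀ u w : ℝ, u ≤ C → w ≤ C → Real.exp u - Real.exp w ≤ Real.exp C * |u - w| := by
    intro u w hu _
    have h2 : Real.exp u * (w - u + 1) ≤ Real.exp w := by
      calc Real.exp u * (w - u + 1) ≤ Real.exp u * Real.exp (w - u) :=
            mul_le_mul_of_nonneg_left (Real.add_one_le_exp _) (Real.exp_pos _).le
        _ = Real.exp w := by rw [← Real.exp_add]; congr 1; ring
    have h3 : Real.exp u * (u - w) ≤ Real.exp C * |u - w| := by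
      calc Real.exp u * (u - w) ≤ Real.exp u * |u - w| :=
            mul_le_mul_of_nonneg_left (le_abs_self _) (Real.exp_pos _).le
        _ ≤ _ := mul_le_mul_of_nonneg_right (Real.exp_le_exp.2 hu) (abs_nonneg _)
    nlinarith
  refine ⟨?_, ?_, ?_⟩
  · rw [abs_of_pos (Real.exp_pos _)]
    exact (Real.exp_le_exp.2 ha).trans h1
  · rw [abs_of_pos (Real.exp_pos _)]
    exact (Real.exp_le_exp.2 hb).trans h1
  · have h4 : |Real.exp a - Real.exp b| ≤ Real.exp C * |a - b| := by
      rw [abs_le]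
      constructor
      · have := key b a hb ha
        rw [abs_sub_comm] at this
        linarith
      · exact key a b ha hb
    calc |Real.exp a - Real.exp b| ≤ Real.exp C * |a - b| := h4
      _ ≤ Real.exp C * (C * δ) := mul_le_mul_of_nonneg_left h.diff (Real.exp_pos _).le
      _ ≤ Real.exp C * (1 + C) * δ := by nlinarith [mul_nonneg (Real.exp_pos C).le hδ]

theorem BL.inv (h : BL C δ a b) {c : ℝ} (hc : 0 < c) (ha : c ≤ a) (hb : c ≤ b)
    (hδ : 0 ≤ δ) : BL (1 / c + C / c ^ 2) δ (1 / a) (1 / b) := by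
  have hC := h.nonneg
  have ha0 : 0 < a := hc.trans_le ha
  have hb0 : 0 < b := hc.trans_le hb
  have h0 : 0 ≤ C / c ^ 2 := by positivity
  have hc' : 0 < 1 / c := by positivity
  refine ⟨?_, ?_, ?_⟩
  · rw [abs_of_pos (by positivity)]
    have := one_div_le_one_div_of_le hc ha
    linarith
  · rw [abs_of_pos (by positivity)]
    have := one_div_le_one_div_of_le hc hb
    linarith
  · have h1 : 1 / a - 1 / b = (b - a) / (a * b) := by field_simp
    rw [h1, abs_div, abs_sub_comm, abs_of_pos (mul_pos ha0 hb0)]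
    have h2 : c ^ 2 ≤ a * b := by
      rw [sq]; exact mul_le_mul ha hb hc.le ha0.le
    calc |a - b| / (a * b) ≤ (C * δ) / c ^ 2 :=
          div_le_div₀ (mul_nonneg hC hδ) h.diff (by positivity) h2
      _ = (C / c ^ 2) * δ := by ring
      _ ≤ (1 / c + C / c ^ 2) * δ := mul_le_mul_of_nonneg_right (by linarith) hδ

theorem BL.integral {F G : ℝ → ℝ} (hF : Continuous F) (hG : Continuous G)
    (h : ∀ x ∈ Icc (0:ℝ) 1, BL C δ (F x) (G x)) (x : ℝ) (hx : x ∈ Icc (0:ℝ) 1) (hδ : 0 ≤ δ) :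
    BL C δ (∫ t in (0:ℝ)..x, F t) (∫ t in (0:ℝ)..x, G t) := by
  have hC := (h x hx).nonneg
  have key : ∀ (f : ℝ → ℝ) (K : ℝ), 0 ≤ K → (∀ t ∈ Icc (0:ℝ) 1, |f t| ≤ K) →
      |∫ t in (0:ℝ)..x, f t| ≤ K := by
    intro f K hK hf
    have h1 := intervalIntegral.norm_integral_le_of_norm_le_const (a := 0) (b := x) (f := f)
      (C := K) (by
        intro t ht
        rw [uIoc_of_le hx.1] at ht
        exact hf t ⟨ht.1.le, ht.2.trans hx.2⟩)
    rw [Real.norm_eq_abs, sub_zero, abs_of_nonneg hx.1] at h1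
    exact h1.trans (mul_le_of_le_one_right hK hx.2)
  refine ⟨key F C hC fun t ht => (h t ht).left, key G C hC fun t ht => (h t ht).right, ?_⟩
  rw [← intervalIntegral.integral_sub (hF.intervalIntegrable _ _) (hG.intervalIntegrable _ _)]
  exact key _ _ (mul_nonneg hC hδ) fun t ht => (h t ht).diff

/-- admissible functions -/
structure Adm (y : ℝ → ℝ) : Prop extends PM y where
  norm : ∫ x in (0:ℝ)..1, |y x| ≤ 1

/-- the distance -/
noncomputable def dst (y z : ℝ → ℝ) : ℝ := ∫ x in (0:ℝ)..1, |y x - z x|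

theorem dst_nonneg (y z : ℝ → ℝ) : 0 ≤ dst y z :=
  intervalIntegral.integral_nonneg (by norm_num) fun _ _ => abs_nonneg _

theorem prim_le {f : ℝ → ℝ} (hf : ∀ a b, IntervalIntegrable f volume a b) {x : ℝ}
    (hx : x ∈ Icc (0:ℝ) 1) : |∫ t in (0:ℝ)..x, f t| ≤ ∫ t in (0:ℝ)..1, |f t| := by
  have h1 : |∫ t in (0:ℝ)..x, f t| ≤ ∫ t in (0:ℝ)..x, |f t| :=
    intervalIntegral.abs_integral_le_integral_abs hx.1
  have h2 : (∫ t in (0:ℝ)..x, |f t|) + ∫ t in x..1, |f t| = ∫ t in (0:ℝ)..1, |f t| :=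
    intervalIntegral.integral_add_adjacent_intervals (hf 0 x).abs (hf x 1).abs
  have h3 : 0 ≤ ∫ t in x..1, |f t| :=
    intervalIntegral.integral_nonneg hx.2 fun _ _ => abs_nonneg _
  linarith

theorem vF_BL {y z : ℝ → ℝ} (hy : Adm y) (hz : Adm z) {x : ℝ} (hx : x ∈ Icc (0:ℝ) 1) :
    BL 2 (dst y z) (vF y x) (vF z x) := by
  have hd := dst_nonneg y z
  have h0 : ∀ x ∈ Icc (0:ℝ) 1,
      BL 1 (dst y z) (∫ t in (0:ℝ)..x, y t) (∫ t in (0:ℝ)..x, z t) := by
    intro x hx
    refine ⟨(prim_le hy.int hx).trans hy.norm, (prim_le hz.int hx).trans hz.norm, ?_⟩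
    rw [← intervalIntegral.integral_sub (hy.int _ _) (hz.int _ _), one_mul]
    exact prim_le (fun a b => (hy.int a b).sub (hz.int a b)) hx
  have h1 := BL.integral (intervalIntegral.continuous_primitive hy.int 0)
    (intervalIntegral.continuous_primitive hz.int 0) h0 1 (by norm_num) hd
  have h2 := (h0 x hx).sub h1
  norm_num at h2
  exact h2

theorem VF_BL {y z : ℝ → ℝ} (hy : Adm y) (hz : Adm z) {x : ℝ} (hx : x ∈ Icc (0:ℝ) 1) :
    BL 2 (dst y z) (VF y x) (VF z x) :=
  BL.integral (vF_cont hy.toPM) (vF_cont hz.toPM) (fun _ ht => vF_BL hy hz ht) x hx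
    (dst_nonneg y z)

theorem exists_DF_BL : ∃ C : ℝ, 0 ≤ C ∧ ∀ y z : ℝ → ℝ, Adm y → Adm z → ∀ x ∈ Icc (0:ℝ) 1,
    BL C (dst y z) (DF y x) (DF z x) := by
  have hI : ∀ y : ℝ → ℝ, Adm y → Real.exp (-2) ≤ ∫ s in (0:ℝ)..1, Real.exp (VF y s) := by
    intro y hy
    have h1 : ∫ s in (0:ℝ)..1, Real.exp (-2) ≤ ∫ s in (0:ℝ)..1, Real.exp (VF y s) := by
      apply intervalIntegral.integral_mono_on (by norm_num) intervalIntegrable_const
        ((Real.continuous_exp.comp (VF_cont hy.toPM)).intervalIntegrable _ _)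
      intro x hx
      exact Real.exp_le_exp.2 (neg_le_of_abs_le (VF_BL hy hy hx).left)
    simpa using h1
  refine ⟨2 * ((Real.exp 2 * (1 + 2)) *
    (1 / Real.exp (-2) + (Real.exp 2 * (1 + 2)) / Real.exp (-2) ^ 2)), by positivity, ?_⟩
  intro y z hy hz x hx
  have hd := dst_nonneg y z
  have h1 : ∀ x ∈ Icc (0:ℝ) 1, BL (Real.exp 2 * (1 + 2)) (dst y z) (Real.exp (VF y x))
      (Real.exp (VF z x)) := fun x hx => (VF_BL hy hz hx).exp hd
  have h2 := BL.integral (Real.continuous_exp.comp (VF_cont hy.toPM))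
    (Real.continuous_exp.comp (VF_cont hz.toPM)) h1 1 (by norm_num) hd
  have h3 := h2.inv (Real.exp_pos (-2)) (hI y hy) (hI z hz) hd
  have h4 := (h1 x hx).mul h3 hd
  simp only [Function.comp_def, mul_one_div] at h4
  exact h4

theorem exists_hF_BL : ∃ C : ℝ, 0 ≤ C ∧ ∀ y z : ℝ → ℝ, Adm y → Adm z → ∀ x ∈ Icc (0:ℝ) 1,
    BL C (dst y z) (hF y x) (hF z x) := by
  obtain ⟨C, hC, h⟩ := exists_DF_BL
  refine ⟨C, hC, fun y z hy hz x hx => ?_⟩
  exact BL.integral (DF_cont hy.toPM) (DF_cont hz.toPM) (fun t ht => h y z hy hz t ht) x hx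
    (dst_nonneg y z)

end bounds

section rho

/-- smallness of a smooth periodic function -/
structure Sm (ε : ℝ) (g : ℝ → ℝ) : Prop where
  smooth : ContDiff ℝ ∞ g
  per : ∀ x, g (x + 1) = g x
  b : ∀ k ≤ 3, ∀ x, |iteratedDeriv k g x| ≤ ε

theorem iteratedDeriv_hasDerivAt {g : ℝ → ℝ} (hg : ContDiff ℝ ∞ g) (k : ℕ) (x : ℝ) :
    HasDerivAt (iteratedDeriv k g) (iteratedDeriv (k + 1) g x) x := by
  rw [iteratedDeriv_succ]
  apply DifferentiableAt.hasDerivAt
  exact (hg.differentiable_iteratedDeriv k (by exact_mod_cast WithTop.coe_lt_top _)) x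

/-- the bounded part of `ρ` -/
noncomputable def AF (g y : ℝ → ℝ) (x : ℝ) : ℝ :=
  iteratedDeriv 2 g (hF y x) * DF y x ^ 3 + 3 * (iteratedDeriv 1 g (hF y x) * DF y x ^ 2 * vF y x)
    + g (hF y x) * DF y x * vF y x ^ 2

/-- the coefficient of `y` in `ρ` -/
noncomputable def BF (g y : ℝ → ℝ) (x : ℝ) : ℝ := g (hF y x) * DF y x

/-- the second derivative of `(g ∘ h) h'` -/
noncomputable def rhoF (g y : ℝ → ℝ) (x : ℝ) : ℝ := AF g y x + BF g y x * y x

theorem exists_AB_BL : ∃ C : ℝ, 0 ≤ C ∧ ∀ (ε : ℝ) (g : ℝ → ℝ), Sm ε g → ∀ y z : ℝ → ℝ,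
    Adm y → Adm z → ∀ x ∈ Icc (0:ℝ) 1,
    BL (C * ε) (dst y z) (AF g y x) (AF g z x) ∧ BL (C * ε) (dst y z) (BF g y x) (BF g z x) := by
  obtain ⟨C1, hC1, h1⟩ := exists_DF_BL
  obtain ⟨C2, hC2, h2⟩ := exists_hF_BL
  set KA : ℝ := 2 * ((1 + C2) * (2 * (2 * (C1 * C1) * C1))) +
    2 * (3 * (2 * (2 * ((1 + C2) * (2 * (C1 * C1))) * 2))) +
    2 * (2 * ((1 + C2) * C1) * (2 * (2 * 2))) with hKA
  set KB : ℝ := 2 * ((1 + C2) * C1) with hKB
  have hKA0 : 0 ≤ KA := by positivity
  have hKB0 : 0 ≤ KB := by positivity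
  refine ⟨KA + KB, by positivity, ?_⟩
  intro ε g hg y z hy hz x hx
  have hd := dst_nonneg y z
  have hε : 0 ≤ ε := le_trans (abs_nonneg _) (hg.b 0 (by norm_num) 0)
  have hh := h2 y z hy hz x hx
  have hD := h1 y z hy hz x hx
  have hv := vF_BL hy hz hx
  have hgk : ∀ k ≤ 2, BL (ε * (1 + C2)) (dst y z) (iteratedDeriv k g (hF y x))
      (iteratedDeriv k g (hF z x)) := by
    intro k hk
    refine hh.comp (fun x => (iteratedDeriv_hasDerivAt hg.smooth k x).differentiableAt)
      (hg.b k (by omega)) ?_ hd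
    intro x
    rw [(iteratedDeriv_hasDerivAt hg.smooth k x).deriv]
    exact hg.b (k + 1) (by omega) x
  have h0 := hgk 0 (by norm_num)
  have h1' := hgk 1 (by norm_num)
  have h2' := hgk 2 le_rfl
  rw [iteratedDeriv_zero] at h0
  have hD2 := hD.mul hD hd
  have hD3 := hD2.mul hD hd
  have hv2 := hv.mul hv hd
  have e1 := h2'.mul hD3 hd
  have e2 := (BL.const 3 hd).mul ((h1'.mul hD2 hd).mul hv hd) hd
  have e3 := (h0.mul hD hd).mul hv2 hd
  have e4 := h0.mul hD hd
  constructor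
  · have e5 := (e1.add e2).add e3
    have e6 := e5.mono (D := (KA + KB) * ε) (by
      rw [abs_of_pos (by norm_num : (0:ℝ) < 3)]
      have : 0 ≤ KB * ε := mul_nonneg hKB0 hε
      rw [add_mul]
      have h7 : KA * ε = 2 * (ε * (1 + C2) * (2 * (2 * (C1 * C1) * C1))) +
        2 * (3 * (2 * (2 * (ε * (1 + C2) * (2 * (C1 * C1))) * 2))) +
        2 * (2 * (ε * (1 + C2) * C1) * (2 * (2 * 2))) := by rw [hKA]; ring
      linarith) hd
    have e7 : ∀ y : ℝ → ℝ, AF g y x =
        iteratedDeriv 2 g (hF y x) * (DF y x * DF y x * DF y x) +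
        3 * (iteratedDeriv 1 g (hF y x) * (DF y x * DF y x) * vF y x) +
        g (hF y x) * DF y x * (vF y x * vF y x) := by
      intro y; rw [AF]; ring
    rw [e7, e7]
    exact e6
  · refine e4.mono ?_ hd
    have : 0 ≤ KA * ε := mul_nonneg hKA0 hε
    rw [add_mul]
    have h7 : KB * ε = 2 * (ε * (1 + C2) * C1) := by rw [hKB]; ring
    linarith

/-- pointwise bounds for `ρ` -/
theorem exists_rho_bound : ∃ C : ℝ, 0 ≤ C ∧ ∀ (ε : ℝ) (g : ℝ → ℝ), Sm ε g → ∀ y z : ℝ → ℝ,
    Adm y → Adm z → ∀ x ∈ Icc (0:ℝ) 1,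
    |rhoF g y x| ≤ C * ε * (1 + |y x|) ∧
    |rhoF g y x - rhoF g z x| ≤ C * ε * (dst y z * (1 + |y x|) + |y x - z x|) := by
  obtain ⟨C, hC, h⟩ := exists_AB_BL
  refine ⟨C, hC, fun ε g hg y z hy hz x hx => ?_⟩
  obtain ⟨hA, hB⟩ := h ε g hg y z hy hz x hx
  have hCε := hA.nonneg
  constructor
  · rw [rhoF]
    calc |AF g y x + BF g y x * y x| ≤ |AF g y x| + |BF g y x| * |y x| := by
          rw [← abs_mul]; exact abs_add_le _ _
      _ ≤ C * ε + C * ε * |y x| :=
          add_le_add hA.left (mul_le_mul_of_nonneg_right hB.left (abs_nonneg _))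
      _ = _ := by ring
  · have h1 : rhoF g y x - rhoF g z x = (AF g y x - AF g z x) + (BF g y x - BF g z x) * y x +
        BF g z x * (y x - z x) := by rw [rhoF, rhoF]; ring
    rw [h1]
    calc |(AF g y x - AF g z x) + (BF g y x - BF g z x) * y x + BF g z x * (y x - z x)|
        ≤ |AF g y x - AF g z x| + |BF g y x - BF g z x| * |y x| + |BF g z x| * |y x - z x| := by
          rw [← abs_mul, ← abs_mul]
          exact (abs_add_le _ _).trans (add_le_add_left (abs_add_le _ _) _)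
      _ ≤ C * ε * dst y z + C * ε * dst y z * |y x| + C * ε * |y x - z x| := by
          gcongr
          · exact hA.diff
          · exact hB.diff
          · exact hB.right
      _ = _ := by ring

variable {g y : ℝ → ℝ}

theorem g_add_one (hp : ∀ x, g (x + 1) = g x) (k : ℕ) (x : ℝ) :
    iteratedDeriv k g (x + 1) = iteratedDeriv k g x := by
  induction k generalizing x with
  | zero => rw [iteratedDeriv_zero]; exact hp x
  | succ n ih =>
    rw [iteratedDeriv_succ]
    have h1 : (fun x => iteratedDeriv n g (x + 1)) = iteratedDeriv n g := funext ih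
    have h2 := deriv_comp_add_const (iteratedDeriv n g) 1 x
    rw [← h2, h1]

/-- the right hand side -/
noncomputable def rF (g y : ℝ → ℝ) (x : ℝ) : ℝ := g (hF y x) * DF y x

/-- its derivative -/
noncomputable def r1F (g y : ℝ → ℝ) (x : ℝ) : ℝ :=
  iteratedDeriv 1 g (hF y x) * DF y x ^ 2 + g (hF y x) * DF y x * vF y x

theorem rF_deriv (hg : ContDiff ℝ ∞ g) (hy : PM y) (x : ℝ) :
    HasDerivAt (rF g y) (r1F g y x) x := by
  have h0 := iteratedDeriv_hasDerivAt hg 0 (hF y x)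
  rw [iteratedDeriv_zero, zero_add] at h0
  have h1 : HasDerivAt (fun x => g (hF y x) * DF y x) _ x :=
    (h0.comp x (hF_deriv hy x)).mul (DF_deriv hy x)
  have h2 : r1F g y x = iteratedDeriv 1 g (hF y x) * DF y x * DF y x +
      (g ∘ hF y) x * (DF y x * vF y x) := by
    rw [r1F, Function.comp_apply]; ring
  rw [h2]
  exact h1

theorem r1F_cont (hg : ContDiff ℝ ∞ g) (hy : PM y) : Continuous (r1F g y) := by
  have h1 : Continuous (iteratedDeriv 1 g) :=
    continuous_iff_continuousAt.2 fun x => (iteratedDeriv_hasDerivAt hg 1 x).continuousAt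
  exact ((h1.comp (hF_cont hy)).mul ((DF_cont hy).pow 2)).add
    (((hg.continuous.comp (hF_cont hy)).mul (DF_cont hy)).mul (vF_cont hy))

theorem iteratedDeriv_cont (hg : ContDiff ℝ ∞ g) (k : ℕ) : Continuous (iteratedDeriv k g) :=
  continuous_iff_continuousAt.2 fun x => (iteratedDeriv_hasDerivAt hg k x).continuousAt

theorem AF_cont (hg : ContDiff ℝ ∞ g) (hy : PM y) : Continuous (AF g y) := by
  have h1 := (iteratedDeriv_cont hg 1).comp (hF_cont hy)
  have h2 := (iteratedDeriv_cont hg 2).comp (hF_cont hy)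
  have h0 := hg.continuous.comp (hF_cont hy)
  exact ((h2.mul ((DF_cont hy).pow 3)).add (continuous_const.mul
    ((h1.mul ((DF_cont hy).pow 2)).mul (vF_cont hy)))).add
    ((h0.mul (DF_cont hy)).mul ((vF_cont hy).pow 2))

theorem BF_cont (hg : ContDiff ℝ ∞ g) (hy : PM y) : Continuous (BF g y) :=
  (hg.continuous.comp (hF_cont hy)).mul (DF_cont hy)

theorem rhoF_int (hg : ContDiff ℝ ∞ g) (hy : PM y) (a b : ℝ) :
    IntervalIntegrable (rhoF g y) volume a b :=
  ((AF_cont hg hy).intervalIntegrable a b).add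
    ((hy.int a b).continuousOn_mul (BF_cont hg hy).continuousOn)

theorem r1F_eq (hg : ContDiff ℝ ∞ g) (hy : PM y) (x : ℝ) :
    r1F g y x = r1F g y 0 + ∫ t in (0:ℝ)..x, rhoF g y t := by
  -- the part without `y`
  have hw : ∀ x, HasDerivAt (fun x => iteratedDeriv 1 g (hF y x) * DF y x ^ 2)
      (iteratedDeriv 2 g (hF y x) * DF y x ^ 3 +
        2 * (iteratedDeriv 1 g (hF y x) * DF y x ^ 2 * vF y x)) x := by
    intro x
    have h1 : HasDerivAt (fun x => iteratedDeriv 1 g (hF y x) * DF y x ^ 2) _ x :=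
      ((iteratedDeriv_hasDerivAt hg 1 (hF y x)).comp x (hF_deriv hy x)).mul
        ((DF_deriv hy x).pow 2)
    convert h1 using 1
    rw [Function.comp_apply]
    push_cast
    ring
  have hwc : Continuous (fun x => iteratedDeriv 2 g (hF y x) * DF y x ^ 3 +
        2 * (iteratedDeriv 1 g (hF y x) * DF y x ^ 2 * vF y x)) := by
    have h1 := (iteratedDeriv_cont hg 1).comp (hF_cont hy)
    have h2 := (iteratedDeriv_cont hg 2).comp (hF_cont hy)
    exact (h2.mul ((DF_cont hy).pow 3)).add (continuous_const.mul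
      ((h1.mul ((DF_cont hy).pow 2)).mul (vF_cont hy)))
  have e1 := intervalIntegral.integral_eq_sub_of_hasDerivAt (a := 0) (b := x)
    (fun t _ => hw t) (hwc.intervalIntegrable _ _)
  have e2 := prim_mul (u := rF g y) (u' := r1F g y) (v := vF y) (y := y)
    (rF_deriv hg hy) (r1F_cont hg hy) hy.int (vF_eq y) x
  have e3 : ∫ t in (0:ℝ)..x, rhoF g y t =
      (∫ t in (0:ℝ)..x, (iteratedDeriv 2 g (hF y t) * DF y t ^ 3 +
        2 * (iteratedDeriv 1 g (hF y t) * DF y t ^ 2 * vF y t))) +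
      ∫ t in (0:ℝ)..x, (r1F g y t * vF y t + rF g y t * y t) := by
    rw [← intervalIntegral.integral_add (hwc.intervalIntegrable _ _)]
    · refine intervalIntegral.integral_congr fun t _ => ?_
      simp only [rhoF, AF, BF, r1F, rF]
      ring
    · have hrc : Continuous (rF g y) :=
        (hg.continuous.comp (hF_cont hy)).mul (DF_cont hy)
      exact (((r1F_cont hg hy).mul (vF_cont hy)).intervalIntegrable _ _).add
        ((hy.int 0 x).continuousOn_mul hrc.continuousOn)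
  have e4 : ∀ x, r1F g y x = iteratedDeriv 1 g (hF y x) * DF y x ^ 2 + rF g y x * vF y x :=
    fun x => rfl
  rw [e3, e1, e4, e4]
  linarith [e2]

end rho

section L2

/-- the Hilbert space -/
noncomputable abbrev E2 := Lp ℝ 2 (volume.restrict (Ioc (0:ℝ) 1))

instance : IsProbabilityMeasure (volume.restrict (Ioc (0:ℝ) 1)) := ⟨by simp⟩

/-- periodic extension -/
noncomputable def pe (f : ℝ → ℝ) (x : ℝ) : ℝ := f (Int.fract x)

theorem pe_per (f : ℝ → ℝ) (x : ℝ) : pe f (x + 1) = pe f x := by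
  rw [pe, pe, Int.fract_add_one]

theorem pe_eq (f : ℝ → ℝ) {x : ℝ} (hx : x ∈ Ioo (0:ℝ) 1) : pe f x = f x := by
  rw [pe, Int.fract_eq_self.2 ⟨hx.1.le, hx.2⟩]

theorem ae_ne_one : ∀ᵐ x ∂(volume : Measure ℝ), x ≠ 1 := by
  rw [ae_iff]
  simp

theorem pe_ae (f : ℝ → ℝ) : ∀ᵐ x ∂(volume.restrict (Ioc (0:ℝ) 1)), pe f x = f x := by
  rw [ae_restrict_iff' measurableSet_Ioc]
  filter_upwards [ae_ne_one] with x hx hx'
  exact pe_eq f ⟨hx'.1, lt_of_le_of_ne hx'.2 hx⟩

theorem integral_pe (f : ℝ → ℝ) {x : ℝ} (hx : x ∈ Icc (0:ℝ) 1) :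
    ∫ t in (0:ℝ)..x, pe f t = ∫ t in (0:ℝ)..x, f t := by
  apply intervalIntegral.integral_congr_ae
  filter_upwards [ae_ne_one] with t ht ht'
  rw [uIoc_of_le hx.1] at ht'
  exact pe_eq f ⟨ht'.1, lt_of_le_of_ne (ht'.2.trans hx.2) ht⟩

theorem E2_int (f : E2) : IntervalIntegrable f volume 0 1 := by
  rw [intervalIntegrable_iff, uIoc_of_le zero_le_one]
  exact (Lp.memLp f).integrable one_le_two

theorem pe_int {f : ℝ → ℝ} (hf : IntervalIntegrable f volume 0 1) (a b : ℝ) :
    IntervalIntegrable (pe f) volume a b := by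
  have hper : Function.Periodic (pe f) 1 := pe_per f
  apply hper.intervalIntegrable₀ one_ne_zero
  rw [intervalIntegrable_iff, uIoc_of_le zero_le_one] at hf ⊢
  exact hf.congr ((pe_ae f).mono fun x hx => hx.symm)

theorem E2_L1_le (f : E2) : ∫ x in (0:ℝ)..1, |f x| ≤ ‖f‖ := by
  rw [intervalIntegral.integral_of_le zero_le_one]
  have h1 : ∫ x in Ioc (0:ℝ) 1, |f x| = (eLpNorm f 1 (volume.restrict (Ioc (0:ℝ) 1))).toReal := by
    rw [eLpNorm_one_eq_lintegral_enorm,
      ← integral_norm_eq_lintegral_enorm (Lp.memLp f).aestronglyMeasurable]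
    rfl
  rw [h1, Lp.norm_def]
  apply ENNReal.toReal_mono (Lp.eLpNorm_ne_top f)
  exact eLpNorm_le_eLpNorm_of_exponent_le one_le_two (Lp.memLp f).aestronglyMeasurable

theorem E2_adm {f : E2} (hf : ‖f‖ ≤ 1) (hf0 : ∫ x in (0:ℝ)..1, f x = 0) : Adm (pe f) where
  per := pe_per f
  int := pe_int (E2_int f)
  mean := by rw [integral_pe _ (by norm_num), hf0]
  norm := by
    refine le_trans (le_of_eq ?_) ((E2_L1_le f).trans hf)
    exact integral_pe (fun x => |f x|) (by norm_num)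

theorem dst_le (f f' : E2) : dst (pe f) (pe f') ≤ ‖f - f'‖ := by
  refine le_trans (le_of_eq ?_) (E2_L1_le (f - f'))
  have h1 : dst (pe f) (pe f') = ∫ x in (0:ℝ)..1, |f x - f' x| :=
    integral_pe (fun x => |f x - f' x|) (by norm_num)
  rw [h1]
  apply intervalIntegral.integral_congr_ae
  have h2 := Lp.coeFn_sub f f'
  rw [Filter.EventuallyEq, ae_restrict_iff' measurableSet_Ioc] at h2
  filter_upwards [h2] with x hx hx'
  rw [uIoc_of_le zero_le_one] at hx'
  rw [hx hx', Pi.sub_apply]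

theorem exists_rho_L2 : ∃ C : ℝ, 0 ≤ C ∧ ∀ (ε : ℝ) (g : ℝ → ℝ), Sm ε g → ∀ f : E2, ‖f‖ ≤ 1 →
    ∫ x in (0:ℝ)..1, f x = 0 →
    ∃ hf : MemLp (rhoF g (pe f)) 2 (volume.restrict (Ioc (0:ℝ) 1)), ‖hf.toLp _‖ ≤ C * ε ∧
      ∀ f' : E2, ‖f'‖ ≤ 1 → ∫ x in (0:ℝ)..1, f' x = 0 →
      ∀ hf' : MemLp (rhoF g (pe f')) 2 (volume.restrict (Ioc (0:ℝ) 1)),
        ‖hf.toLp _ - hf'.toLp _‖ ≤ C * ε * ‖f - f'‖ := by
  obtain ⟨C, hC, h⟩ := exists_rho_bound
  refine ⟨3 * C, by positivity, ?_⟩
  intro ε g hg f hf1 hf0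
  have hε : 0 ≤ ε := le_trans (abs_nonneg _) (hg.b 0 (by norm_num) 0)
  have hadm := E2_adm hf1 hf0
  set one : E2 := Lp.const 2 (volume.restrict (Ioc (0:ℝ) 1)) (1:ℝ) with hone
  have hone1 : ‖one‖ ≤ 1 := by
    rw [hone]
    refine (Lp.norm_const_le _ _ _).trans ?_
    simp
  have hone2 : ∀ᵐ x ∂(volume.restrict (Ioc (0:ℝ) 1)), one x = 1 := Lp.coeFn_const _ _ _
  have hCε : 0 ≤ C * ε := mul_nonneg hC hε
  have hb : ∀ᵐ x ∂(volume.restrict (Ioc (0:ℝ) 1)),
      ‖rhoF g (pe f) x‖ ≤ C * ε * (1 + |f x|) := by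
    have h1 : ∀ᵐ x ∂(volume.restrict (Ioc (0:ℝ) 1)), x ∈ Ioc (0:ℝ) 1 :=
      ae_restrict_mem measurableSet_Ioc
    filter_upwards [h1, pe_ae f] with x hx hx'
    have := (h ε g hg (pe f) (pe f) hadm hadm x ⟨hx.1.le, hx.2⟩).1
    rw [hx'] at this
    exact this
  have hmeas : ∀ f : E2, ‖f‖ ≤ 1 → ∫ x in (0:ℝ)..1, f x = 0 →
      AEStronglyMeasurable (rhoF g (pe f)) (volume.restrict (Ioc (0:ℝ) 1)) := by
    intro f hf1 hf0
    have := (rhoF_int hg.smooth (E2_adm hf1 hf0).toPM 0 1).1.aestronglyMeasurable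
    exact this
  have hmem1 : MemLp (fun x => C * ε * (1 + |f x|)) 2 (volume.restrict (Ioc (0:ℝ) 1)) :=
    ((memLp_const (1:ℝ)).add (Lp.memLp f).abs).const_mul (C * ε)
  have hmem : MemLp (rhoF g (pe f)) 2 (volume.restrict (Ioc (0:ℝ) 1)) :=
    hmem1.mono' (hmeas f hf1 hf0) hb
  refine ⟨hmem, ?_, ?_⟩
  · have h1 : ‖hmem.toLp _‖ ≤ ‖(C * ε) • (one + |f|)‖ := by
      apply Lp.norm_le_norm_of_ae_le
      filter_upwards [hb, hone2, hmem.coeFn_toLp, Lp.coeFn_smul (C * ε) (one + |f|),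
        Lp.coeFn_add one |f|, Lp.coeFn_abs f] with x h1 h2 h3 h4 h5 h6
      rw [h3, h4, Pi.smul_apply, h5, Pi.add_apply, h2, h6, smul_eq_mul]
      exact h1.trans (le_abs_self _)
    refine h1.trans ?_
    rw [norm_smul, Real.norm_of_nonneg hCε]
    have h2 : ‖one + |f|‖ ≤ 1 + 1 := by
      refine (norm_add_le _ _).trans (add_le_add hone1 ?_)
      rw [norm_abs_eq_norm]; exact hf1
    have h3 := mul_le_mul_of_nonneg_left h2 hCε
    linarith
  · intro f' hf1' hf0' hmem'
    have hadm' := E2_adm hf1' hf0'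
    have hδ := dst_nonneg (pe f) (pe f')
    have hδ' := dst_le f f'
    set δ := dst (pe f) (pe f') with hδdef
    have h1 : ‖hmem.toLp _ - hmem'.toLp _‖ ≤ ‖(C * ε) • (δ • (one + |f|) + |f - f'|)‖ := by
      apply Lp.norm_le_norm_of_ae_le
      have h0 : ∀ᵐ x ∂(volume.restrict (Ioc (0:ℝ) 1)), x ∈ Ioc (0:ℝ) 1 :=
        ae_restrict_mem measurableSet_Ioc
      filter_upwards [h0, pe_ae f, pe_ae f', hone2, hmem.coeFn_toLp, hmem'.coeFn_toLp,
        Lp.coeFn_sub (hmem.toLp _) (hmem'.toLp _),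
        Lp.coeFn_smul (C * ε) (δ • (one + |f|) + |f - f'|),
        Lp.coeFn_add (δ • (one + |f|)) |f - f'|,
        Lp.coeFn_smul δ (one + |f|),
        Lp.coeFn_add one |f|, Lp.coeFn_abs f, Lp.coeFn_abs (f - f'), Lp.coeFn_sub f f'] with
        x hx p1 p2 p3 p4 p5 p6 p7 p8 p9 p10 p11 p12 p13
      rw [p6, Pi.sub_apply, p4, p5, p7, Pi.smul_apply, p8, Pi.add_apply, p9, Pi.smul_apply, p10,
        Pi.add_apply, p3, p11, p12, p13, Pi.sub_apply, smul_eq_mul, smul_eq_mul]
      have := (h ε g hg (pe f) (pe f') hadm hadm' x ⟨hx.1.le, hx.2⟩).2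
      rw [p1, p2] at this
      exact this.trans (le_abs_self _)
    refine h1.trans ?_
    rw [norm_smul, Real.norm_of_nonneg hCε]
    have h2 : ‖one + |f|‖ ≤ 1 + 1 := by
      refine (norm_add_le _ _).trans (add_le_add hone1 ?_)
      rw [norm_abs_eq_norm]; exact hf1
    have h3 : ‖δ • (one + |f|) + |f - f'|‖ ≤ 3 * ‖f - f'‖ := by
      refine (norm_add_le _ _).trans ?_
      rw [norm_smul, norm_abs_eq_norm, Real.norm_of_nonneg hδ]
      have h4 : δ * ‖one + |f|‖ ≤ ‖f - f'‖ * (1 + 1) :=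
        mul_le_mul hδ' h2 (norm_nonneg _) (norm_nonneg _)
      linarith
    have h4 := mul_le_mul_of_nonneg_left h3 hCε
    linarith

/-- the complete set on which we iterate -/
def KS : Set E2 := {f | ‖f‖ ≤ 1 ∧ ∫ x in (0:ℝ)..1, f x = 0}

theorem KS_complete : IsComplete KS := by
  apply IsClosed.isComplete
  have h1 : IsClosed {f : E2 | ‖f‖ ≤ 1} := isClosed_le continuous_norm continuous_const
  have h2 : Continuous fun f : E2 => ∫ x in (0:ℝ)..1, f x := by
    have hlip : LipschitzWith 1 fun f : E2 => ∫ x in (0:ℝ)..1, f x := by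
      apply LipschitzWith.of_dist_le_mul
      intro f f'
      rw [Real.dist_eq, dist_eq_norm, NNReal.coe_one, one_mul,
        ← intervalIntegral.integral_sub (E2_int f) (E2_int f')]
      refine le_trans ?_ (E2_L1_le (f - f'))
      have h3 : ∫ x in (0:ℝ)..1, |(f - f' : E2) x| = ∫ x in (0:ℝ)..1, |f x - f' x| := by
        apply intervalIntegral.integral_congr_ae
        have h2 := Lp.coeFn_sub f f'
        rw [Filter.EventuallyEq, ae_restrict_iff' measurableSet_Ioc] at h2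
        filter_upwards [h2] with x hx hx'
        rw [uIoc_of_le zero_le_one] at hx'
        rw [hx hx', Pi.sub_apply]
      rw [h3]
      exact intervalIntegral.abs_integral_le_integral_abs zero_le_one
    exact hlip.continuous
  exact h1.inter (isClosed_eq h2 continuous_const)

/-- Existence of the fixed point. -/
theorem exists_fixed (T : E2 →L[ℝ] E2) (hT0 : ∀ ρ : E2, ∫ x in (0:ℝ)..1, T ρ x = 0) :
    ∃ ε : ℝ, 0 < ε ∧ ∀ g : ℝ → ℝ, Sm ε g → ∃ f : E2, ‖f‖ ≤ 1 ∧ ∫ x in (0:ℝ)..1, f x = 0 ∧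
      ∃ hf : MemLp (rhoF g (pe f)) 2 (volume.restrict (Ioc (0:ℝ) 1)), f = T (hf.toLp _) := by
  classical
  obtain ⟨C, hC, h⟩ := exists_rho_L2
  have hTn : 0 ≤ ‖T‖ := norm_nonneg T
  refine ⟨1 / (2 * (C + 1) * (‖T‖ + 1)), by positivity, ?_⟩
  intro g hg
  set ε : ℝ := 1 / (2 * (C + 1) * (‖T‖ + 1)) with hε
  have hε0 : 0 < ε := by positivity
  have hsmall : ‖T‖ * (C * ε) ≤ 1 / 2 := by
    have h1 : ‖T‖ * (C * ε) ≤ (‖T‖ + 1) * ((C + 1) * ε) := by gcongr <;> linarith
    have h2 : (‖T‖ + 1) * ((C + 1) * ε) = 1 / 2 := by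
      rw [hε]; field_simp
    linarith
  let Φ : E2 → E2 := fun f =>
    if hf : MemLp (rhoF g (pe f)) 2 (volume.restrict (Ioc (0:ℝ) 1)) then T (hf.toLp _) else 0
  have hΦ : ∀ f ∈ KS, ∃ hf : MemLp (rhoF g (pe f)) 2 (volume.restrict (Ioc (0:ℝ) 1)),
      Φ f = T (hf.toLp _) ∧ ‖hf.toLp _‖ ≤ C * ε := by
    intro f hf
    obtain ⟨hm, hb, -⟩ := h ε g hg f hf.1 hf.2
    exact ⟨hm, dif_pos hm, hb⟩
  have hmaps : MapsTo Φ KS KS := by
    intro f hf
    obtain ⟨hm, h1, h2⟩ := hΦ f hf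
    refine ⟨?_, ?_⟩
    · rw [h1]
      refine (T.le_opNorm _).trans ?_
      have := mul_le_mul_of_nonneg_left h2 hTn
      linarith
    · rw [h1]; exact hT0 _
  have hcontr : ContractingWith (1 / 2) (hmaps.restrict Φ KS KS) := by
    refine ⟨by rw [← NNReal.coe_lt_coe]; norm_num, LipschitzWith.of_dist_le_mul ?_⟩
    rintro ⟨f, hf⟩ ⟨f', hf'⟩
    rw [Subtype.dist_eq, Subtype.dist_eq, dist_eq_norm, dist_eq_norm]
    simp only [MapsTo.val_restrict_apply]
    obtain ⟨hm, h1, -⟩ := hΦ f hf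
    obtain ⟨hm', h1', -⟩ := hΦ f' hf'
    obtain ⟨_, -, h3⟩ := h ε g hg f hf.1 hf.2
    rw [h1, h1', ← map_sub]
    refine (T.le_opNorm _).trans ?_
    have h4 := mul_le_mul_of_nonneg_left (h3 f' hf'.1 hf'.2 hm') hTn
    refine h4.trans ?_
    have h5 : ‖T‖ * (C * ε * ‖f - f'‖) = ‖T‖ * (C * ε) * ‖f - f'‖ := by ring
    rw [h5]
    refine mul_le_mul_of_nonneg_right ?_ (norm_nonneg _)
    simpa using hsmall
  have h0 : (0 : E2) ∈ KS := by
    refine ⟨by simp, ?_⟩
    have h1 : ∫ x in (0:ℝ)..1, ((0 : E2) : ℝ → ℝ) x = ∫ x in (0:ℝ)..1, (0:ℝ) := by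
      apply intervalIntegral.integral_congr_ae
      have h2 := Lp.coeFn_zero (E := ℝ) (p := 2) (μ := volume.restrict (Ioc (0:ℝ) 1))
      rw [Filter.EventuallyEq, ae_restrict_iff' measurableSet_Ioc] at h2
      filter_upwards [h2] with x hx hx'
      rw [uIoc_of_le zero_le_one] at hx'
      rw [hx hx', Pi.zero_apply]
    rw [h1]; simp
  obtain ⟨f, hf, hfix, -⟩ := ContractingWith.exists_fixedPoint' KS_complete hmaps hcontr h0
    (edist_ne_top _ _)
  obtain ⟨hm, h1, -⟩ := hΦ f hf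
  exact ⟨f, hf.1, hf.2, hm, by rw [← h1]; exact hfix.symm⟩

end L2

section final

theorem rF_cont {g y : ℝ → ℝ} (hg : ContDiff ℝ ∞ g) (hy : PM y) : Continuous (rF g y) :=
  (hg.continuous.comp (hF_cont hy)).mul (DF_cont hy)

theorem rF_per {g y : ℝ → ℝ} (hp : ∀ x, g (x + 1) = g x) (hy : PM y) (x : ℝ) :
    rF g y (x + 1) = rF g y x := by
  rw [rF, rF, hF_add_one hy, hp, DF_per hy]

theorem r1F_per {g y : ℝ → ℝ} (hp : ∀ x, g (x + 1) = g x) (hy : PM y) (x : ℝ) :
    r1F g y (x + 1) = r1F g y x := by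
  rw [r1F, r1F, hF_add_one hy, hp, g_add_one hp, DF_per hy, vF_per hy]

theorem rF_int {g y : ℝ → ℝ} (hg : ContDiff ℝ ∞ g) (hg0 : ∫ x in (0:ℝ)..1, g x = 0)
    (hy : PM y) : ∫ x in (0:ℝ)..1, rF g y x = 0 := by
  have h := intervalIntegral.integral_comp_mul_deriv (a := 0) (b := 1) (f := hF y) (f' := DF y)
    (g := g) (fun x _ => hF_deriv hy x) (DF_cont hy).continuousOn hg.continuous
  rw [hF_zero, hF_one hy, hg0] at h
  exact h

/-- From the fixed point equation to the cohomological equation. -/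
theorem equation_of_ae {g y : ℝ → ℝ} (hg : ContDiff ℝ ∞ g) (hp : ∀ x, g (x + 1) = g x)
    (hg0 : ∫ x in (0:ℝ)..1, g x = 0) (hy : PM y)
    (h : ∀ᵐ x ∂(volume.restrict (Ioc (0:ℝ) 1)), y (x + √2) - y x = r1F g y x) (x : ℝ) :
    vF y (x + √2) - vF y x = rF g y x := by
  set D : ℝ → ℝ := fun x => vF y (x + √2) - vF y x - rF g y x with hD
  have hvc := vF_cont hy
  have hrc := rF_cont hg hy
  have hvc' : Continuous fun x => vF y (x + √2) := hvc.comp (continuous_add_const _)
  have hDc : Continuous D := (hvc'.sub hvc).sub hrc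
  have hDp : Function.Periodic D 1 := by
    intro x
    have h1 : x + 1 + √2 = (x + √2) + 1 := by ring
    simp only [hD]
    rw [h1, vF_per hy, vF_per hy, rF_per hp hy]
  have hconst : ∀ x ∈ Icc (0:ℝ) 1, D x = D 0 := by
    intro x hx
    have e1 : ∫ t in (0:ℝ)..x, (y (t + √2) - y t) = ∫ t in (0:ℝ)..x, r1F g y t := by
      apply intervalIntegral.integral_congr_ae
      rw [ae_restrict_iff' measurableSet_Ioc] at h
      filter_upwards [h] with t ht ht'
      rw [uIoc_of_le hx.1] at ht'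
      exact ht ⟨ht'.1, ht'.2.trans hx.2⟩
    have e2 : ∫ t in (0:ℝ)..x, r1F g y t = rF g y x - rF g y 0 :=
      intervalIntegral.integral_eq_sub_of_hasDerivAt (fun t _ => rF_deriv hg hy t)
        ((r1F_cont hg hy).intervalIntegrable _ _)
    have hi : IntervalIntegrable (fun t => y (t + √2)) volume 0 x := by
      have := (hy.int (0 + √2) (x + √2)).comp_add_right √2
      simpa using this
    have e3 : ∫ t in (0:ℝ)..x, (y (t + √2) - y t)
        = (vF y (x + √2) - vF y √2) - (vF y x - vF y 0) := by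
      rw [intervalIntegral.integral_sub hi (hy.int 0 x),
        intervalIntegral.integral_comp_add_right (f := y) √2, zero_add]
      have h3 : ∀ a b, ∫ t in a..b, y t = vF y b - vF y a := by
        intro a b
        rw [vF, vF]
        have := intervalIntegral.integral_add_adjacent_intervals (hy.int 0 a) (hy.int a b)
        linarith
      rw [h3, h3]
    rw [e3, e2] at e1
    simp only [hD, zero_add]
    linarith
  have hmean : ∫ x in (0:ℝ)..1, D x = 0 := by
    have hvp : Function.Periodic (vF y) 1 := vF_per hy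
    have h1 : ∫ x in (0:ℝ)..1, vF y (x + √2) = 0 := by
      rw [intervalIntegral.integral_comp_add_right (f := vF y) √2, zero_add, add_comm 1 √2,
        hvp.intervalIntegral_add_eq √2 0, zero_add, vF_mean hy]
    have h2 : ∫ x in (0:ℝ)..1, D x = (∫ x in (0:ℝ)..1, (vF y (x + √2) - vF y x)) -
        ∫ x in (0:ℝ)..1, rF g y x :=
      intervalIntegral.integral_sub ((hvc'.sub hvc).intervalIntegrable _ _)
        (hrc.intervalIntegrable _ _)
    have h3 : ∫ x in (0:ℝ)..1, (vF y (x + √2) - vF y x) = (∫ x in (0:ℝ)..1, vF y (x + √2)) -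
        ∫ x in (0:ℝ)..1, vF y x :=
      intervalIntegral.integral_sub (hvc'.intervalIntegrable _ _) (hvc.intervalIntegrable _ _)
    rw [h2, h3, h1, vF_mean hy, rF_int hg hg0 hy]
    ring
  have hD0 : D 0 = 0 := by
    have h1 : ∫ x in (0:ℝ)..1, D x = ∫ x in (0:ℝ)..1, D 0 := by
      apply intervalIntegral.integral_congr
      intro x hx
      rw [uIcc_of_le zero_le_one] at hx
      exact hconst x hx
    rw [hmean, intervalIntegral.integral_const] at h1
    simpa using h1.symm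
  have hDx : D x = 0 := by
    have h1 : D (Int.fract x) = D x := by
      have := hDp.sub_int_mul_eq (x := x) ⌊x⌋
      rw [mul_one] at this
      exact this
    rw [← h1, hconst _ ⟨Int.fract_nonneg x, (Int.fract_lt_one x).le⟩, hD0]
  simp only [hD] at hDx
  linarith

/-- ITEM A, with ITEM T as a hypothesis. -/
theorem exists_v_of (hT : ∃ T : Lp ℝ 2 (volume.restrict (Ioc (0:ℝ) 1)) →L[ℝ]
      Lp ℝ 2 (volume.restrict (Ioc (0:ℝ) 1)),
    ∀ ρ : Lp ℝ 2 (volume.restrict (Ioc (0:ℝ) 1)),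
      (∫ x in (0:ℝ)..1, T ρ x = 0) ∧
      ∀ᵐ x ∂(volume.restrict (Ioc (0:ℝ) 1)),
        T ρ (Int.fract (x + √2)) - T ρ x =
          (∫ t in (0:ℝ)..x, (ρ t - ∫ s in (0:ℝ)..1, ρ s)) -
            ∫ z in (0:ℝ)..1, ∫ t in (0:ℝ)..z, (ρ t - ∫ s in (0:ℝ)..1, ρ s)) :
    ∃ ε : ℝ, 0 < ε ∧ ∀ g : ℝ → ℝ, ContDiff ℝ ∞ g → (∀ x, g (x + 1) = g x) →
    (∫ x in (0:ℝ)..1, g x = 0) →
    (∀ x, |g x| ≤ ε ∧ |iteratedDeriv 1 g x| ≤ ε ∧ |iteratedDeriv 2 g x| ≤ ε ∧
      |iteratedDeriv 3 g x| ≤ ε) →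
    ∃ v y : ℝ → ℝ, Continuous v ∧ (∀ x, v (x + 1) = v x) ∧ (∫ x in (0:ℝ)..1, v x = 0) ∧
      (∀ x, y (x + 1) = y x) ∧ MemLp y 2 (volume.restrict (Ioc (0:ℝ) 1)) ∧
      (∀ x, v x = v 0 + ∫ t in (0:ℝ)..x, y t) ∧
      ∃ Dh h : ℝ → ℝ,
        (∀ x, Dh x = Real.exp (∫ t in (0:ℝ)..x, v t) /
          ∫ s in (0:ℝ)..1, Real.exp (∫ t in (0:ℝ)..s, v t)) ∧
        (∀ x, h x = ∫ t in (0:ℝ)..x, Dh t) ∧
        ∀ x, v (x + √2) - v x = g (h x) * Dh x := by
  obtain ⟨T, hT⟩ := hT
  obtain ⟨ε, hε, hfp⟩ := exists_fixed T fun ρ => (hT ρ).1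
  refine ⟨ε, hε, ?_⟩
  intro g hg hp hg0 hb
  have hsm : Sm ε g := by
    refine ⟨hg, hp, ?_⟩
    intro k hk x
    obtain ⟨b0, b1, b2, b3⟩ := hb x
    interval_cases k
    · rw [iteratedDeriv_zero]; exact b0
    · exact b1
    · exact b2
    · exact b3
  obtain ⟨f, hf1, hf0, hm, hfT⟩ := hfp g hsm
  have hadm := E2_adm hf1 hf0
  have hy := hadm.toPM
  refine ⟨vF (pe f), pe f, vF_cont hy, vF_per hy, vF_mean hy, pe_per f, ?_, vF_eq _,
    DF (pe f), hF (pe f), fun x => rfl, fun x => rfl, ?_⟩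
  · exact (memLp_congr_ae (pe_ae f)).2 (Lp.memLp f)
  · apply equation_of_ae hg hp hg0 hy
    set ρ : E2 := hm.toLp _ with hρ
    have hρae : ∀ᵐ x ∂(volume.restrict (Ioc (0:ℝ) 1)), ρ x = rhoF g (pe f) x := hm.coeFn_toLp
    rw [ae_restrict_iff' measurableSet_Ioc] at hρae
    have hprim : ∀ x ∈ Icc (0:ℝ) 1, ∫ t in (0:ℝ)..x, ρ t = r1F g (pe f) x - r1F g (pe f) 0 := by
      intro x hx
      have h1 : ∫ t in (0:ℝ)..x, ρ t = ∫ t in (0:ℝ)..x, rhoF g (pe f) t := by
        apply intervalIntegral.integral_congr_ae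
        filter_upwards [hρae] with t ht ht'
        rw [uIoc_of_le hx.1] at ht'
        exact ht ⟨ht'.1, ht'.2.trans hx.2⟩
      rw [h1, r1F_eq hg hy x]
      ring
    have hmean : ∫ s in (0:ℝ)..1, ρ s = 0 := by
      rw [hprim 1 (by norm_num)]
      have := r1F_per (g := g) hp hy 0
      rw [zero_add] at this
      rw [this, sub_self]
    have h2 := (hT ρ).2
    simp only [hmean, sub_zero] at h2
    have h3 : ∫ z in (0:ℝ)..1, ∫ t in (0:ℝ)..z, ρ t = -r1F g (pe f) 0 := by
      have h4 : ∫ z in (0:ℝ)..1, ∫ t in (0:ℝ)..z, ρ t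
          = ∫ z in (0:ℝ)..1, (r1F g (pe f) z - r1F g (pe f) 0) := by
        apply intervalIntegral.integral_congr
        intro z hz
        rw [uIcc_of_le zero_le_one] at hz
        exact hprim z hz
      have h5 : ∫ z in (0:ℝ)..1, r1F g (pe f) z = rF g (pe f) 1 - rF g (pe f) 0 :=
        intervalIntegral.integral_eq_sub_of_hasDerivAt (fun t _ => rF_deriv hg hy t)
          ((r1F_cont hg hy).intervalIntegrable _ _)
      have h6 := rF_per (g := g) hp hy 0
      rw [zero_add] at h6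
      rw [h4, intervalIntegral.integral_sub ((r1F_cont hg hy).intervalIntegrable _ _)
        intervalIntegrable_const, h5, h6, intervalIntegral.integral_const]
      simp
    rw [h3, ← hfT] at h2
    have h0 : ∀ᵐ x ∂(volume.restrict (Ioc (0:ℝ) 1)), x ∈ Ioc (0:ℝ) 1 :=
      ae_restrict_mem measurableSet_Ioc
    filter_upwards [h2, h0, pe_ae f] with x hx hx' hx''
    rw [hprim x ⟨hx'.1.le, hx'.2⟩] at hx
    rw [hx'']
    have h7 : pe f (x + √2) = f (Int.fract (x + √2)) := rfl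
    rw [h7, hx]
    ring

end final

end W4ec

end

section

/-!
# Diffeomorphisms supported in an interval
-/

open Set Filter Topology
open scoped ContDiff commutatorElement

namespace W4ec

/-- Elements of `Dg` which are the identity outside `[a, b]`. -/
def Su (a b : ℝ) : Subgroup (Equiv.Perm ℝ) where
  carrier := {e | e ∈ Dg ∧ ∀ x, x ∉ Icc a b → e x = x}
  mul_mem' := by
    rintro e f ⟨he, he'⟩ ⟨hf, hf'⟩
    refine ⟨Dg.mul_mem he hf, fun x hx => ?_⟩
    rw [Equiv.Perm.mul_apply, hf' x hx, he' x hx]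
  one_mem' := ⟨Dg.one_mem, fun x _ => rfl⟩
  inv_mem' := by
    rintro e ⟨he, he'⟩
    refine ⟨Dg.inv_mem he, fun x hx => ?_⟩
    rw [Equiv.Perm.inv_eq_iff_eq, he' x hx]

theorem mem_Su {a b : ℝ} {e : Equiv.Perm ℝ} :
    e ∈ Su a b ↔ e ∈ Dg ∧ ∀ x, x ∉ Icc a b → e x = x := Iff.rfl

theorem Su_le_Dg (a b : ℝ) : Su a b ≤ Dg := fun _ h => h.1

theorem Su_mono {a b c d : ℝ} (h1 : c ≤ a) (h2 : b ≤ d) : Su a b ≤ Su c d := by
  rintro e ⟨he, he'⟩
  refine ⟨he, fun x hx => he' x (fun h => hx ⟨h1.trans h.1, h.2.trans h2⟩)⟩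

theorem Su.fix_left {a b : ℝ} {e : Equiv.Perm ℝ} (he : e ∈ Su a b) {x : ℝ} (hx : x ≤ a) :
    e x = x := by
  rcases lt_or_eq_of_le hx with h | h
  · exact he.2 x (fun h' => by linarith [h'.1])
  · -- continuity at `a`
    subst h
    have hc := Dg.continuous he.1
    have h1 : Tendsto e (𝓝[<] x) (𝓝 (e x)) := (hc.tendsto x).mono_left nhdsWithin_le_nhds
    have h2 : Tendsto e (𝓝[<] x) (𝓝 x) := by
      have : Tendsto (fun y : ℝ => y) (𝓝[<] x) (𝓝 x) := nhdsWithin_le_nhds
      refine this.congr' ?_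
      filter_upwards [self_mem_nhdsWithin] with y hy
      exact (he.2 y (fun h' => by have := h'.1; have := mem_Iio.1 hy; linarith)).symm
    exact tendsto_nhds_unique h1 h2

theorem Su.fix_right {a b : ℝ} {e : Equiv.Perm ℝ} (he : e ∈ Su a b) {x : ℝ} (hx : b ≤ x) :
    e x = x := by
  rcases lt_or_eq_of_le hx with h | h
  · exact he.2 x (fun h' => by linarith [h'.2])
  · subst h
    have hc := Dg.continuous he.1
    have h1 : Tendsto e (𝓝[>] b) (𝓝 (e b)) := (hc.tendsto b).mono_left nhdsWithin_le_nhds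
    have h2 : Tendsto e (𝓝[>] b) (𝓝 b) := by
      have : Tendsto (fun y : ℝ => y) (𝓝[>] b) (𝓝 b) := nhdsWithin_le_nhds
      refine this.congr' ?_
      filter_upwards [self_mem_nhdsWithin] with y hy
      exact (he.2 y (fun h' => by have := h'.2; have := mem_Ioi.1 hy; linarith)).symm
    exact tendsto_nhds_unique h1 h2

/-- Disjointly supported diffeomorphisms commute. -/
theorem Su.commute {a b c d : ℝ} (hbc : b ≤ c) {e f : Equiv.Perm ℝ} (he : e ∈ Su a b)
    (hf : f ∈ Su c d) : Commute e f := by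
  ext x
  simp only [Equiv.Perm.mul_apply]
  have me := Dg.strictMono he.1
  have mf := Dg.strictMono hf.1
  rcases le_total x b with hx | hx
  · -- `x ≤ b ≤ c`: `f x = x`, and `e x ≤ e b = b ≤ c`
    have h1 : f x = x := Su.fix_left hf (hx.trans hbc)
    have h2 : e x ≤ b := by
      calc e x ≤ e b := me.monotone hx
        _ = b := Su.fix_right he le_rfl
    rw [h1, Su.fix_left hf (h2.trans hbc)]
  · have h1 : e x = x := Su.fix_right he hx
    rw [h1]
    have h2 : b ≤ f x := by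
      rcases le_total x c with hxc | hxc
      · rw [Su.fix_left hf hxc]; exact hx
      · calc b ≤ c := hbc
          _ = f c := (Su.fix_left hf le_rfl).symm
          _ ≤ f x := mf.monotone hxc
    rw [Su.fix_right he h2]

/-- Conjugation moves supports. -/
theorem Su.conj {a b : ℝ} {e g : Equiv.Perm ℝ} (he : e ∈ Su a b) (hg : g ∈ Dg) :
    g * e * g⁻¹ ∈ Su (g a) (g b) := by
  refine ⟨Dg.mul_mem (Dg.mul_mem hg he.1) (Dg.inv_mem hg), fun x hx => ?_⟩
  simp only [Equiv.Perm.mul_apply]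
  have mg := Dg.strictMono hg
  have : g⁻¹ x ∉ Icc a b := by
    intro h
    apply hx
    have h1 := mg.monotone h.1
    have h2 := mg.monotone h.2
    rw [papply_inv] at h1 h2
    exact ⟨h1, h2⟩
  rw [he.2 _ this, papply_inv]

/-- An affine element of `Dg` through two points. -/
theorem pts2 {x₁ x₂ y₁ y₂ : ℝ} (hx : x₁ < x₂) (hy : y₁ < y₂) :
    ∃ u ∈ Dg, u x₁ = y₁ ∧ u x₂ = y₂ := by
  set k := (y₂ - y₁) / (x₂ - x₁) with hk
  have hkp : 0 < k := div_pos (by linarith) (by linarith)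
  have h1 : SI (fun x => k * x + (y₁ - k * x₁)) := SI.affine hkp
  obtain ⟨u, hu, hu'⟩ := h1.exists_Dg (by
    intro y
    refine ⟨(y - (y₁ - k * x₁)) / k, ?_⟩
    field_simp
    ring)
  refine ⟨u, hu, ?_, ?_⟩
  · rw [hu']; ring
  · rw [hu']
    have : k * (x₂ - x₁) = y₂ - y₁ := by rw [hk]; field_simp [sub_ne_zero.2 hx.ne']
    linear_combination this

theorem pts4 {x₁ x₂ x₃ x₄ y₁ y₂ y₃ y₄ : ℝ} (h12 : x₁ < x₂) (h23 : x₂ < x₃) (h34 : x₃ < x₄)
    (k12 : y₁ < y₂) (k23 : y₂ < y₃) (k34 : y₃ < y₄) :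
    ∃ u ∈ Dg, u x₁ = y₁ ∧ u x₂ = y₂ ∧ u x₃ = y₃ ∧ u x₄ = y₄ := by
  obtain ⟨u, hu, a1, a2⟩ := pts2 h12 k12
  obtain ⟨v, hv, b1, b2⟩ := pts2 h34 k34
  obtain ⟨w, hw, c1, c2⟩ := interpD hu hv h23 (by rw [a2, b1]; exact k23)
  exact ⟨w, hw, by rw [c1 _ h12.le, a1], by rw [c1 _ le_rfl, a2], by rw [c2 _ le_rfl, b1],
    by rw [c2 _ h34.le, b2]⟩

/-- Displacement: an element supported in `[A, B]` sending `a` to `b`. -/
theorem exists_displace {A a b B : ℝ} (h1 : A < a) (h2 : a < b) (h3 : b < B) :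
    ∃ g ∈ Su A B, g a = b := by
  obtain ⟨w, hw, c1, c2⟩ := interpD Dg.one_mem (tr_mem (b - a)) h1 (by
    show A < a + (b - a); linarith)
  have hwa : w a = b := by
    rw [c2 a le_rfl]; show a + (b - a) = b; ring
  obtain ⟨g, hg, d1, d2⟩ := interpD hw Dg.one_mem (h2.trans h3) (by
    rw [hwa]; exact h3)
  refine ⟨g, ⟨hg, ?_⟩, by rw [d1 a le_rfl, hwa]⟩
  intro x hx
  by_cases hxA : x < A
  · rw [d1 x (by linarith), c1 x hxA.le]; rfl
  · have : B < x := by
      by_contra h
      exact hx ⟨not_lt.1 hxA, not_lt.1 h⟩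
    rw [d2 x this.le]; rfl

theorem Su.displace_commute {A a b B : ℝ} {g : Equiv.Perm ℝ} (hab : a ≤ b) (hg : g ∈ Su A B)
    (hgab : g a = b) :
    ∀ i : ℕ, ∀ x ∈ Su a b, ∀ y ∈ Su a b, Commute (g ^ (i + 1) * x * (g ^ (i + 1))⁻¹) y := by
  intro i x hx y hy
  have hgD : g ^ (i + 1) ∈ Dg := Dg.pow_mem hg.1 _
  have h1 := Su.conj hx hgD
  have h2 : b ≤ (g ^ (i + 1)) a := by
    have mg := Dg.strictMono hg.1
    clear h1 hgD
    induction i with
    | zero => simp [hgab]
    | succ i ih =>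
      rw [pow_succ', Equiv.Perm.mul_apply]
      calc b = g a := hgab.symm
        _ ≤ g b := mg.monotone hab
        _ ≤ g ((g ^ (i + 1)) a) := mg.monotone ih
  exact (Su.commute h2 hy h1).symm

end W4ec

end

section

/-!
# Items A and B, with the solution operator plugged in
-/

open Set Filter Topology MeasureTheory
open scoped ContDiff

namespace W4ec

theorem exists_v : ∃ ε : ℝ, 0 < ε ∧ ∀ g : ℝ → ℝ, ContDiff ℝ ∞ g → (∀ x, g (x + 1) = g x) →
    (∫ x in (0:ℝ)..1, g x = 0) →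
    (∀ x, |g x| ≤ ε ∧ |iteratedDeriv 1 g x| ≤ ε ∧ |iteratedDeriv 2 g x| ≤ ε ∧
      |iteratedDeriv 3 g x| ≤ ε) →
    ∃ v y : ℝ → ℝ, Continuous v ∧ (∀ x, v (x + 1) = v x) ∧ (∫ x in (0:ℝ)..1, v x = 0) ∧
      (∀ x, y (x + 1) = y x) ∧ MemLp y 2 (volume.restrict (Ioc (0:ℝ) 1)) ∧
      (∀ x, v x = v 0 + ∫ t in (0:ℝ)..x, y t) ∧
      ∃ Dh h : ℝ → ℝ,
        (∀ x, Dh x = Real.exp (∫ t in (0:ℝ)..x, v t) /
          ∫ s in (0:ℝ)..1, Real.exp (∫ t in (0:ℝ)..s, v t)) ∧
        (∀ x, h x = ∫ t in (0:ℝ)..x, Dh t) ∧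
        ∀ x, v (x + √2) - v x = g (h x) * Dh x :=
  exists_v_of exists_T

theorem v_smooth (g : ℝ → ℝ) (hg : ContDiff ℝ ∞ g) (hgp : ∀ x, g (x + 1) = g x)
    (v y : ℝ → ℝ) (hv : Continuous v) (hvp : ∀ x, v (x + 1) = v x)
    (hv0 : ∫ x in (0:ℝ)..1, v x = 0)
    (hyp : ∀ x, y (x + 1) = y x) (hy : MemLp y 2 (volume.restrict (Ioc (0:ℝ) 1)))
    (hvy : ∀ x, v x = v 0 + ∫ t in (0:ℝ)..x, y t)
    (Dh h : ℝ → ℝ)
    (hDh : ∀ x, Dh x = Real.exp (∫ t in (0:ℝ)..x, v t) /
          ∫ s in (0:ℝ)..1, Real.exp (∫ t in (0:ℝ)..s, v t))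
    (hh : ∀ x, h x = ∫ t in (0:ℝ)..x, Dh t)
    (heq : ∀ x, v (x + √2) - v x = g (h x) * Dh x) :
    ContDiff ℝ ∞ v :=
  v_smooth_of_T exists_T g hg hgp v y hv hvp hv0 hyp hy hvy Dh h hDh hh heq

end W4ec

end
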