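import Mathlib
import Pool.Agent.Work.MP_4ec80c_gt.Bd.B02
import Pool.Agent.Work.MP_4ec80c_gt.Bd.B01
import Pool.Agent.Work.MP_4ec80c_gt.Bd.B03

/-! Bundle of small proof modules (one section per former module). -/

section

/-!
# The final group-theoretic step
-/

open scoped commutatorElement

namespace W4ec

variable {G : Type*} [Group G]

theorem Pp_inv {B : G} {S : Subgroup G} {n : ℕ}
    (hc : ∀ m, 1 ≤ m → m ≤ n → ∀ a ∈ S, ∀ b ∈ S, Commute (B ^ m * a * (B ^ m)⁻¹) b)
    {s : ℕ → G} (hs : ∀ j ≤ n, s j ∈ S) :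
    ∀ k, k ≤ n → (Pp B s k)⁻¹ = Pp B (fun j => (s j)⁻¹) k
  | 0, _ => rfl
  | k + 1, hk => by
    have ih := Pp_inv hc hs k (by omega)
    have hcm : Commute (B ^ (k + 1) * s (k + 1) * (B ^ (k + 1))⁻¹) (Pp B s k) :=
      commute_Pp hc hs hk (hs _ hk) k (by omega)
    have h2 := hcm.inv_inv
    rw [Pp, Pp, mul_inv_rev, h2.eq, ih]
    congr 1
    group

theorem final_group {K S : Subgroup G} (hSK : S ≤ K) {F B H0 G0 Ψ : G}
    (hB : B ∈ K) (hH0 : H0 ∈ K) (hG0 : G0 ∈ K)
    (hconj : G0 * H0 * G0⁻¹ = B) (hFH : F * H0 = B * Ψ) (hΨS : Ψ ∈ S)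
    (hcomm : ∀ m, 1 ≤ m → m ≤ 13 → ∀ a ∈ S, ∀ b ∈ S, Commute (B ^ m * a * (B ^ m)⁻¹) b)
    (h7 : ∀ i, 1 ≤ i → i ≤ 6 → ∀ a ∈ S,
      Commute ((B ^ 7)⁻¹ * H0⁻¹) (B ^ i * a * (B ^ i)⁻¹))
    {x₁ y₁ x₂ y₂ : G} (hx₁ : x₁ ∈ S) (hy₁ : y₁ ∈ S) (hx₂ : x₂ ∈ S) (hy₂ : y₂ ∈ S)
    (hΨ : Ψ⁻¹ = ⁅y₂, x₂⁆ * ⁅y₁, x₁⁆) :
    ∃ C ∈ K, ∃ H ∈ K, F = ⁅C, H⁆ := by
  -- the pieces
  set a₂ : G := (y₁ * x₁)⁻¹ with ha₂
  set a₅ : G := (y₂ * x₂)⁻¹ with ha₅
  have ha₂S : a₂ ∈ S := S.inv_mem (S.mul_mem hy₁ hx₁)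
  have ha₅S : a₅ ∈ S := S.inv_mem (S.mul_mem hy₂ hx₂)
  -- the sequence
  set s : ℕ → G := fun j => match j with
    | 0 => Ψ
    | 1 => x₁⁻¹
    | 2 => y₁⁻¹
    | 3 => a₂⁻¹
    | 4 => x₂⁻¹
    | 5 => y₂⁻¹
    | 6 => a₅⁻¹
    | 8 => x₁
    | 9 => y₁
    | 10 => a₂
    | 11 => x₂
    | 12 => y₂
    | 13 => a₅
    | _ => 1 with hs
  have hsS : ∀ j ≤ 13, s j ∈ S := by
    intro j hj
    interval_cases j
    · exact hΨS
    · exact S.inv_mem hx₁
    · exact S.inv_mem hy₁
    · exact S.inv_mem ha₂S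
    · exact S.inv_mem hx₂
    · exact S.inv_mem hy₂
    · exact S.inv_mem ha₅S
    · exact S.one_mem
    · exact hx₁
    · exact hy₁
    · exact ha₂S
    · exact hx₂
    · exact hy₂
    · exact ha₅S
  obtain ⟨C, hC, hCeq⟩ := collect hB hSK 13 hcomm s hsS
  -- `Rp s 13 = 1`
  have hR : Rp s 13 = 1 := by
    have h1 : Rp s 13 = a₅ * (y₂ * (x₂ * (a₂ * (y₁ * (x₁ * (1 * (a₅⁻¹ * (y₂⁻¹ * (x₂⁻¹ *
        (a₂⁻¹ * (y₁⁻¹ * (x₁⁻¹ * Ψ)))))))))))) := rfl
    have h2 : Ψ = (⁅y₂, x₂⁆ * ⁅y₁, x₁⁆)⁻¹ := by rw [← hΨ, inv_inv]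
    rw [h1, h2, ha₂, ha₅, commutatorElement_def, commutatorElement_def]
    group
  -- the sequence for `A`
  set t : ℕ → G := fun j => match j with
    | 1 => x₁
    | 2 => y₁
    | 3 => a₂
    | 4 => x₂
    | 5 => y₂
    | 6 => a₅
    | _ => 1 with ht
  have htS : ∀ j ≤ 13, t j ∈ S := by
    intro j hj
    interval_cases j
    · exact S.one_mem
    · exact hx₁
    · exact hy₁
    · exact ha₂S
    · exact hx₂
    · exact hy₂
    · exact ha₅S
    all_goals exact S.one_mem
  set A : G := Pp B t 6 with hA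
  have hAinv : A⁻¹ = Pp B (fun j => (t j)⁻¹) 6 := Pp_inv hcomm htS 6 (by norm_num)
  have hAe : A = 1 * (B ^ 1 * x₁ * (B ^ 1)⁻¹) * (B ^ 2 * y₁ * (B ^ 2)⁻¹) *
      (B ^ 3 * a₂ * (B ^ 3)⁻¹) * (B ^ 4 * x₂ * (B ^ 4)⁻¹) * (B ^ 5 * y₂ * (B ^ 5)⁻¹) *
      (B ^ 6 * a₅ * (B ^ 6)⁻¹) := rfl
  have hAinve : A⁻¹ = 1⁻¹ * (B ^ 1 * x₁⁻¹ * (B ^ 1)⁻¹) * (B ^ 2 * y₁⁻¹ * (B ^ 2)⁻¹) *
      (B ^ 3 * a₂⁻¹ * (B ^ 3)⁻¹) * (B ^ 4 * x₂⁻¹ * (B ^ 4)⁻¹) * (B ^ 5 * y₂⁻¹ * (B ^ 5)⁻¹) *
      (B ^ 6 * a₅⁻¹ * (B ^ 6)⁻¹) := hAinv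
  -- conjugation by `H0⁻¹`
  have hθ : Commute ((B ^ 7)⁻¹ * H0⁻¹) A := by
    rw [hAe]
    refine Commute.mul_right (Commute.mul_right (Commute.mul_right (Commute.mul_right
      (Commute.mul_right (Commute.mul_right (Commute.one_right _) ?_) ?_) ?_) ?_) ?_) ?_
    · exact h7 1 (by norm_num) (by norm_num) _ hx₁
    · exact h7 2 (by norm_num) (by norm_num) _ hy₁
    · exact h7 3 (by norm_num) (by norm_num) _ ha₂S
    · exact h7 4 (by norm_num) (by norm_num) _ hx₂
    · exact h7 5 (by norm_num) (by norm_num) _ hy₂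
    · exact h7 6 (by norm_num) (by norm_num) _ ha₅S
  have hHA : H0⁻¹ * A * H0 = B ^ 7 * A * (B ^ 7)⁻¹ := by
    have h1 := hθ.eq
    have h2 : H0⁻¹ * A = B ^ 7 * (A * ((B ^ 7)⁻¹ * H0⁻¹)) := by
      rw [← h1]; group
    rw [h2]; group
  have hA'e : B ^ 7 * A * (B ^ 7)⁻¹ = (B ^ 8 * x₁ * (B ^ 8)⁻¹) * (B ^ 9 * y₁ * (B ^ 9)⁻¹) *
      (B ^ 10 * a₂ * (B ^ 10)⁻¹) * (B ^ 11 * x₂ * (B ^ 11)⁻¹) * (B ^ 12 * y₂ * (B ^ 12)⁻¹) *
      (B ^ 13 * a₅ * (B ^ 13)⁻¹) := by
    rw [hAe]; group
  have hA'A : Commute (B ^ 7 * A * (B ^ 7)⁻¹) A⁻¹ := by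
    have htS' : ∀ j ≤ 13, (fun j => (t j)⁻¹) j ∈ S := fun j hj => S.inv_mem (htS j hj)
    have hcp : ∀ m, 6 < m → m ≤ 13 → ∀ a ∈ S, Commute (B ^ m * a * (B ^ m)⁻¹) A⁻¹ := by
      intro m hm1 hm2 a ha
      rw [hAinv]
      exact commute_Pp hcomm htS' hm2 ha 6 hm1
    rw [hA'e]
    refine Commute.mul_left (Commute.mul_left (Commute.mul_left (Commute.mul_left
      (Commute.mul_left ?_ ?_) ?_) ?_) ?_) ?_
    · exact hcp 8 (by norm_num) (by norm_num) _ hx₁
    · exact hcp 9 (by norm_num) (by norm_num) _ hy₁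
    · exact hcp 10 (by norm_num) (by norm_num) _ ha₂S
    · exact hcp 11 (by norm_num) (by norm_num) _ hx₂
    · exact hcp 12 (by norm_num) (by norm_num) _ hy₂
    · exact hcp 13 (by norm_num) (by norm_num) _ ha₅S
  have hPp : Pp B s 13 = Ψ * (A⁻¹ * (B ^ 7 * A * (B ^ 7)⁻¹)) := by
    have h1 : Pp B s 13 = Ψ * (B ^ 1 * x₁⁻¹ * (B ^ 1)⁻¹) * (B ^ 2 * y₁⁻¹ * (B ^ 2)⁻¹) *
      (B ^ 3 * a₂⁻¹ * (B ^ 3)⁻¹) * (B ^ 4 * x₂⁻¹ * (B ^ 4)⁻¹) * (B ^ 5 * y₂⁻¹ * (B ^ 5)⁻¹) *
      (B ^ 6 * a₅⁻¹ * (B ^ 6)⁻¹) * (B ^ 7 * 1 * (B ^ 7)⁻¹) *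
      (B ^ 8 * x₁ * (B ^ 8)⁻¹) * (B ^ 9 * y₁ * (B ^ 9)⁻¹) *
      (B ^ 10 * a₂ * (B ^ 10)⁻¹) * (B ^ 11 * x₂ * (B ^ 11)⁻¹) * (B ^ 12 * y₂ * (B ^ 12)⁻¹) *
      (B ^ 13 * a₅ * (B ^ 13)⁻¹) := rfl
    rw [h1, hAinve, hA'e]
    simp only [mul_one, mul_inv_cancel, inv_one, one_mul, mul_assoc]
  -- the new `H`
  set H : G := A * H0 * A⁻¹ with hH
  have hAK : A ∈ K := by
    rw [hAe]
    have hcK : ∀ i : ℕ, ∀ a ∈ S, B ^ i * a * (B ^ i)⁻¹ ∈ K := fun i a ha =>
      K.mul_mem (K.mul_mem (K.pow_mem hB i) (hSK ha)) (K.inv_mem (K.pow_mem hB i))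
    exact K.mul_mem (K.mul_mem (K.mul_mem (K.mul_mem (K.mul_mem (K.mul_mem K.one_mem
      (hcK _ _ hx₁)) (hcK _ _ hy₁)) (hcK _ _ ha₂S)) (hcK _ _ hx₂)) (hcK _ _ hy₂))
      (hcK _ _ ha₅S)
  have hHK : H ∈ K := K.mul_mem (K.mul_mem hAK hH0) (K.inv_mem hAK)
  have hFHeq : F * H = B * Pp B s 13 := by
    rw [hPp, ← hA'A.eq, ← hHA, hH]
    calc F * (A * H0 * A⁻¹) = (F * H0) * (H0⁻¹ * A * H0) * A⁻¹ := by group
      _ = B * (Ψ * (H0⁻¹ * A * H0 * A⁻¹)) := by rw [hFH]; group
  -- conclusion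
  have h1 : C * (F * H) * C⁻¹ = B := by
    rw [hFHeq, hCeq, hR, mul_one]
  set C' : G := C⁻¹ * G0 * A⁻¹ with hC'
  have hC'K : C' ∈ K := K.mul_mem (K.mul_mem (K.inv_mem hC) hG0) (K.inv_mem hAK)
  refine ⟨C', hC'K, H, hHK, ?_⟩
  have h2 : F * H = C' * H * C'⁻¹ := by
    have h3 : F * H = C⁻¹ * (C * (F * H) * C⁻¹) * C := by group
    rw [h3, h1, ← hconj, hC', hH]
    group
  rw [commutatorElement_def, ← h2]
  group

end W4ec

end

section

/-!
# Fragmentation of a compactly supported diffeomorphism into small pieces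
-/

open Set Filter Topology MeasureTheory
open scoped ContDiff Manifold

namespace W4ec

namespace ItemD

/-- The derivative of the path `x + s (γ x - x)`. -/
noncomputable def dd (g : ℝ → ℝ) (s x : ℝ) : ℝ := 1 + s * g x

/-- The iterated logarithmic derivatives, as functions of the parameters. -/
noncomputable def Fk (g : ℝ → ℝ) : ℕ → ℝ × ℝ × ℝ → ℝ
  | 0 => fun p => Real.log (dd g p.2.1 p.2.2) - Real.log (dd g p.1 p.2.2)
  | (k + 1) => fun p => fderiv ℝ (Fk g k) p (0, 0, 1) / dd g p.1 p.2.2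

/-- The domain of the parameters. -/
def U (g : ℝ → ℝ) : Set (ℝ × ℝ × ℝ) := {p | 0 < dd g p.1 p.2.2 ∧ 0 < dd g p.2.1 p.2.2}

variable {g : ℝ → ℝ}

lemma dd_contDiff (hg : ContDiff ℝ ∞ g) : ContDiff ℝ ∞ (fun p : ℝ × ℝ × ℝ => dd g p.1 p.2.2) := by
  unfold dd
  exact contDiff_const.add (contDiff_fst.mul (hg.comp (contDiff_snd.comp contDiff_snd)))

lemma dd_contDiff' (hg : ContDiff ℝ ∞ g) :
    ContDiff ℝ ∞ (fun p : ℝ × ℝ × ℝ => dd g p.2.1 p.2.2) := by
  unfold dd
  exact contDiff_const.add ((contDiff_fst.comp contDiff_snd).mul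
    (hg.comp (contDiff_snd.comp contDiff_snd)))

lemma isOpen_U (hg : ContDiff ℝ ∞ g) : IsOpen (U g) := by
  apply IsOpen.inter
  · exact isOpen_lt continuous_const (dd_contDiff hg).continuous
  · exact isOpen_lt continuous_const (dd_contDiff' hg).continuous

lemma Fk_contDiffOn (hg : ContDiff ℝ ∞ g) (k : ℕ) : ContDiffOn ℝ ∞ (Fk g k) (U g) := by
  induction k with
  | zero =>
    refine ContDiffOn.sub ?_ ?_
    · exact (dd_contDiff' hg).contDiffOn.log (fun p hp => hp.2.ne')
    · exact (dd_contDiff hg).contDiffOn.log (fun p hp => hp.1.ne')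
  | succ k ih =>
    have h1 : ContDiffOn ℝ ∞ (fderiv ℝ (Fk g k)) (U g) :=
      ih.fderiv_of_isOpen (isOpen_U hg) (by simp)
    have h2 : ContDiffOn ℝ ∞ (fun p => fderiv ℝ (Fk g k) p ((0, 0, 1) : ℝ × ℝ × ℝ)) (U g) :=
      h1.clm_apply contDiffOn_const
    exact h2.div (dd_contDiff hg).contDiffOn (fun p hp => hp.1.ne')

lemma Fk_hasDerivAt (hg : ContDiff ℝ ∞ g) (k : ℕ) {s s' x : ℝ} (h : (s, s', x) ∈ U g) :
    HasDerivAt (fun z => Fk g k (s, s', z)) (dd g s x * Fk g (k + 1) (s, s', x)) x := by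
  have h1 : DifferentiableAt ℝ (Fk g k) (s, s', x) :=
    ((Fk_contDiffOn hg k).contDiffAt ((isOpen_U hg).mem_nhds h)).differentiableAt (by simp)
  have h2 : HasDerivAt (fun z : ℝ => ((s, s', z) : ℝ × ℝ × ℝ)) (0, 0, 1) x :=
    (hasDerivAt_const x s).prodMk ((hasDerivAt_const x s').prodMk (hasDerivAt_id x))
  have h3 := h1.hasFDerivAt.comp_hasDerivAt x h2
  refine h3.congr_deriv ?_
  have h4 : dd g s x ≠ 0 := h.1.ne'
  change _ = dd g s x * (fderiv ℝ (Fk g k) (s, s', x) (0, 0, 1) / dd g s x)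
  field_simp

lemma Fk_eq_zero (hg : ContDiff ℝ ∞ g) (k : ℕ) {s s' : ℝ} {V : Set ℝ} (hV : IsOpen V)
    (hU : ∀ x ∈ V, (s, s', x) ∈ U g) (h0 : ∀ x ∈ V, Fk g 0 (s, s', x) = 0) :
    ∀ x ∈ V, Fk g k (s, s', x) = 0 := by
  induction k with
  | zero => exact h0
  | succ k ih =>
    intro x hx
    have h1 := Fk_hasDerivAt hg k (hU x hx)
    have h2 : HasDerivAt (fun z => Fk g k (s, s', z)) 0 x := by
      refine (hasDerivAt_const x (0 : ℝ)).congr_of_eventuallyEq ?_
      filter_upwards [hV.mem_nhds hx] with z hz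
      exact ih z hz
    have h3 := h1.unique h2
    exact (mul_eq_zero.1 h3).resolve_left (hU x hx).1.ne'

end ItemD

open ItemD in
theorem frag {γ : Equiv.Perm ℝ} (hγ : γ ∈ Dg) {a b : ℝ}
    (hsupp : ∀ x ∉ Icc a b, γ x = x) {ε : ℝ} (hε : 0 < ε) :
    ∃ l : List (Equiv.Perm ℝ), l.prod = γ ∧ ∀ δ ∈ l, δ ∈ Dg ∧ (∀ x ∉ Icc a b, δ x = x) ∧
      ∀ k : ℕ, 1 ≤ k → k ≤ 4 → ∀ x, |iteratedDeriv k (fun z => Real.log (deriv δ z)) x| ≤ ε := by
  have hSI := Dg.si hγ
  set g : ℝ → ℝ := fun x => deriv γ x - 1 with hg_def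
  have hg : ContDiff ℝ ∞ g := by
    have h1 : ContDiff ℝ ∞ (deriv γ) := by
      have := hSI.smooth
      rw [contDiff_infty_iff_deriv] at this
      exact this.2
    exact h1.sub contDiff_const
  have hdd : ∀ s ∈ Icc (0 : ℝ) 1, ∀ x, 0 < dd g s x := by
    intro s hs x
    have := hSI.pos x
    have : dd g s x = (1 - s) + s * deriv γ x := by
      simp only [dd, hg_def]; ring
    rw [this]
    rcases eq_or_lt_of_le hs.1 with h | h
    · rw [← h]; norm_num
    · have h2 := mul_pos h (hSI.pos x)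
      have := hs.2
      linarith
  -- the path
  have hpath : ∀ s, ∃ e ∈ Dg, s ∈ Icc (0 : ℝ) 1 → ∀ x, e x = x + s * (γ x - x) := by
    intro s
    by_cases hs : s ∈ Icc (0 : ℝ) 1
    · have hd : ∀ x, HasDerivAt (fun x => x + s * (γ x - x)) (dd g s x) x := by
        intro x
        have h1 := (hasDerivAt_id x).add (((hSI.hasDerivAt x).sub (hasDerivAt_id x)).const_mul s)
        exact h1
      have hw : SI (fun x => x + s * (γ x - x)) := by
        refine ⟨?_, fun x => ?_⟩
        · exact contDiff_id.add (contDiff_const.mul (hSI.smooth.sub contDiff_id))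
        · rw [(hd x).deriv]
          exact hdd s hs x
      obtain ⟨e, he, hew⟩ := hw.exists_Dg_of_ends (u := 1) (v := 1) (a := a - 1) (b := b + 1)
        Dg.one_mem Dg.one_mem
        (fun x hx => by
          rw [hsupp x (fun h => by linarith [h.1])]; simp)
        (fun x hx => by
          rw [hsupp x (fun h => by linarith [h.2])]; simp)
      exact ⟨e, he, fun _ => hew⟩
    · exact ⟨1, Dg.one_mem, fun h => absurd h hs⟩
  choose G hGD hG using hpath
  have hGd : ∀ s ∈ Icc (0 : ℝ) 1, ∀ x, HasDerivAt (G s) (dd g s x) x := by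
    intro s hs x
    have h1 := (hasDerivAt_id x).add (((hSI.hasDerivAt x).sub (hasDerivAt_id x)).const_mul s)
    refine h1.congr_of_eventuallyEq (Eventually.of_forall fun z => ?_)
    exact hG s hs z
  have hGinv : ∀ s ∈ Icc (0 : ℝ) 1, ∀ y,
      HasDerivAt ((G s)⁻¹ : Equiv.Perm ℝ) (dd g s ((G s)⁻¹ y))⁻¹ y := by
    intro s hs y
    have hc : ContinuousAt ((G s)⁻¹ : Equiv.Perm ℝ) y :=
      (Dg.continuous (Dg.inv_mem (hGD s))).continuousAt
    exact (hGd s hs ((G s)⁻¹ y)).of_local_left_inverse hc (hdd s hs _).ne'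
      (Eventually.of_forall fun z => papply_inv _ z)
  have hUmem : ∀ s ∈ Icc (0 : ℝ) 1, ∀ s' ∈ Icc (0 : ℝ) 1, ∀ x, (s, s', x) ∈ U g :=
    fun s hs s' hs' x => ⟨hdd s hs x, hdd s' hs' x⟩
  -- the iterated derivatives
  have hiter : ∀ s ∈ Icc (0 : ℝ) 1, ∀ s' ∈ Icc (0 : ℝ) 1, ∀ k,
      iteratedDeriv k (fun z => Real.log (deriv (G s' * (G s)⁻¹ : Equiv.Perm ℝ) z)) =
        fun y => Fk g k (s, s', (G s)⁻¹ y) := by
    intro s hs s' hs' k
    induction k with
    | zero =>
      rw [iteratedDeriv_zero]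
      funext y
      have h1 : HasDerivAt (G s' * (G s)⁻¹ : Equiv.Perm ℝ)
          (dd g s' ((G s)⁻¹ y) * (dd g s ((G s)⁻¹ y))⁻¹) y :=
        (hGd s' hs' _).comp y (hGinv s hs y)
      rw [h1.deriv, Real.log_mul (hdd s' hs' _).ne' (inv_ne_zero (hdd s hs _).ne'), Real.log_inv]
      rfl
    | succ k ih =>
      rw [iteratedDeriv_succ, ih]
      funext y
      have h1 := (Fk_hasDerivAt hg k (hUmem s hs s' hs' ((G s)⁻¹ y))).comp y (hGinv s hs y)
      have h2 : deriv (fun y => Fk g k (s, s', (G s)⁻¹ y)) y = _ := h1.deriv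
      rw [h2]
      have := (hdd s hs ((G s)⁻¹ y)).ne'
      field_simp
  -- uniform smallness
  have hsmall : ∀ k, ∃ η > 0, ∀ s ∈ Icc (0 : ℝ) 1, ∀ s' ∈ Icc (0 : ℝ) 1, |s' - s| < η →
      ∀ x, |Fk g k (s, s', x)| ≤ ε := by
    intro k
    have hK : IsCompact ((Icc (0 : ℝ) 1) ×ˢ ((Icc (0 : ℝ) 1) ×ˢ (Icc a b))) :=
      isCompact_Icc.prod (isCompact_Icc.prod isCompact_Icc)
    have hc : ContinuousOn (Fk g k) ((Icc (0 : ℝ) 1) ×ˢ ((Icc (0 : ℝ) 1) ×ˢ (Icc a b))) :=
      (Fk_contDiffOn hg k).continuousOn.mono (fun p hp => hUmem p.1 hp.1 p.2.1 hp.2.1 p.2.2)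
    have hu := hK.uniformContinuousOn_of_continuous hc
    rw [Metric.uniformContinuousOn_iff] at hu
    obtain ⟨η, hη, h⟩ := hu ε hε
    refine ⟨η, hη, fun s hs s' hs' hss x => ?_⟩
    by_cases hx : x ∈ Icc a b
    · have h1 := h (s, s', x) ⟨hs, hs', hx⟩ (s, s, x) ⟨hs, hs, hx⟩ (by
        rw [Prod.dist_eq, Prod.dist_eq]
        simp only [dist_self, Real.dist_eq]
        rw [max_eq_right (by positivity), max_eq_left (by positivity)]
        exact hss)
      have h2 : Fk g k (s, s, x) = 0 :=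
        Fk_eq_zero hg k isOpen_univ (fun x _ => hUmem s hs s hs x)
          (fun x _ => by simp [Fk]) x (mem_univ x)
      rw [h2, Real.dist_eq, sub_zero] at h1
      exact h1.le
    · have hg0 : ∀ x ∈ (Icc a b)ᶜ, g x = 0 := by
        intro x hx
        have h3 : (γ : ℝ → ℝ) =ᶠ[𝓝 x] fun z => z := by
          filter_upwards [isClosed_Icc.isOpen_compl.mem_nhds hx] with z hz
          exact hsupp z hz
        simp only [hg_def]
        rw [h3.deriv_eq]
        simp
      have h2 : Fk g k (s, s', x) = 0 :=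
        Fk_eq_zero hg k isClosed_Icc.isOpen_compl (fun x _ => hUmem s hs s' hs' x)
          (fun x hx => by simp [Fk, dd, hg0 x hx]) x hx
      rw [h2, abs_zero]
      exact hε.le
  choose η hη hηs using hsmall
  -- choose the number of pieces
  set η₀ := min (η 1) (min (η 2) (min (η 3) (η 4))) with hη₀
  have hη₀pos : 0 < η₀ := lt_min (hη 1) (lt_min (hη 2) (lt_min (hη 3) (hη 4)))
  obtain ⟨m, hm⟩ := exists_nat_one_div_lt hη₀pos
  set N : ℝ := (m : ℝ) + 1 with hN
  have hNpos : 0 < N := by positivity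
  let t : ℕ → ℝ := fun i => (i : ℝ) / N
  let δ : ℕ → Equiv.Perm ℝ := fun i => G (t (i + 1)) * (G (t i))⁻¹
  have hprod : ∀ n, (((List.range n).map δ).reverse).prod = G (t n) * (G (t 0))⁻¹ := by
    intro n
    induction n with
    | zero => simp
    | succ n ih =>
      rw [List.range_succ, List.map_append, List.reverse_append, List.prod_append, ih]
      simp [δ, mul_assoc]
  have ht : ∀ i ≤ m + 1, t i ∈ Icc (0 : ℝ) 1 := by
    intro i hi
    refine ⟨by positivity, ?_⟩
    rw [div_le_one hNpos, hN]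
    exact_mod_cast hi
  refine ⟨((List.range (m + 1)).map δ).reverse, ?_, ?_⟩
  · rw [hprod]
    have h0 : G (t 0) = 1 := by
      ext x
      rw [hG _ (ht 0 (by omega))]
      simp [t]
    have h1 : G (t (m + 1)) = γ := by
      ext x
      rw [hG _ (ht (m + 1) le_rfl)]
      have : t (m + 1) = 1 := by
        simp only [t]
        push_cast
        rw [← hN]
        exact div_self hNpos.ne'
      rw [this]
      ring
    rw [h0, h1, inv_one, mul_one]
  · intro d hd
    rw [List.mem_reverse, List.mem_map] at hd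
    obtain ⟨i, hi, rfl⟩ := hd
    rw [List.mem_range] at hi
    have h1 := ht i (by omega)
    have h2 := ht (i + 1) (by omega)
    refine ⟨Dg.mul_mem (hGD _) (Dg.inv_mem (hGD _)), ?_, ?_⟩
    · intro x hx
      have h3 : G (t i) x = x := by rw [hG _ h1, hsupp x hx]; ring
      have h4 : (G (t i))⁻¹ x = x := by
        conv_lhs => rw [← h3]
        exact pinv_apply _ _
      change G (t (i + 1)) ((G (t i))⁻¹ x) = x
      rw [h4, hG _ h2, hsupp x hx]
      ring
    · intro k hk1 hk4 x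
      rw [hiter _ h1 _ h2 k]
      apply hηs k _ h1 _ h2
      have h5 : |t (i + 1) - t i| < η₀ := by
        have : t (i + 1) - t i = 1 / N := by
          simp only [t]
          push_cast
          field_simp
          ring
        rw [this, abs_of_pos (by positivity)]
        exact hm
      refine lt_of_lt_of_le h5 ?_
      interval_cases k
      · exact min_le_left _ _
      · exact (min_le_right _ _).trans (min_le_left _ _)
      · exact (min_le_right _ _).trans ((min_le_right _ _).trans (min_le_left _ _))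
      · exact (min_le_right _ _).trans ((min_le_right _ _).trans (min_le_right _ _))

end W4ec

end

section

/-!
# The half rotation is a commutator in `PSU(1,1)`, via explicit lifts

Work file for MP_4ec80c_gt (item F).
-/

open Set Filter Topology MeasureTheory
open scoped ContDiff Manifold Real

namespace W4ec

open Complex in
/-- The inner function `1 + (b / a) e^{-2 π i x}`. -/
noncomputable def inn (w : ℂ) (x : ℝ) : ℂ := 1 + w * cexp (-(2 * π * x) * I)

open Complex in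
/-- The lift. -/
noncomputable def Lf (a b : ℂ) (x : ℝ) : ℝ :=
  x + (arg a + (Complex.log (inn (b / a) x)).im) / π

open Complex

theorem norm_exp_neg (x : ℝ) : ‖cexp (-(2 * π * x) * I)‖ = 1 := by
  rw [Complex.norm_exp]
  simp

theorem inn_re_pos {w : ℂ} (hw : ‖w‖ < 1) (x : ℝ) : 0 < (inn w x).re := by
  unfold inn
  rw [Complex.add_re, Complex.one_re]
  have h1 : |(w * cexp (-(2 * π * x) * I)).re| ≤ ‖w * cexp (-(2 * π * x) * I)‖ :=
    Complex.abs_re_le_norm _
  rw [norm_mul, norm_exp_neg, mul_one] at h1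
  have := (abs_le.1 h1).1
  linarith

theorem inn_slit {w : ℂ} (hw : ‖w‖ < 1) (x : ℝ) : inn w x ∈ slitPlane :=
  Or.inl (inn_re_pos hw x)

theorem inn_contDiff (w : ℂ) : ContDiff ℝ ∞ (inn w) := by
  unfold inn
  refine contDiff_const.add (contDiff_const.mul (ContDiff.cexp ?_))
  exact ((contDiff_const.mul Complex.ofRealCLM.contDiff).neg).mul contDiff_const

theorem inn_hasDerivAt (w : ℂ) (x : ℝ) :
    HasDerivAt (inn w) (-(2 * π) * I * (inn w x - 1)) x := by
  have h1 : HasDerivAt (fun x : ℝ => -(2 * π * (x : ℂ)) * I) (-(2 * π * 1) * I) x :=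
    (((Complex.ofRealCLM.hasDerivAt (x := x)).const_mul (2 * π : ℂ)).neg).mul_const I
  have h2 := (h1.cexp.const_mul w).const_add 1
  refine h2.congr_deriv ?_
  unfold inn
  ring

theorem Lf_hasDerivAt {a b : ℂ} (hab : ‖b / a‖ < 1) (x : ℝ) :
    HasDerivAt (Lf a b) (1 + (-(2 * π) * I * (inn (b / a) x - 1) / inn (b / a) x).im / π) x := by
  have h1 := (inn_hasDerivAt (b / a) x).clog_real (inn_slit hab x)
  have h2 : HasDerivAt (fun x => (Complex.log (inn (b / a) x)).im)
      ((-(2 * π) * I * (inn (b / a) x - 1) / inn (b / a) x).im) x :=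
    Complex.imCLM.hasFDerivAt.comp_hasDerivAt x h1
  have h3 := (hasDerivAt_id' x).add ((h2.const_add (arg a)).div_const π)
  exact h3

theorem Lf_contDiff {a b : ℂ} (hab : ‖b / a‖ < 1) : ContDiff ℝ ∞ (Lf a b) := by
  have h1 : ContDiff ℝ ∞ (fun x => Complex.log (inn (b / a) x)) := by
    rw [contDiff_iff_contDiffAt]
    intro x
    exact ((Complex.contDiffAt_log (inn_slit hab x)).restrict_scalars ℝ).comp x
      (inn_contDiff _).contDiffAt
  exact contDiff_id.add ((contDiff_const.add (Complex.imCLM.contDiff.comp h1)).div_const π)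

theorem Lf_deriv_pos {a b : ℂ} (hab : ‖b / a‖ < 1) (x : ℝ) : 0 < deriv (Lf a b) x := by
  rw [(Lf_hasDerivAt hab x).deriv]
  set z := inn (b / a) x with hz
  have hre := inn_re_pos hab x
  rw [← hz] at hre
  have hnz : ‖z - 1‖ < 1 := by
    rw [hz, inn, add_sub_cancel_left, norm_mul, norm_exp_neg, mul_one]
    exact hab
  have hns : 0 < Complex.normSq z := by
    rw [Complex.normSq_pos]
    intro h0
    rw [h0] at hre
    simp at hre
  have h1 : (z.re - 1) * (z.re - 1) + z.im * z.im < 1 := by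
    have h2 : ‖z - 1‖ ^ 2 < 1 := by
      have := norm_nonneg (z - 1)
      nlinarith
    rw [← Complex.normSq_eq_norm_sq, Complex.normSq_apply] at h2
    simpa using h2
  have h3 : (-(2 * π) * I * (z - 1) / z).im =
      -(2 * π) * (((z.re - 1) * z.re + z.im * z.im) / Complex.normSq z) := by
    have h4 : -(2 * (π : ℂ)) * I * (z - 1) / z = (-(2 * π) : ℝ) * (I * ((z - 1) / z)) := by
      push_cast; ring
    rw [h4, Complex.im_ofReal_mul, Complex.I_mul_im, Complex.div_re]
    simp only [Complex.sub_re, Complex.one_re, Complex.sub_im, Complex.one_im, sub_zero]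
    rw [← add_div]
  rw [h3]
  have h5 : (-(2 * π) * (((z.re - 1) * z.re + z.im * z.im) / Complex.normSq z)) / π =
      -2 * ((z.re - 1) * z.re + z.im * z.im) / Complex.normSq z := by
    field_simp
  rw [h5]
  have h6 : 1 + -2 * ((z.re - 1) * z.re + z.im * z.im) / Complex.normSq z =
      (1 - ((z.re - 1) * (z.re - 1) + z.im * z.im)) / Complex.normSq z := by
    rw [eq_div_iff hns.ne', add_mul, div_mul_cancel₀ _ hns.ne', Complex.normSq_apply]
    ring
  rw [h6]
  exact div_pos (by linarith) hns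

theorem Lf_add_one (a b : ℂ) (x : ℝ) : Lf a b (x + 1) = Lf a b x + 1 := by
  have h : inn (b / a) (x + 1) = inn (b / a) x := by
    unfold inn
    have h1 : (-(2 * π * ((x + 1 : ℝ) : ℂ)) * I) = -(2 * π * x) * I - 2 * π * I := by
      push_cast; ring
    rw [h1, Complex.exp_sub, Complex.exp_two_pi_mul_I, div_one]
  unfold Lf
  rw [h]
  ring

theorem Lf_bound (a b : ℂ) (x : ℝ) : |Lf a b x - x| ≤ 2 := by
  unfold Lf
  rw [add_sub_cancel_left, abs_div, abs_of_pos Real.pi_pos, div_le_iff₀ Real.pi_pos]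
  have h1 := Complex.abs_arg_le_pi a
  have h2 := Complex.abs_arg_le_pi (inn (b / a) x)
  rw [← Complex.log_im] at h2
  have := abs_add_le (arg a) (Complex.log (inn (b / a) x)).im
  linarith

theorem Lf_surj {a b : ℂ} (hab : ‖b / a‖ < 1) : Function.Surjective (Lf a b) := by
  intro y
  have h1 := (abs_le.1 (Lf_bound a b (y - 2))).2
  have h2 := (abs_le.1 (Lf_bound a b (y + 2))).1
  exact mem_range_of_exists_le_of_exists_ge (Lf_contDiff hab).continuous
    ⟨y - 2, by linarith⟩ ⟨y + 2, by linarith⟩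

theorem exists_lift {a b : ℂ} (hab : ‖b / a‖ < 1) :
    ∃ G ∈ Dg, ∀ x, G x = Lf a b x :=
  SI.exists_Dg ⟨Lf_contDiff hab, Lf_deriv_pos hab⟩ (Lf_surj hab)

/-- The ray identity. -/
theorem ray {a b : ℂ} (ha : a ≠ 0) (hab : ‖b / a‖ < 1) (x : ℝ) :
    ∃ r : ℝ, 0 < r ∧ a * cexp (π * x * I) + b * (starRingEnd ℂ) (cexp (π * x * I)) =
      r * cexp (π * (Lf a b x : ℝ) * I) := by
  set z := inn (b / a) x with hz
  have hz0 : z ≠ 0 := by
    intro h0
    have := inn_re_pos hab x
    rw [← hz, h0] at this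
    simp at this
  refine ⟨‖a‖ * ‖z‖, mul_pos (norm_pos_iff.2 ha) (norm_pos_iff.2 hz0), ?_⟩
  have h1 : cexp (π * (Lf a b x : ℝ) * I) =
      cexp (π * x * I) * (cexp (arg a * I) * cexp (arg z * I)) := by
    rw [← Complex.exp_add, ← Complex.exp_add]
    congr 1
    unfold Lf
    rw [← hz, Complex.log_im]
    push_cast
    have hpi : (π : ℂ) ≠ 0 := by exact_mod_cast Real.pi_ne_zero
    field_simp
  have h2 := Complex.norm_mul_exp_arg_mul_I a
  have h3 := Complex.norm_mul_exp_arg_mul_I z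
  have h4 : ((‖a‖ * ‖z‖ : ℝ) : ℂ) * cexp (π * (Lf a b x : ℝ) * I) =
      cexp (π * x * I) * ((‖a‖ * cexp (arg a * I)) * (‖z‖ * cexp (arg z * I))) := by
    rw [h1]; push_cast; ring
  rw [h4, h2, h3]
  have h5 : (starRingEnd ℂ) (cexp (π * x * I)) = cexp (-(2 * π * x) * I) * cexp (π * x * I) := by
    rw [← Complex.exp_conj, ← Complex.exp_add]
    congr 1
    simp only [map_mul, Complex.conj_ofReal, Complex.conj_I]
    ring
  rw [h5, hz, inn]
  field_simp

theorem half_rotation : ∃ G ∈ Dg, ∃ K ∈ Dg, (∀ x, G (x + 1) = G x + 1) ∧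
    (∀ x, K (x + 1) = K x + 1) ∧ ∃ k : ℤ, ∀ x, K (G x) + 1 / 2 = G (K x) + k := by
  obtain ⟨a, ha⟩ : ∃ a : ℂ, a = 7 + 7 * I := ⟨_, rfl⟩
  obtain ⟨b, hb⟩ : ∃ b : ℂ, b = -5 + 5 * I := ⟨_, rfl⟩
  obtain ⟨c, hc⟩ : ∃ c : ℂ, c = 5 - 5 * I := ⟨_, rfl⟩
  obtain ⟨d, hd⟩ : ∃ d : ℂ, d = 7 := ⟨_, rfl⟩
  have ha0 : a ≠ 0 := by
    intro h; have := congrArg Complex.re h; simp [ha] at this
  have hc0 : c ≠ 0 := by
    intro h; have := congrArg Complex.re h; simp [hc] at this
  have hlt : ∀ {p q : ℂ}, q ≠ 0 → Complex.normSq p < Complex.normSq q → ‖p / q‖ < 1 := by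
    intro p q hq h
    rw [norm_div, div_lt_one (norm_pos_iff.2 hq)]
    rw [Complex.normSq_eq_norm_sq, Complex.normSq_eq_norm_sq] at h
    exact lt_of_pow_lt_pow_left₀ 2 (norm_nonneg _) h
  have hab : ‖b / a‖ < 1 := hlt ha0 (by simp [ha, hb, Complex.normSq_apply]; norm_num)
  have hcd : ‖d / c‖ < 1 := hlt hc0 (by simp [hc, hd, Complex.normSq_apply]; norm_num)
  obtain ⟨G, hG, hGe⟩ := exists_lift hab
  obtain ⟨K, hK, hKe⟩ := exists_lift hcd
  refine ⟨G, hG, K, hK, fun x => by rw [hGe, hGe, Lf_add_one], fun x => by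
    rw [hKe, hKe, Lf_add_one], ?_⟩
  have key : ∀ x, ∃ n : ℤ, K (G x) + 1 / 2 - G (K x) = n := by
    intro x
    obtain ⟨r1, hr1, e1⟩ := ray ha0 hab x
    obtain ⟨r2, hr2, e2⟩ := ray hc0 hcd (G x)
    obtain ⟨r3, hr3, e3⟩ := ray hc0 hcd x
    obtain ⟨r4, hr4, e4⟩ := ray ha0 hab (K x)
    rw [← hGe] at e1 e4
    rw [← hKe] at e2 e3
    set e := cexp (π * x * I) with he
    have f1 : (r1 * r2 : ℝ) * cexp (π * (K (G x) : ℝ) * I) =
        c * (a * e + b * (starRingEnd ℂ) e) + d * (starRingEnd ℂ) (a * e + b * (starRingEnd ℂ) e) := by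
      rw [e1, map_mul, Complex.conj_ofReal]
      calc ((r1 * r2 : ℝ) : ℂ) * cexp (π * (K (G x) : ℝ) * I)
          = r1 * (r2 * cexp (π * (K (G x) : ℝ) * I)) := by push_cast; ring
        _ = _ := by rw [← e2]; ring
    have f2 : (r3 * r4 : ℝ) * cexp (π * (G (K x) : ℝ) * I) =
        a * (c * e + d * (starRingEnd ℂ) e) + b * (starRingEnd ℂ) (c * e + d * (starRingEnd ℂ) e) := by
      rw [e3, map_mul, Complex.conj_ofReal]
      calc ((r3 * r4 : ℝ) : ℂ) * cexp (π * (G (K x) : ℝ) * I)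
          = r3 * (r4 * cexp (π * (G (K x) : ℝ) * I)) := by push_cast; ring
        _ = _ := by rw [← e4]; ring
    have f3 : (r3 * r4 : ℝ) * cexp (π * (G (K x) : ℝ) * I) =
        I * ((r1 * r2 : ℝ) * cexp (π * (K (G x) : ℝ) * I)) := by
      rw [f1, f2]
      simp only [map_add, map_mul, Complex.conj_conj, ha, hb, hc, hd, map_neg, map_sub,
        Complex.conj_I, map_ofNat]
      have hI3 : I ^ 3 = -I := by rw [pow_succ, Complex.I_sq]; ring
      ring_nf
      simp only [hI3, Complex.I_sq]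
      ring
    have hn : ∀ y : ℝ, ‖cexp (π * y * I)‖ = 1 := by
      intro y
      rw [Complex.norm_exp]
      simp
    have f4 : r3 * r4 = r1 * r2 := by
      have := congrArg norm f3
      rw [norm_mul, norm_mul, norm_mul, hn, hn, Complex.norm_I, Complex.norm_real,
        Complex.norm_real, Real.norm_of_nonneg (by positivity), Real.norm_of_nonneg (by positivity)]
        at this
      linarith
    have f5 : cexp (π * (G (K x) : ℝ) * I) = cexp (π * (K (G x) : ℝ) * I + π / 2 * I) := by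
      rw [f4] at f3
      have h0 : ((r1 * r2 : ℝ) : ℂ) ≠ 0 := by
        have : r1 * r2 ≠ 0 := (mul_pos hr1 hr2).ne'
        exact_mod_cast this
      rw [Complex.exp_add, Complex.exp_pi_div_two_mul_I]
      apply mul_left_cancel₀ h0
      rw [f3]; ring
    rw [Complex.exp_eq_exp_iff_exists_int] at f5
    obtain ⟨n, hn⟩ := f5
    refine ⟨-(2 * n), ?_⟩
    have h6 := congrArg Complex.im hn
    simp at h6
    have hpi := Real.pi_pos
    push_cast
    have h7 : π * (G (K x)) = π * (K (G x) + 1 / 2 + 2 * n) := by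
      rw [h6]; ring
    have h8 := mul_left_cancel₀ hpi.ne' h7
    linarith
  choose n hn using key
  have hcont : Continuous (fun x => K (G x) + 1 / 2 - G (K x)) :=
    (((Dg.continuous hK).comp (Dg.continuous hG)).add continuous_const).sub
      ((Dg.continuous hG).comp (Dg.continuous hK))
  have hconst : ∀ x, n x = n 0 := by
    intro x
    by_contra hne
    -- intermediate value theorem
    have hivt : ∀ y : ℝ, y ∈ uIcc (K (G 0) + 1 / 2 - G (K 0)) (K (G x) + 1 / 2 - G (K x)) →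
        ∃ t, K (G t) + 1 / 2 - G (K t) = y := by
      intro y hy
      obtain ⟨t, _, ht⟩ := intermediate_value_uIcc (a := (0:ℝ)) (b := x) hcont.continuousOn hy
      exact ⟨t, ht⟩
    rw [hn, hn] at hivt
    have hmin : (min (n 0) (n x) : ℤ) < max (n 0) (n x) := by
      rcases lt_or_gt_of_ne hne with h | h
      · rw [min_eq_right h.le, max_eq_left h.le]; exact h
      · rw [min_eq_left h.le, max_eq_right h.le]; exact h
    obtain ⟨t, ht⟩ := hivt (((min (n 0) (n x) : ℤ) : ℝ) + 1 / 2) (by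
      rw [uIcc, mem_Icc]
      have h1 : ((min (n 0) (n x) : ℤ) : ℝ) = min (n 0 : ℝ) (n x : ℝ) := Int.cast_min
      have h2 : ((max (n 0) (n x) : ℤ) : ℝ) = max (n 0 : ℝ) (n x : ℝ) := Int.cast_max
      have h3 : ((min (n 0) (n x) : ℤ) : ℝ) + 1 ≤ ((max (n 0) (n x) : ℤ) : ℝ) := by
        exact_mod_cast hmin
      constructor
      · show min (n 0 : ℝ) (n x : ℝ) ≤ _
        rw [← h1]; linarith
      · show _ ≤ max (n 0 : ℝ) (n x : ℝ)
        rw [← h2]; linarith)
    rw [hn] at ht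
    have h4 : ((2 * n t : ℤ) : ℝ) = ((2 * min (n 0) (n x) + 1 : ℤ) : ℝ) := by
      push_cast
      push_cast at ht
      linarith
    have h5 : 2 * n t = 2 * min (n 0) (n x) + 1 := by exact_mod_cast h4
    omega
  refine ⟨n 0, fun x => ?_⟩
  have := hn x
  rw [hconst x] at this
  linarith

end W4ec

end

section

/-!
# Flat embedding of the line into the unit interval
-/

open Set Filter Topology MeasureTheory
open scoped ContDiff Manifold

namespace W4ec

namespace ItemC

/-- The function `-2 - exp (-x)`. -/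
lemma SI_v0 : SI (fun x : ℝ => -2 - Real.exp (-x)) where
  smooth := by fun_prop
  pos := by
    intro x
    have h : HasDerivAt (fun x : ℝ => -2 - Real.exp (-x)) (Real.exp (-x)) x := by
      have h1 := ((hasDerivAt_id x).neg.exp).const_sub (-2)
      refine h1.congr_deriv ?_
      simp
    rw [h.deriv]
    exact Real.exp_pos _

/-- A smooth increasing function with `w x = x` for `x ≤ -10` and `w < -2`. -/
lemma exists_w : ∃ w : ℝ → ℝ, SI w ∧ (∀ x ≤ -10, w x = x) ∧ ∀ x, w x < -2 := by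
  obtain ⟨w, hw, h1, h2⟩ := interp SI.id' SI_v0 (a := -10) (b := 0) (by norm_num)
    (by simp; norm_num)
  refine ⟨w, hw, h1, fun x => ?_⟩
  rcases le_or_gt x 0 with hx | hx
  · have := hw.strictMono.monotone hx
    rw [h2 0 le_rfl] at this
    have h3 : Real.exp (-0) = 1 := by simp
    rw [h3] at this
    linarith
  · rw [h2 x hx.le]
    have := Real.exp_pos (-x)
    linarith

/-- The left model. -/
lemma exists_u : ∃ u : ℝ → ℝ, SI u ∧ (∀ x ≤ -10, u x = 1 / Real.log (-x)) := by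
  obtain ⟨w, hw, h1, h2⟩ := exists_w
  have hpos : ∀ x, 0 < -w x := fun x => by linarith [h2 x]
  have hlog : ∀ x, 0 < Real.log (-w x) := fun x => Real.log_pos (by linarith [h2 x])
  refine ⟨fun x => 1 / Real.log (-w x), ⟨?_, ?_⟩, ?_⟩
  · refine contDiff_const.div ?_ (fun x => (hlog x).ne')
    exact ContDiff.log (hw.smooth.neg) (fun x => (hpos x).ne')
  · intro x
    have hd : HasDerivAt (fun x => Real.log (-w x)) (-deriv w x / (-w x)) x :=
      (hw.hasDerivAt x).neg.log (hpos x).ne'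
    have hd2 := hd.inv (hlog x).ne'
    have hd3 : HasDerivAt (fun x => 1 / Real.log (-w x))
        (-(-deriv w x / (-w x)) / (Real.log (-w x)) ^ 2) x := by
      refine hd2.congr_of_eventuallyEq (Eventually.of_forall fun z => ?_)
      simp
    rw [hd3.deriv]
    have := hw.pos x
    have h3 := hpos x
    have h4 := hlog x
    have e : -(-deriv w x / (-w x)) / (Real.log (-w x)) ^ 2 =
        deriv w x / ((-w x) * (Real.log (-w x)) ^ 2) := by
      field_simp
    rw [e]
    positivity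
  · intro x hx
    simp only [h1 x hx]

lemma two_lt_log_ten : 2 < Real.log 10 := by
  rw [Real.lt_log_iff_exp_lt (by norm_num)]
  have h := Real.exp_one_lt_d9
  have : Real.exp 2 = Real.exp 1 * Real.exp 1 := by rw [← Real.exp_add]; norm_num
  rw [this]
  have h0 := Real.exp_pos 1
  nlinarith

/-- The embedding of the line. -/
lemma exists_om : ∃ om : ℝ → ℝ, SI om ∧ (∀ t ≤ -10, om t = 1 / Real.log (-t)) ∧
    (∀ t ≥ 10, om t = 1 - 1 / Real.log t) := by
  obtain ⟨u, hu, hu1⟩ := exists_u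
  have hv : SI (fun x => 1 - u (-x)) := by
    refine ⟨?_, fun x => ?_⟩
    · exact contDiff_const.sub (hu.smooth.comp contDiff_neg)
    · have h1 : HasDerivAt (fun x => 1 - u (-x)) (-(deriv u (-x) * -1)) x :=
        ((hu.hasDerivAt (-x)).comp x (hasDerivAt_neg x)).const_sub 1
      rw [h1.deriv]
      have := hu.pos (-x)
      linarith
  have hlog := two_lt_log_ten
  have hu10 : u (-10) < 1 / 2 := by
    rw [hu1 (-10) le_rfl]
    have : (- -10 : ℝ) = 10 := by norm_num
    rw [this]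
    exact one_div_lt_one_div_of_lt (by norm_num) hlog
  obtain ⟨om, hom, h1, h2⟩ := interp hu hv (a := -10) (b := 10) (by norm_num) (by linarith)
  refine ⟨om, hom, fun t ht => ?_, fun t ht => ?_⟩
  · rw [h1 t ht, hu1 t ht]
  · rw [h2 t ht, hu1 (-t) (by linarith), neg_neg]

/-- The model of the conjugated translation near an endpoint. -/
noncomputable def hh (c x : ℝ) : ℝ := x / (1 + x * Real.log (1 - c * expNegInvGlue x))

lemma hh_of_nonpos (c : ℝ) {x : ℝ} (hx : x ≤ 0) : hh c x = x := by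
  unfold hh
  rw [expNegInvGlue.zero_of_nonpos hx]
  simp

lemma hh_contDiffAt (c : ℝ) : ContDiffAt ℝ ∞ (hh c) 0 := by
  unfold hh
  have h1 : ContDiffAt ℝ ∞ (fun x => 1 - c * expNegInvGlue x) 0 :=
    contDiffAt_const.sub (contDiffAt_const.mul expNegInvGlue.contDiff.contDiffAt)
  have h2 : (1 - c * expNegInvGlue 0) ≠ 0 := by
    rw [expNegInvGlue.zero_of_nonpos le_rfl]; norm_num
  refine contDiffAt_id.div (contDiffAt_const.add (contDiffAt_id.mul (h1.log h2))) ?_
  simp

lemma hh_deriv (c : ℝ) : deriv (hh c) 0 = 1 := by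
  have h1 : DifferentiableAt ℝ (hh c) 0 := (hh_contDiffAt c).differentiableAt (by simp)
  have h2 : HasDerivWithinAt (hh c) (deriv (hh c) 0) (Iic 0) 0 := h1.hasDerivAt.hasDerivWithinAt
  have h3 : HasDerivWithinAt (hh c) 1 (Iic 0) 0 :=
    (hasDerivWithinAt_id 0 (Iic 0)).congr (fun x hx => hh_of_nonpos c hx)
      (hh_of_nonpos c le_rfl)
  exact (uniqueDiffWithinAt_Iic 0).eq_deriv _ h2 h3

/-- The formula near the endpoint. -/
lemma hh_formula (c : ℝ) {x : ℝ} (hx : 0 < x) (h : 0 < Real.exp (1 / x) - c) :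
    1 / Real.log (Real.exp (1 / x) - c) = hh c x := by
  have h1 : Real.exp (1 / x) - c = Real.exp (1 / x) * (1 - c * expNegInvGlue x) := by
    have : expNegInvGlue x = Real.exp (-x⁻¹) := by
      unfold expNegInvGlue
      rw [if_neg (not_le.2 hx)]
    rw [this, mul_sub, mul_one, one_div]
    have : Real.exp x⁻¹ * (c * Real.exp (-x⁻¹)) = c := by
      rw [mul_left_comm, ← Real.exp_add]
      simp
    rw [this]
  have h2 : (1 - c * expNegInvGlue x) ≠ 0 := by
    intro h0
    rw [h1, h0, mul_zero] at h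
    exact lt_irrefl _ h
  rw [h1, Real.log_mul (Real.exp_pos _).ne' h2, Real.log_exp]
  unfold hh
  have h3 : 1 / x + Real.log (1 - c * expNegInvGlue x) =
      (1 + x * Real.log (1 - c * expNegInvGlue x)) / x := by
    field_simp
  rw [h3, one_div_div]

section

variable {om : ℝ → ℝ} (hom : SI om) (hl : ∀ t ≤ -10, om t = 1 / Real.log (-t))
  (hr : ∀ t ≥ 10, om t = 1 - 1 / Real.log t)

include hom hl in
lemma om_pos (t : ℝ) : 0 < om t := by
  have h1 : om (min t (-10)) ≤ om t := hom.strictMono.monotone (min_le_left _ _)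
  rw [hl _ (min_le_right _ _)] at h1
  refine lt_of_lt_of_le ?_ h1
  apply one_div_pos.2
  apply Real.log_pos
  have := min_le_right t (-10)
  linarith

include hom hr in
lemma om_lt (t : ℝ) : om t < 1 := by
  have h1 : om t ≤ om (max t 10) := hom.strictMono.monotone (le_max_left _ _)
  rw [hr _ (le_max_right _ _)] at h1
  refine lt_of_le_of_lt h1 ?_
  have : 0 < 1 / Real.log (max t 10) := by
    apply one_div_pos.2
    apply Real.log_pos
    have := le_max_right t 10
    linarith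
  linarith

include hl in
lemma om_left {x : ℝ} (hx : 0 < x) (hx' : x ≤ 1 / Real.log 10) :
    om (-Real.exp (1 / x)) = x ∧ -Real.exp (1 / x) ≤ -10 := by
  have h0 : -Real.exp (1 / x) ≤ -10 := by
    have hlog : 0 < Real.log 10 := Real.log_pos (by norm_num)
    have h1 : Real.log 10 ≤ 1 / x := by
      rw [le_one_div hlog hx]
      exact hx'
    have h2 := Real.exp_le_exp.2 h1
    rw [Real.exp_log (by norm_num)] at h2
    linarith
  refine ⟨?_, h0⟩
  rw [hl _ h0, neg_neg, Real.log_exp, one_div_one_div]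

include hr in
lemma om_right {y : ℝ} (hy : 0 < y) (hy' : y ≤ 1 / Real.log 10) :
    om (Real.exp (1 / y)) = 1 - y ∧ 10 ≤ Real.exp (1 / y) := by
  have h0 : 10 ≤ Real.exp (1 / y) := by
    have hlog : 0 < Real.log 10 := Real.log_pos (by norm_num)
    have h1 : Real.log 10 ≤ 1 / y := by
      rw [le_one_div hlog hy]
      exact hy'
    have h2 := Real.exp_le_exp.2 h1
    rwa [Real.exp_log (by norm_num)] at h2
  refine ⟨?_, h0⟩
  rw [hr _ h0, Real.log_exp, one_div_one_div]

include hom hl hr in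
lemma om_range : range om = Ioo 0 1 := by
  apply Subset.antisymm
  · rintro _ ⟨t, rfl⟩
    exact ⟨om_pos hom hl t, om_lt hom hr t⟩
  · rintro x ⟨hx0, hx1⟩
    have hlog : 0 < 1 / Real.log 10 := one_div_pos.2 (Real.log_pos (by norm_num))
    have h1 : om (-Real.exp (1 / min x (1 / Real.log 10))) ≤ x := by
      rw [(om_left hl (lt_min hx0 hlog) (min_le_right _ _)).1]
      exact min_le_left _ _
    have h2 : x ≤ om (Real.exp (1 / min (1 - x) (1 / Real.log 10))) := by
      rw [(om_right hr (lt_min (by linarith) hlog) (min_le_right _ _)).1]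
      have := min_le_left (1 - x) (1 / Real.log 10)
      linarith
    exact mem_range_of_exists_le_of_exists_ge hom.continuous ⟨_, h1⟩ ⟨_, h2⟩

include hom hl hr in
/-- On a bounded interval `om` agrees with an element of `Dg`. -/
lemma exists_global {R : ℝ} (hR : 0 < R) : ∃ o ∈ Dg, ∀ t, |t| ≤ R → o t = om t := by
  obtain ⟨w, hw, h1, h2⟩ := interp (SI.id') hom (a := -R - 1) (b := -R) (by linarith)
    (by have := om_pos hom hl (-R); linarith)
  obtain ⟨w', hw', h1', h2'⟩ := interp hw (SI.add_const 1) (a := R) (b := R + 1) (by linarith)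
    (by
      rw [h2 R (by linarith)]
      have := om_lt hom hr R
      linarith)
  obtain ⟨e, he, hew⟩ := hw'.exists_Dg_of_ends (u := 1) (v := tr 1) (a := -R - 1) (b := R + 1)
    Dg.one_mem (tr_mem 1) (fun x hx => by
      rw [h1' x (by linarith), h1 x hx]; rfl) (fun x hx => h2' x hx)
  refine ⟨e, he, fun t ht => ?_⟩
  rw [abs_le] at ht
  rw [hew, h1' t ht.2, h2 t ht.1]

end

end ItemC

open ItemC in
theorem exists_omega : ∃ om : ℝ → ℝ, SI om ∧ range om = Ioo 0 1 ∧
    ∀ ψ ∈ Dg, (∃ M c₁ c₂ : ℝ, (∀ x ≤ -M, ψ x = x + c₁) ∧ (∀ x ≥ M, ψ x = x + c₂)) →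
      ∃ e ∈ Dg, (∀ t, e (om t) = om (ψ t)) ∧ (∀ x ∉ Ioo (0:ℝ) 1, e x = x) := by
  obtain ⟨om, hom, hl, hr⟩ := exists_om
  have hrange := om_range hom hl hr
  refine ⟨om, hom, hrange, ?_⟩
  rintro ψ hψ ⟨M, c₁, c₂, hM1, hM2⟩
  classical
  have hinj := hom.strictMono.injective
  -- the map
  let w : ℝ → ℝ := fun x => if x ∈ Ioo (0 : ℝ) 1 then om (ψ (Function.invFun om x)) else x
  have hw_om : ∀ t, w (om t) = om (ψ t) := by
    intro t
    have : om t ∈ Ioo (0 : ℝ) 1 := hrange ▸ mem_range_self t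
    simp only [w, if_pos this, Function.leftInverse_invFun hinj t]
  have hw_out : ∀ x ∉ Ioo (0 : ℝ) 1, w x = x := fun x hx => by simp only [w, if_neg hx]
  -- thresholds
  set C : ℝ := |M| + |c₁| + |c₂| + 10 with hC
  have hCpos : 0 < C := by positivity
  have hC' : 0 < 1 / C := one_div_pos.2 hCpos
  have hexp : ∀ x, 0 < x → x < 1 / C → M ≤ Real.exp (1 / x) ∧ 10 ≤ Real.exp (1 / x) ∧
      10 + c₁ ≤ Real.exp (1 / x) ∧ 10 - c₁ ≤ Real.exp (1 / x) ∧
      10 + c₂ ≤ Real.exp (1 / x) ∧ 10 - c₂ ≤ Real.exp (1 / x) := by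
    intro x hx0 hx
    have h1 : C < 1 / x := by
      rw [lt_one_div hCpos hx0]
      exact hx
    have h2 := Real.add_one_le_exp (1 / x)
    have h3 : C ≤ Real.exp (1 / x) := by linarith
    have := abs_nonneg M
    have := abs_nonneg c₁
    have := abs_nonneg c₂
    have := le_abs_self M
    have := le_abs_self c₁
    have := le_abs_self c₂
    have := neg_abs_le c₁
    have := neg_abs_le c₂
    refine ⟨?_, ?_, ?_, ?_, ?_, ?_⟩ <;> linarith
  have hwSI : SI w := by
    have key : ∀ x, ∃ v : ℝ → ℝ, ContDiffAt ℝ ∞ v x ∧ 0 < deriv v x ∧ w =ᶠ[𝓝 x] v := by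
      intro x
      by_cases hx : x ∈ Ioo (0 : ℝ) 1
      · -- interior points
        obtain ⟨t, rfl⟩ : x ∈ range om := hrange ▸ hx
        set R := |t| + 1 with hR
        have hR0 : 0 < R := by positivity
        obtain ⟨o, ho, hoR⟩ := exists_global hom hl hr hR0
        set R' := max |ψ (-R)| |ψ R| + 1 with hR'
        have hR'0 : 0 < R' := by positivity
        obtain ⟨o', ho', hoR'⟩ := exists_global hom hl hr hR'0
        have hmem : o' * ψ * o⁻¹ ∈ Dg := Dg.mul_mem (Dg.mul_mem ho' hψ) (Dg.inv_mem ho)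
        have hSI := Dg.si hmem
        refine ⟨(o' * ψ * o⁻¹ : Equiv.Perm ℝ), hSI.smooth.contDiffAt, hSI.pos _, ?_⟩
        have hopen : om '' (Ioo (-R) R) ∈ 𝓝 (om t) := by
          have h1 : om '' (Ioo (-R) R) = Ioo (om (-R)) (om R) := by
            apply Subset.antisymm
            · rintro _ ⟨s, ⟨hs1, hs2⟩, rfl⟩
              exact ⟨hom.strictMono hs1, hom.strictMono hs2⟩
            · intro y hy
              obtain ⟨s, hs, rfl⟩ := intermediate_value_Ioo (by linarith)
                hom.continuous.continuousOn hy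
              exact ⟨s, hs, rfl⟩
          rw [h1]
          have ht := abs_lt.1 (show |t| < R by rw [hR]; linarith)
          exact Ioo_mem_nhds (hom.strictMono ht.1) (hom.strictMono ht.2)
        filter_upwards [hopen] with y hy
        obtain ⟨s, ⟨hs1, hs2⟩, rfl⟩ := hy
        rw [hw_om, Equiv.Perm.mul_apply, Equiv.Perm.mul_apply,
          ← hoR s (abs_le.2 ⟨hs1.le, hs2.le⟩), pinv_apply, hoR' (ψ s) ?_]
        have hm := Dg.strictMono hψ
        have h3 := hm hs1
        have h4 := hm hs2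
        rw [abs_le]
        constructor
        · have := neg_abs_le (ψ (-R))
          have := le_max_left |ψ (-R)| |ψ R|
          linarith
        · have := le_abs_self (ψ R)
          have := le_max_right |ψ (-R)| |ψ R|
          linarith
      · by_cases h0 : x = 0
        · -- left endpoint
          subst h0
          refine ⟨hh c₁, hh_contDiffAt c₁, by rw [hh_deriv]; exact one_pos, ?_⟩
          filter_upwards [Iio_mem_nhds hC'] with x hx
          rcases le_or_gt x 0 with hx0 | hx0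
          · rw [hw_out x (fun h => absurd h.1 (not_lt.2 hx0)), hh_of_nonpos _ hx0]
          · have hE := hexp x hx0 hx
            have e1 : om (-Real.exp (1 / x)) = x := by
              rw [hl _ (by linarith), neg_neg, Real.log_exp, one_div_one_div]
            rw [← hh_formula c₁ hx0 (by linarith)]
            calc w x = w (om (-Real.exp (1 / x))) := by rw [e1]
              _ = om (-Real.exp (1 / x) + c₁) := by rw [hw_om, hM1 _ (by linarith)]
              _ = 1 / Real.log (Real.exp (1 / x) - c₁) := by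
                rw [hl _ (by linarith)]
                congr 2
                ring
        · by_cases h1 : x = 1
          · subst h1
            have hsub : ContDiff ℝ ∞ (fun x : ℝ => 1 - x) := contDiff_const.sub contDiff_id
            have h10 : (1 : ℝ) - 1 = 0 := by norm_num
            have hcd : ContDiffAt ℝ ∞ (hh (-c₂)) ((fun x : ℝ => 1 - x) 1) := by
              simp only [h10]
              exact hh_contDiffAt (-c₂)
            refine ⟨fun x => 1 - hh (-c₂) (1 - x), ?_, ?_, ?_⟩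
            · exact contDiffAt_const.sub (hcd.comp 1 hsub.contDiffAt)
            · have d1 : HasDerivAt (hh (-c₂)) 1 (1 - 1) := by
                rw [h10, ← hh_deriv (-c₂)]
                exact ((hh_contDiffAt (-c₂)).differentiableAt (by simp)).hasDerivAt
              have d2 : HasDerivAt (fun x : ℝ => 1 - x) (-1) 1 := by
                simpa using (hasDerivAt_id (1 : ℝ)).const_sub 1
              have d3 : HasDerivAt (fun x => 1 - hh (-c₂) (1 - x)) (-(1 * -1)) 1 :=
                (HasDerivAt.comp (1 : ℝ) d1 d2).const_sub 1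
              rw [d3.deriv]
              norm_num
            · filter_upwards [Ioi_mem_nhds (show 1 - 1 / C < 1 by linarith)] with x hx
              have hx' : 1 - x < 1 / C := by
                have : 1 - 1 / C < x := hx
                linarith
              rcases le_or_gt (1 - x) 0 with hx0 | hx0
              · rw [hw_out x (fun h => absurd h.2 (not_lt.2 (by linarith))),
                  hh_of_nonpos _ hx0]
                ring
              · have hE := hexp (1 - x) hx0 hx'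
                have e1 : om (Real.exp (1 / (1 - x))) = x := by
                  rw [hr _ (by linarith), Real.log_exp, one_div_one_div]
                  ring
                rw [← hh_formula (-c₂) hx0 (by linarith)]
                calc w x = w (om (Real.exp (1 / (1 - x)))) := by rw [e1]
                  _ = om (Real.exp (1 / (1 - x)) + c₂) := by rw [hw_om, hM2 _ (by linarith)]
                  _ = 1 - 1 / Real.log (Real.exp (1 / (1 - x)) - -c₂) := by
                    rw [hr _ (by linarith), sub_neg_eq_add]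
          · refine ⟨fun x => x, contDiffAt_id, by simp, ?_⟩
            have : (Icc (0 : ℝ) 1)ᶜ ∈ 𝓝 x := by
              apply isClosed_Icc.isOpen_compl.mem_nhds
              rintro ⟨h2, h3⟩
              exact hx ⟨lt_of_le_of_ne h2 (Ne.symm h0), lt_of_le_of_ne h3 h1⟩
            filter_upwards [this] with y hy
            exact hw_out y (fun h => hy ⟨h.1.le, h.2.le⟩)
    refine ⟨?_, ?_⟩
    · rw [contDiff_iff_contDiffAt]
      intro x
      obtain ⟨v, hv, -, hwv⟩ := key x
      exact hv.congr_of_eventuallyEq hwv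
    · intro x
      obtain ⟨v, -, hv, hwv⟩ := key x
      rw [hwv.deriv_eq]
      exact hv
  obtain ⟨e, he, hew⟩ := hwSI.exists_Dg_of_ends (u := 1) (v := 1) (a := 0) (b := 1)
    Dg.one_mem Dg.one_mem (fun x hx => hw_out x (fun h => absurd h.1 (not_lt.2 hx)))
    (fun x hx => hw_out x (fun h => absurd h.2 (not_lt.2 hx)))
  exact ⟨e, he, fun t => by rw [hew, hw_om], fun x hx => by rw [hew, hw_out x hx]⟩

end W4ec

end

section

/-!
# The Mather trick: a compactly supported diffeomorphism of `(0,1)` whose periodisation is a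
product of a rotation and a conjugate of a rotation is a commutator of eventual translations
-/

open Set Filter Topology
open scoped ContDiff commutatorElement

namespace W4ec

/-- translation near `-∞` and near `+∞` -/
def EvTr (ψ : Equiv.Perm ℝ) : Prop :=
  ∃ M c₁ c₂ : ℝ, (∀ x ≤ -M, ψ x = x + c₁) ∧ (∀ x ≥ M, ψ x = x + c₂)

theorem per_add_nat {G : Equiv.Perm ℝ} (h : ∀ x, G (x + 1) = G x + 1) (n : ℕ) (x : ℝ) :
    G (x + n) = G x + n := by
  induction n with
  | zero => simp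
  | succ n ih => push_cast; rw [← add_assoc, h, ih, add_assoc]

theorem per_inv {G : Equiv.Perm ℝ} {p : ℝ} (h : ∀ x, G (x + p) = G x + p) :
    ∀ x, G⁻¹ (x + p) = G⁻¹ x + p := by
  intro x
  rw [Equiv.Perm.inv_eq_iff_eq, h, papply_inv]

theorem mather_trick {a b : ℝ} (ha : 0 < a) (hab : a ≤ b) (hb : b < 1) {γ : Equiv.Perm ℝ}
    (hγ : γ ∈ Su a b) {gb : Equiv.Perm ℝ} (hgb : gb ∈ Dg) (hgbp : ∀ x, gb (x + 1) = gb x + 1)
    (hgbγ : ∀ x, 0 ≤ x → x ≤ 1 → gb x = γ x)
    {η : Equiv.Perm ℝ} (hη : η ∈ Dg) (hηp : ∀ x, η (x + 1) = η x + 1) {al lam : ℝ}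
    (hlin : ∀ x, gb (η x) + lam = η (x + al)) :
    ∃ g ∈ Dg, ∃ h ∈ Dg, EvTr g ∧ EvTr h ∧ γ = ⁅g, h⁆ := by
  -- `η' = η⁻¹ T_λ`
  set η' : Equiv.Perm ℝ := η⁻¹ * tr lam with hη'
  have hη'D : η' ∈ Dg := Dg.mul_mem (Dg.inv_mem hη) (tr_mem _)
  have hη'inv : ∀ x, η'⁻¹ x = η x - lam := by
    intro x
    rw [Equiv.Perm.inv_eq_iff_eq, hη', Equiv.Perm.mul_apply, tr_apply, sub_add_cancel, pinv_apply]
  have hη'p : ∀ x, η' (x + 1) = η' x + 1 := by
    intro x
    rw [hη', Equiv.Perm.mul_apply, Equiv.Perm.mul_apply, tr_apply, tr_apply,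
      show x + 1 + lam = (x + lam) + 1 by ring, per_inv hηp]
  -- `gb (η'⁻¹ x + lam) = η'⁻¹ (x + al)`
  have hkey : ∀ x, gb (η'⁻¹ x + lam) = η'⁻¹ (x + al) := by
    intro x
    rw [hη'inv, hη'inv, sub_add_cancel, ← hlin x]; ring
  -- `M` with `1 < η' M`
  obtain ⟨M, hM1, hM⟩ : ∃ M : ℝ, 1 < M ∧ 1 < η' M := by
    obtain ⟨n, hn⟩ := exists_nat_gt (1 - η' 2)
    refine ⟨2 + n, by positivity |> fun (h : (0:ℝ) ≤ n) => by linarith, ?_⟩
    rw [per_add_nat hη'p]; linarith
  obtain ⟨ρ, hρ, hρ1, hρ2⟩ := interpD Dg.one_mem hη'D hM1 (by simpa using hM)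
  have hρ1' : ∀ x ≤ 1, ρ x = x := fun x hx => by rw [hρ1 x hx]; rfl
  -- `γ₊`
  have hgb0 : gb 0 = 0 := by
    rw [hgbγ 0 le_rfl zero_le_one]; exact Su.fix_left hγ ha.le
  obtain ⟨γp, hγp, hγp1, hγp2⟩ := glueD Dg.one_mem hgb ha (by
    intro x hx1 hx2
    rw [hgbγ x hx1 (by linarith), Su.fix_left hγ hx2]; rfl)
  have hγp1' : ∀ x ≤ a, γp x = x := fun x hx => by rw [hγp1 x hx]; rfl
  have hρm := Dg.strictMono hρ
  have hγpm := Dg.strictMono hγp
  have hgbm := Dg.strictMono hgb
  have hη'm := Dg.strictMono hη'D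
  have hγm := Dg.strictMono hγ.1
  -- `γ₊ T₁ = γ T₁ γ₊`
  have hrel : γp * tr 1 = γ * tr 1 * γp := by
    ext x
    simp only [Equiv.Perm.mul_apply, tr_apply]
    rcases le_total x 0 with hx | hx
    · rw [hγp1' x (by linarith)]
      rcases le_total (x + 1) a with h | h
      · rw [hγp1' _ h, Su.fix_left hγ h]
      · rw [hγp2 _ (by linarith), hgbγ _ (by linarith) (by linarith)]
    · have h1 : γp x = gb x := hγp2 x hx
      have h2 : 0 ≤ gb x := by rw [← hgb0]; exact hgbm.monotone hx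
      rw [h1, hγp2 (x + 1) (by linarith), hgbp, Su.fix_right hγ (by linarith)]
  -- `ρ γ = γ ρ`
  have hργ : ρ * γ = γ * ρ := by
    ext x
    simp only [Equiv.Perm.mul_apply]
    rcases le_total x 1 with hx | hx
    · have : γ x ≤ 1 := by
        calc γ x ≤ γ 1 := hγm.monotone hx
          _ = 1 := Su.fix_right hγ hb.le
      rw [hρ1' x hx, hρ1' _ this]
    · have h1 : 1 ≤ ρ x := by
        calc (1:ℝ) = ρ 1 := (hρ1' 1 le_rfl).symm
          _ ≤ ρ x := hρm.monotone hx
      rw [Su.fix_right hγ (by linarith), Su.fix_right hγ (by linarith)]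
  set h : Equiv.Perm ℝ := ρ * tr 1 * ρ⁻¹ with hh
  set g : Equiv.Perm ℝ := ρ * γp * tr lam * ρ⁻¹ with hg
  have hρinv1 : ∀ x ≤ 1, ρ⁻¹ x = x := by
    intro x hx
    rw [Equiv.Perm.inv_eq_iff_eq]; exact (hρ1' x hx).symm
  have hρinv2 : ∀ x, ρ M ≤ x → ρ⁻¹ x = η'⁻¹ x := by
    intro x hx
    have h1 : M ≤ η'⁻¹ x := by
      have : η' M ≤ x := by rw [← hρ2 M le_rfl]; exact hx
      have h2 : η' M ≤ η' (η'⁻¹ x) := by rw [papply_inv]; exact this
      exact hη'm.le_iff_le.1 h2
    rw [Equiv.Perm.inv_eq_iff_eq, hρ2 _ h1, papply_inv]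
  refine ⟨g, ?_, h, ?_, ?_, ?_, ?_⟩
  · exact Dg.mul_mem (Dg.mul_mem (Dg.mul_mem hρ hγp) (tr_mem _)) (Dg.inv_mem hρ)
  · exact Dg.mul_mem (Dg.mul_mem hρ (tr_mem _)) (Dg.inv_mem hρ)
  · -- `g` is an eventual translation
    refine ⟨max (|lam| + 1) (max (ρ M) (max (η' (-lam)) (max (η' (M + 1)) (η' M) - al))),
      lam, al, ?_, ?_⟩
    · intro x hx
      have h1 : x ≤ -(|lam| + 1) := hx.trans (neg_le_neg (le_max_left _ _))
      have h2 : x + lam ≤ 0 := by
        have := le_abs_self lam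
        linarith
      have h3 : x ≤ 1 := by
        have := abs_nonneg lam
        linarith
      rw [hg]
      simp only [Equiv.Perm.mul_apply, tr_apply]
      rw [hρinv1 x h3, hγp1' _ (by linarith), hρ1' _ (by linarith)]
    · intro x hx
      have h1 : ρ M ≤ x := (le_max_left _ _).trans ((le_max_right _ _).trans hx)
      have h2 : η' (-lam) ≤ x :=
        (le_max_left _ _).trans ((le_max_right _ _).trans ((le_max_right _ _).trans hx))
      have h3 : max (η' (M + 1)) (η' M) - al ≤ x :=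
        (le_max_right _ _).trans ((le_max_right _ _).trans ((le_max_right _ _).trans hx))
      have h4 : η' M ≤ x + al := by
        have := le_max_right (η' (M + 1)) (η' M)
        linarith
      rw [hg]
      simp only [Equiv.Perm.mul_apply, tr_apply]
      have h5 : 0 ≤ η'⁻¹ x + lam := by
        have : η' (-lam) ≤ η' (η'⁻¹ x) := by rw [papply_inv]; exact h2
        have := hη'm.le_iff_le.1 this
        linarith
      rw [hρinv2 x h1, hγp2 _ h5, hkey x]
      have h6 : M ≤ η'⁻¹ (x + al) := by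
        have : η' M ≤ η' (η'⁻¹ (x + al)) := by rw [papply_inv]; exact h4
        exact hη'm.le_iff_le.1 this
      rw [hρ2 _ h6, papply_inv]
  · refine ⟨max 1 (ρ M), 1, 1, ?_, ?_⟩
    · intro x hx
      have h1 : x ≤ -1 := hx.trans (neg_le_neg (le_max_left _ _))
      rw [hh]
      simp only [Equiv.Perm.mul_apply, tr_apply]
      rw [hρinv1 x (by linarith), hρ1' _ (by linarith)]
    · intro x hx
      have h1 : ρ M ≤ x := (le_max_right _ _).trans hx
      rw [hh]
      simp only [Equiv.Perm.mul_apply, tr_apply]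
      rw [hρinv2 x h1]
      have h6 : M ≤ η'⁻¹ x := by
        have : η' M ≤ η' (η'⁻¹ x) := by rw [papply_inv, ← hρ2 M le_rfl]; exact h1
        exact hη'm.le_iff_le.1 this
      rw [hρ2 _ (by linarith), hη'p, papply_inv]
  · -- the commutator
    have e1 : γp * tr 1 * γp⁻¹ = γ * tr 1 := by rw [hrel]; group
    have e2 : g * h * g⁻¹ = γ * h := by
      have : g * h * g⁻¹ = ρ * (γp * (tr lam * tr 1 * (tr lam)⁻¹) * γp⁻¹) * ρ⁻¹ := by
        rw [hg, hh]; group
      rw [this]
      have e3 : tr lam * tr 1 * (tr lam)⁻¹ = tr 1 := by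
        rw [tr_inv, tr_mul, tr_mul]; congr 1; ring
      rw [e3, e1, hh]
      rw [← mul_assoc, hργ]; group
    rw [commutatorElement_def, e2]; group

end W4ec

end

section

/-!
# Local linearisation with rotation number `√2`
-/

open Set Filter Topology MeasureTheory
open scoped ContDiff

namespace W4ec

/-- The logarithmic derivative of an `SI` function is smooth. -/
theorem SI.logDeriv_smooth {f : ℝ → ℝ} (hf : SI f) :
    ContDiff ℝ ∞ (fun z => Real.log (deriv f z)) := by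
  have h1 : ContDiff ℝ ∞ (deriv f) := (contDiff_infty_iff_deriv.1 hf.smooth).2
  exact h1.log (fun x => (hf.pos x).ne')

theorem deriv_periodic {f : ℝ → ℝ} {c d : ℝ} (hf : ∀ x, f (x + c) = f x + d) (x : ℝ) :
    deriv f (x + c) = deriv f x := by
  have h : (fun x => f (x + c)) = fun x => f x + d := funext hf
  have h2 := congrArg (fun F => deriv F x) h
  simp only [deriv_comp_add_const] at h2
  rw [h2]
  simp

theorem lin : ∃ ε : ℝ, 0 < ε ∧ ∀ f ∈ Dg, (∀ x, f (x + 1) = f x + 1) →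
    (∀ k : ℕ, 1 ≤ k → k ≤ 4 → ∀ x, |iteratedDeriv k (fun z => Real.log (deriv f z)) x| ≤ ε) →
    ∃ η ∈ Dg, (∀ x, η (x + 1) = η x + 1) ∧ ∃ lam : ℝ, ∀ x, f (η x) + lam = η (x + √2) := by
  obtain ⟨ε, hε, hA⟩ := exists_v
  refine ⟨ε, hε, ?_⟩
  intro f hf hfp hfb
  have hsi := Dg.si hf
  set l : ℝ → ℝ := fun z => Real.log (deriv f z) with hl
  have hlsm : ContDiff ℝ ∞ l := hsi.logDeriv_smooth
  have hlp : ∀ x, l (x + 1) = l x := by
    intro x
    simp only [hl]
    rw [deriv_periodic hfp x]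
  have hldiff : Differentiable ℝ l := hlsm.differentiable (by simp)
  set g : ℝ → ℝ := deriv l with hg
  have hgsm : ContDiff ℝ ∞ g := (contDiff_infty_iff_deriv.1 hlsm).2
  have hgp : ∀ x, g (x + 1) = g x := fun x =>
    deriv_periodic (d := 0) (fun x => by rw [hlp x, add_zero]) x
  have hgint : ∫ x in (0:ℝ)..1, g x = 0 := by
    rw [intervalIntegral.integral_deriv_eq_sub (fun x _ => hldiff x)
      (hgsm.continuous.intervalIntegrable _ _)]
    have := hlp 0
    rw [zero_add] at this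
    rw [this, sub_self]
  have hgk : ∀ k : ℕ, iteratedDeriv k g = iteratedDeriv (k + 1) l := by
    intro k
    rw [iteratedDeriv_succ']
  have hgb : ∀ x, |g x| ≤ ε ∧ |iteratedDeriv 1 g x| ≤ ε ∧ |iteratedDeriv 2 g x| ≤ ε ∧
      |iteratedDeriv 3 g x| ≤ ε := by
    intro x
    refine ⟨?_, ?_, ?_, ?_⟩
    · have := hfb 1 le_rfl (by norm_num) x
      rwa [iteratedDeriv_one] at this
    · rw [hgk]; exact hfb 2 (by norm_num) (by norm_num) x
    · rw [hgk]; exact hfb 3 (by norm_num) (by norm_num) x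
    · rw [hgk]; exact hfb 4 (by norm_num) (by norm_num) x
  obtain ⟨v, y, hvc, hvp, hvi, hyp, hyL, hvy, Dh, h, hDh, hh, heq⟩ := hA g hgsm hgp hgint hgb
  have hvsm : ContDiff ℝ ∞ v :=
    v_smooth g hgsm hgp v y hvc hvp hvi hyp hyL hvy Dh h hDh hh heq
  -- the primitive `V` of `v`
  set V : ℝ → ℝ := fun x => ∫ t in (0:ℝ)..x, v t with hV
  have hVd : ∀ x, HasDerivAt V (v x) x := fun x =>
    intervalIntegral.integral_hasDerivAt_right (hvc.intervalIntegrable _ _)
      (hvc.stronglyMeasurableAtFilter _ _) hvc.continuousAt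
  have hVderiv : deriv V = v := funext fun x => (hVd x).deriv
  have hVdiff : Differentiable ℝ V := fun x => (hVd x).differentiableAt
  have hVsm : ContDiff ℝ ∞ V := contDiff_infty_iff_deriv.2 ⟨hVdiff, by rw [hVderiv]; exact hvsm⟩
  have hVp : ∀ x, V (x + 1) = V x := by
    intro x
    have h1 : HasDerivAt (fun z => V (z + 1) - V z) 0 x := by
      have := ((hVd (x + 1)).comp_add_const x 1).sub (hVd x)
      rwa [hvp, sub_self] at this
    have hconst : ∀ z, V (z + 1) - V z = V (0 + 1) - V 0 := by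
      intro z
      have hd : Differentiable ℝ (fun z => V (z + 1) - V z) := by
        intro z
        exact ((hVd (z + 1)).comp_add_const z 1).differentiableAt.sub (hVdiff z)
      apply is_const_of_deriv_eq_zero hd
      intro z
      have := ((hVd (z + 1)).comp_add_const z 1).sub (hVd z)
      rw [hvp, sub_self] at this
      exact this.deriv
    have h2 := hconst x
    have h3 : V (0 + 1) - V 0 = 0 := by
      simp only [hV, zero_add, intervalIntegral.integral_same, sub_zero]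
      exact hvi
    linarith
  set Z : ℝ := ∫ s in (0:ℝ)..1, Real.exp (V s) with hZ
  have hec : Continuous fun s => Real.exp (V s) := Real.continuous_exp.comp hVsm.continuous
  have hZpos : 0 < Z := by
    rw [hZ]
    exact intervalIntegral.intervalIntegral_pos_of_pos_on (hec.intervalIntegrable _ _)
      (fun x _ => Real.exp_pos _) one_pos
  have hDh' : ∀ x, Dh x = Real.exp (V x) / Z := fun x => hDh x
  have hDhpos : ∀ x, 0 < Dh x := fun x => by rw [hDh' x]; positivity
  have hDhfun : Dh = fun x => Real.exp (V x) / Z := funext hDh'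
  have hDhsm : ContDiff ℝ ∞ Dh := by
    rw [hDhfun]
    exact (hVsm.exp).div_const Z
  have hDhc : Continuous Dh := hDhsm.continuous
  have hDhp : ∀ x, Dh (x + 1) = Dh x := fun x => by rw [hDh', hDh', hVp]
  have hhd : ∀ x, HasDerivAt h (Dh x) x := by
    intro x
    have h1 : h = fun x => ∫ t in (0:ℝ)..x, Dh t := funext hh
    rw [h1]
    exact intervalIntegral.integral_hasDerivAt_right (hDhc.intervalIntegrable _ _)
      (hDhc.stronglyMeasurableAtFilter _ _) hDhc.continuousAt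
  have hhderiv : deriv h = Dh := funext fun x => (hhd x).deriv
  have hhsm : ContDiff ℝ ∞ h :=
    contDiff_infty_iff_deriv.2 ⟨fun x => (hhd x).differentiableAt, by rw [hhderiv]; exact hDhsm⟩
  have hSIh : SI h := ⟨hhsm, fun x => by rw [hhderiv]; exact hDhpos x⟩
  have hint1 : ∫ t in (0:ℝ)..1, Dh t = 1 := by
    rw [hDhfun, intervalIntegral.integral_div]
    exact div_self hZpos.ne'
  have hhp : ∀ x, h (x + 1) = h x + 1 := by
    intro x
    have hconst : ∀ z, h (z + 1) - h z = h (0 + 1) - h 0 := by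
      intro z
      have hd : ∀ z, HasDerivAt (fun z => h (z + 1) - h z) 0 z := by
        intro z
        have := ((hhd (z + 1)).comp_add_const z 1).sub (hhd z)
        rwa [hDhp, sub_self] at this
      exact is_const_of_deriv_eq_zero (fun z => (hd z).differentiableAt)
        (fun z => (hd z).deriv) z 0
    have h2 := hconst x
    have h3 : h (0 + 1) - h 0 = 1 := by
      rw [zero_add, hh 1, hh 0, hint1]; simp
    linarith
  -- `h` is a bijection
  have hhn : ∀ (n : ℕ) (x : ℝ), h (x + n) = h x + n := by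
    intro n
    induction n with
    | zero => intro x; simp
    | succ n ih =>
      intro x
      push_cast
      rw [← add_assoc, hhp, ih]; ring
  have hsurj : Function.Surjective h := by
    intro z
    obtain ⟨n, hn⟩ := exists_nat_ge (|z - h 0|)
    have h1 : h (0 + n) = h 0 + n := hhn n 0
    have h2 : h (-(n:ℝ)) = h 0 - n := by
      have := hhn n (-(n:ℝ))
      rw [neg_add_cancel] at this
      linarith
    have h3 := abs_le.1 hn
    exact mem_range_of_exists_le_of_exists_ge hhsm.continuous ⟨_, (by rw [h2]; linarith [h3.1])⟩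
      ⟨_, (by rw [h1]; linarith [h3.2])⟩
  obtain ⟨η, hη, hηh⟩ := hSIh.exists_Dg hsurj
  -- the cocycle equation
  have hlogDh : ∀ x, HasDerivAt (fun z => Real.log (Dh z)) (v x) x := by
    intro x
    have h1 : (fun z => Real.log (Dh z)) = fun z => V z - Real.log Z := by
      funext z
      rw [hDh' z, Real.log_div (Real.exp_pos _).ne' hZpos.ne', Real.log_exp]
    rw [h1]
    exact (hVd x).sub_const _
  have hq : ∀ x, HasDerivAt (fun z => Real.log (Dh (z + √2)) - Real.log (Dh z) - l (h z)) 0 x := by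
    intro x
    have h1 := (hlogDh (x + √2)).comp_add_const x (√2)
    have h2 : HasDerivAt (fun z => l (h z)) (g (h x) * Dh x) x :=
      ((hldiff (h x)).hasDerivAt).comp x (hhd x)
    have h3 := (h1.sub (hlogDh x)).sub h2
    have h4 : v (x + √2) - v x - g (h x) * Dh x = 0 := by rw [heq x]; ring
    rwa [h4] at h3
  have hqc : ∀ x, Real.log (Dh (x + √2)) - Real.log (Dh x) - l (h x) =
      Real.log (Dh (0 + √2)) - Real.log (Dh 0) - l (h 0) := fun x =>
    is_const_of_deriv_eq_zero (fun z => (hq z).differentiableAt) (fun z => (hq z).deriv) x 0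
  set c : ℝ := Real.log (Dh (0 + √2)) - Real.log (Dh 0) - l (h 0) with hc
  have hDhα : ∀ x, Dh (x + √2) = Real.exp c * (deriv f (h x) * Dh x) := by
    intro x
    have h1 : Real.log (Dh (x + √2)) = c + (l (h x) + Real.log (Dh x)) := by
      have := hqc x; linarith
    have h2 : Real.exp (Real.log (Dh (x + √2))) = Dh (x + √2) := Real.exp_log (hDhpos _)
    rw [← h2, h1, Real.exp_add, Real.exp_add, Real.exp_log (hDhpos x)]
    simp only [hl]
    rw [Real.exp_log (hsi.pos _)]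
  have hfh : ∀ x, HasDerivAt (fun z => f (h z)) (deriv f (h x) * Dh x) x := fun x =>
    (hsi.hasDerivAt (h x)).comp x (hhd x)
  have hcc : ∀ x, h (x + √2) - Real.exp c * f (h x) = h (0 + √2) - Real.exp c * f (h 0) := by
    intro x
    have hd : ∀ z, HasDerivAt (fun z => h (z + √2) - Real.exp c * f (h z)) 0 z := by
      intro z
      have := ((hhd (z + √2)).comp_add_const z (√2)).sub ((hfh z).const_mul (Real.exp c))
      rwa [hDhα z, sub_self] at this
    exact is_const_of_deriv_eq_zero (fun z => (hd z).differentiableAt)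
      (fun z => (hd z).deriv) x 0
  have hexp1 : Real.exp c = 1 := by
    have h1 := hcc 0
    have h2 := hcc (0 + 1)
    have h3 : h (0 + 1 + √2) = h (0 + √2) + 1 := by
      rw [show (0:ℝ) + 1 + √2 = (0 + √2) + 1 by ring, hhp]
    rw [h3, hhp, hfp] at h2
    linarith
  refine ⟨η, hη, fun x => by rw [hηh, hηh, hhp], h (0 + √2) - Real.exp c * f (h 0), fun x => ?_⟩
  rw [hηh, hηh]
  have := hcc x
  rw [hexp1, one_mul] at this
  rw [hexp1]
  linarith

end W4ec

end
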