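import Mathlib
import Pool.Agent.Work.MP_4ec80c_gt.Bd.B04

/-! Bundle of small proof modules (one section per former module). -/

section

/-!
# Compactly supported diffeomorphisms of an open interval are products of two commutators
-/

open Set Filter Topology
open scoped ContDiff commutatorElement

namespace W4ec

/-- An `SI` function agrees on a compact interval with a diffeomorphism of the line. -/
theorem SI.exists_Dg_Icc {w : ℝ → ℝ} (hw : SI w) (a b : ℝ) :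
    ∃ e ∈ Dg, ∀ x, a ≤ x → x ≤ b → e x = w x := by
  obtain ⟨w1, hw1, h1, h2⟩ := interp (Dg.si (tr_mem (w a - a))) hw (a := a - 1) (b := a)
    (by linarith) (by rw [tr_apply]; linarith)
  set b' := max a b with hb'
  obtain ⟨w2, hw2, h3, h4⟩ := interp hw1 (Dg.si (tr_mem (w b' - b'))) (a := b') (b := b' + 1)
    (by linarith) (by rw [tr_apply, h2 b' (le_max_left _ _)]; linarith)
  obtain ⟨e, he, hew⟩ := hw2.exists_Dg_of_ends (tr_mem (w a - a)) (tr_mem (w b' - b'))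
    (a := a - 1) (b := b' + 1)
    (by
      intro x hx
      rw [h3 x (hx.trans (by have := le_max_left a b; rw [← hb'] at this; linarith)), h1 x hx])
    h4
  refine ⟨e, he, fun x hx1 hx2 => ?_⟩
  rw [hew, h3 x (hx2.trans (le_max_right _ _)), h2 x hx1]

/-- small elements supported in `[1/4, 3/4]` are commutators of eventual translations -/
theorem small_comm : ∃ ε : ℝ, 0 < ε ∧ ∀ γ ∈ Su (1/4) (3/4),
    (∀ k : ℕ, 1 ≤ k → k ≤ 4 → ∀ x, |iteratedDeriv k (fun z => Real.log (deriv γ z)) x| ≤ ε) →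
    ∃ g ∈ Dg, ∃ h ∈ Dg, EvTr g ∧ EvTr h ∧ γ = ⁅g, h⁆ := by
  obtain ⟨ε, hε, hlin⟩ := lin
  refine ⟨ε, hε, fun γ hγ hb => ?_⟩
  obtain ⟨gb, hgb, hgbp, hgbγ⟩ := perExt (Dg.si hγ.1) (c := 0) (e := 1/4) (p := 1) one_pos
    (by norm_num) (by
      intro x hx1 hx2
      rw [Su.fix_right hγ (x := x + 1) (by linarith), Su.fix_left hγ (x := x) (by linarith)])
  rw [zero_add] at hgbγ
  have hbb : ∀ k : ℕ, 1 ≤ k → k ≤ 4 → ∀ x,
      |iteratedDeriv k (fun z => Real.log (deriv gb z)) x| ≤ ε := by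
    intro k hk1 hk2
    have hLsm : ContDiff ℝ ∞ (fun z => Real.log (deriv gb z)) := (Dg.si hgb).logDeriv_smooth
    set L := fun z => Real.log (deriv gb z) with hL
    have hLp : ∀ x, L (x + 1) = L x := fun x => by simp only [hL]; rw [deriv_periodic hgbp x]
    have hDper : ∀ x, iteratedDeriv k L (x + 1) = iteratedDeriv k L x := by
      intro x
      have h1 : (fun z => L (z + 1)) = L := funext hLp
      have h2 := congrFun (iteratedDeriv_comp_add_const k L 1) x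
      rw [h1] at h2
      exact h2.symm
    have hcont : Continuous (iteratedDeriv k L) :=
      hLsm.continuous_iteratedDeriv k (by exact_mod_cast le_top)
    have hIoo : ∀ x ∈ Ioo (0:ℝ) 1, |iteratedDeriv k L x| ≤ ε := by
      intro x hx
      have hev : gb =ᶠ[𝓝 x] γ := by
        filter_upwards [Ioo_mem_nhds hx.1 hx.2] with z hz
        exact hgbγ z hz.1.le hz.2.le
      have hev2 : L =ᶠ[𝓝 x] (fun z => Real.log (deriv γ z)) := by
        filter_upwards [hev.deriv] with z hz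
        simp only [hL]
        rw [hz]
      rw [hev2.iteratedDeriv_eq]
      exact hb k hk1 hk2 x
    have hclosed : IsClosed {x | |iteratedDeriv k L x| ≤ ε} :=
      isClosed_le hcont.abs continuous_const
    have hIcc : ∀ x ∈ Icc (0:ℝ) 1, |iteratedDeriv k L x| ≤ ε := by
      have h1 : closure (Ioo (0:ℝ) 1) ⊆ {x | |iteratedDeriv k L x| ≤ ε} :=
        hclosed.closure_subset_iff.2 hIoo
      rw [closure_Ioo (by norm_num)] at h1
      exact h1
    intro x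
    have hP : Function.Periodic (iteratedDeriv k L) 1 := hDper
    have h2 : iteratedDeriv k L x = iteratedDeriv k L (Int.fract x) := by
      have := hP.sub_int_mul_eq (x := x) (n := ⌊x⌋)
      rw [mul_one] at this
      rw [← this]; rfl
    rw [h2]
    exact hIcc _ ⟨Int.fract_nonneg _, (Int.fract_lt_one _).le⟩
  obtain ⟨η, hη, hηp, lam, hlam⟩ := hlin gb hgb hgbp hbb
  exact mather_trick (by norm_num) (by norm_num) (by norm_num) hγ hgb hgbp hgbγ hη hηp hlam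

theorem list_comm {G : Type*} [Group G] {L : Subgroup G} (φ : G →* G) :
    ∀ l : List G, (∀ p ∈ l, ∃ a ∈ L, ∃ b ∈ L, φ p = ⁅a, b⁆) →
      ∃ l' : List (G × G), (∀ q ∈ l', q.1 ∈ L ∧ q.2 ∈ L) ∧
        (l'.map fun q => ⁅q.1, q.2⁆).prod = φ l.prod
  | [], _ => ⟨[], by simp, by simp⟩
  | p :: l, h => by
    obtain ⟨a, ha, b, hb, hab⟩ := h p (by simp)
    obtain ⟨l', h1, h2⟩ := list_comm φ l (fun q hq => h q (by simp [hq]))
    refine ⟨(a, b) :: l', ?_, ?_⟩
    · intro q hq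
      rcases List.mem_cons.1 hq with rfl | hq
      · exact ⟨ha, hb⟩
      · exact h1 q hq
    · rw [List.map_cons, List.prod_cons, h2, List.prod_cons, map_mul, hab]

/-- **Theorem P.** -/
theorem theoremP {A a₁ b₁ B : ℝ} (h1 : A < a₁) (h2 : a₁ ≤ b₁) (h3 : b₁ < B)
    {δ : Equiv.Perm ℝ} (hδ : δ ∈ Su a₁ b₁) :
    ∃ F ∈ Su A B, ∃ g ∈ Su A B, ∃ P ∈ Su A B, ∃ Q ∈ Su A B, δ = ⁅F, g⁆ * ⁅P, Q⁆ := by
  obtain ⟨om, hom, homr, homT⟩ := exists_omega
  have hom01 : ∀ t, om t ∈ Ioo (0:ℝ) 1 := fun t => by rw [← homr]; exact mem_range_self t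
  have hmono := hom.strictMono
  -- the chart
  obtain ⟨κ, hκ, k0, k1, k2, k3⟩ := pts4 (x₁ := 0) (x₂ := om (1/4)) (x₃ := om (3/4)) (x₄ := 1)
    (y₁ := (2 * A + a₁) / 3) (y₂ := (A + 2 * a₁) / 3) (y₃ := (2 * b₁ + B) / 3)
    (y₄ := (b₁ + 2 * B) / 3) (hom01 _).1 (hmono (by norm_num)) (hom01 _).2
    (by linarith) (by linarith) (by linarith)
  obtain ⟨om', hom', hom'eq⟩ := hom.exists_Dg_Icc (-1) 2
  have hom'mono := Dg.strictMono hom'
  set c : Equiv.Perm ℝ := κ * om' with hc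
  have hcD : c ∈ Dg := Dg.mul_mem hκ hom'
  have hcmono := Dg.strictMono hcD
  have hc1 : c (1/4) ≤ a₁ := by
    rw [hc, Equiv.Perm.mul_apply, hom'eq _ (by norm_num) (by norm_num), k1]; linarith
  have hc2 : b₁ ≤ c (3/4) := by
    rw [hc, Equiv.Perm.mul_apply, hom'eq _ (by norm_num) (by norm_num), k2]; linarith
  set γ : Equiv.Perm ℝ := c⁻¹ * δ * c with hγdef
  have hγ : γ ∈ Su (1/4) (3/4) := by
    have hh := Su.conj hδ (Dg.inv_mem hcD)
    rw [inv_inv] at hh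
    refine Su_mono ?_ ?_ hh
    · rw [← Dg.apply_le hcD, papply_inv]; exact hc1
    · rw [← Dg.apply_le hcD, papply_inv]; exact hc2
  obtain ⟨ε, hε, hsmall⟩ := small_comm
  obtain ⟨l, hl, hl'⟩ := frag hγ.1 hγ.2 hε
  -- each piece is a commutator after conjugation
  have hpiece : ∀ p ∈ l, ∃ a ∈ Su (κ 0) (κ 1), ∃ b ∈ Su (κ 0) (κ 1),
      (MulAut.conj c).toMonoidHom p = ⁅a, b⁆ := by
    intro p hp
    obtain ⟨hp1, hp2, hp3⟩ := hl' p hp
    have hpS : p ∈ Su (1/4) (3/4) := ⟨hp1, hp2⟩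
    obtain ⟨g, hg, h, hh, eg, eh, hgh⟩ := hsmall p hpS hp3
    obtain ⟨e₁, he₁, he₁', he₁''⟩ := homT g hg eg
    obtain ⟨e₂, he₂, he₂', he₂''⟩ := homT h hh eh
    have he₁S : e₁ ∈ Su 0 1 := ⟨he₁, fun x hx => he₁'' x (fun h => hx ⟨h.1.le, h.2.le⟩)⟩
    have he₂S : e₂ ∈ Su 0 1 := ⟨he₂, fun x hx => he₂'' x (fun h => hx ⟨h.1.le, h.2.le⟩)⟩
    have hinv₁ : ∀ t, e₁⁻¹ (om t) = om (g⁻¹ t) := by
      intro t
      rw [Equiv.Perm.inv_eq_iff_eq, he₁', papply_inv]
    have hinv₂ : ∀ t, e₂⁻¹ (om t) = om (h⁻¹ t) := by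
      intro t
      rw [Equiv.Perm.inv_eq_iff_eq, he₂', papply_inv]
    have hcomm : ∀ t, ⁅e₁, e₂⁆ (om t) = om (p t) := by
      intro t
      rw [hgh, commutatorElement_def, commutatorElement_def]
      simp only [Equiv.Perm.mul_apply]
      rw [hinv₂, hinv₁, he₂', he₁']
    have hcomm' : ∀ x, x ∉ Ioo (0:ℝ) 1 → ⁅e₁, e₂⁆ x = x := by
      intro x hx
      have i1 : e₁⁻¹ x = x := by rw [Equiv.Perm.inv_eq_iff_eq, he₁'' x hx]
      have i2 : e₂⁻¹ x = x := by rw [Equiv.Perm.inv_eq_iff_eq, he₂'' x hx]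
      rw [commutatorElement_def]
      simp only [Equiv.Perm.mul_apply]
      rw [i2, i1, he₂'' x hx, he₁'' x hx]
    have hmain : om' * p * om'⁻¹ = ⁅e₁, e₂⁆ := by
      ext x
      simp only [Equiv.Perm.mul_apply]
      by_cases hx : x ∈ Ioo (0:ℝ) 1
      · obtain ⟨t, rfl⟩ : x ∈ range om := by rw [homr]; exact hx
        rw [hcomm]
        by_cases ht : t ∈ Icc (1/4 : ℝ) (3/4)
        · have h5 : om'⁻¹ (om t) = t := by
            rw [Equiv.Perm.inv_eq_iff_eq, hom'eq t (by linarith [ht.1]) (by linarith [ht.2])]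
          have h6 : (1/4 : ℝ) ≤ p t := by
            calc (1/4 : ℝ) = p (1/4) := (Su.fix_left hpS le_rfl).symm
              _ ≤ p t := (Dg.strictMono hp1).monotone ht.1
          have h7 : p t ≤ 3/4 := by
            calc p t ≤ p (3/4) := (Dg.strictMono hp1).monotone ht.2
              _ = 3/4 := Su.fix_right hpS le_rfl
          rw [h5, hom'eq _ (by linarith) (by linarith)]
        · rw [hp2 t ht]
          have h5 : om'⁻¹ (om t) ∉ Icc (1/4 : ℝ) (3/4) := by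
            intro h5
            have h6 : om' (om'⁻¹ (om t)) = om (om'⁻¹ (om t)) :=
              hom'eq _ (by linarith [h5.1]) (by linarith [h5.2])
            rw [papply_inv] at h6
            have h7 := hmono.injective h6
            rw [← h7] at h5
            exact ht h5
          rw [hp2 _ h5, papply_inv]
      · rw [hcomm' x hx]
        have h5 : om'⁻¹ x ∉ Icc (1/4 : ℝ) (3/4) := by
          intro h5
          have h6 : om' (om'⁻¹ x) = om (om'⁻¹ x) :=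
            hom'eq _ (by linarith [h5.1]) (by linarith [h5.2])
          rw [papply_inv] at h6
          apply hx
          rw [h6]
          exact hom01 _
        rw [hp2 _ h5, papply_inv]
    refine ⟨κ * e₁ * κ⁻¹, Su.conj he₁S hκ, κ * e₂ * κ⁻¹, Su.conj he₂S hκ, ?_⟩
    have h8 : (MulAut.conj c).toMonoidHom p = κ * (om' * p * om'⁻¹) * κ⁻¹ := by
      simp only [MulEquiv.coe_toMonoidHom, MulAut.conj_apply, hc]
      group
    rw [h8, hmain, commutatorElement_def, commutatorElement_def]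
    group
  obtain ⟨l', hl'1, hl'2⟩ := list_comm (L := Su (κ 0) (κ 1)) (MulAut.conj c).toMonoidHom l hpiece
  have hδeq : (MulAut.conj c).toMonoidHom l.prod = δ := by
    rw [hl, hγdef]
    simp only [MulEquiv.coe_toMonoidHom, MulAut.conj_apply]
    group
  have hκ01 : κ 0 < κ 1 := Dg.strictMono hκ zero_lt_one
  obtain ⟨g, hg, hgab⟩ := exists_displace (A := A) (a := κ 0) (b := κ 1) (B := B)
    (by rw [k0]; linarith) hκ01 (by rw [k3]; linarith)
  obtain ⟨F, hF, P, hP, Q, hQ, hfin⟩ := bip (L := Su (κ 0) (κ 1)) (K := Su A B)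
    (Su_mono (by rw [k0]; linarith) (by rw [k3]; linarith)) hg
    (Su.displace_commute hκ01.le hg hgab) l' hl'1
  exact ⟨F, hF, g, hg, P, hP, Q, hQ, by rw [← hfin, hl'2, hδeq]⟩

end W4ec

end

section

/-!
# Periodic diffeomorphisms
-/

open Set Filter Topology
open scoped ContDiff commutatorElement

namespace W4ec

/-- Elements of `Dg` commuting with the translation by `p`. -/
def Pd (p : ℝ) : Subgroup (Equiv.Perm ℝ) where
  carrier := {e | e ∈ Dg ∧ ∀ x, e (x + p) = e x + p}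
  mul_mem' := by
    rintro e f ⟨he, he'⟩ ⟨hf, hf'⟩
    refine ⟨Dg.mul_mem he hf, fun x => ?_⟩
    simp only [Equiv.Perm.mul_apply]
    rw [hf', he']
  one_mem' := ⟨Dg.one_mem, fun x => rfl⟩
  inv_mem' := by
    rintro e ⟨he, he'⟩
    exact ⟨Dg.inv_mem he, per_inv he'⟩

theorem Pd.per {p : ℝ} {e : Equiv.Perm ℝ} (he : e ∈ Pd p) (x : ℝ) : e (x + p) = e x + p := he.2 x

theorem Pd.per_sub {p : ℝ} {e : Equiv.Perm ℝ} (he : e ∈ Pd p) (x : ℝ) : e (x - p) = e x - p := by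
  have := he.2 (x - p)
  rw [sub_add_cancel] at this
  linarith

theorem Pd.per_int {p : ℝ} {e : Equiv.Perm ℝ} (he : e ∈ Pd p) (k : ℤ) (x : ℝ) :
    e (x + k * p) = e x + k * p := by
  induction k using Int.induction_on with
  | zero => simp
  | succ n ih =>
    push_cast at ih ⊢
    rw [show x + ((n : ℝ) + 1) * p = (x + n * p) + p by ring, he.2, ih]; ring
  | pred n ih =>
    push_cast at ih ⊢
    rw [show x + (-(n : ℝ) - 1) * p = (x + -(n:ℝ) * p) - p by ring, Pd.per_sub he, ih]; ring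

/-- Every real can be moved in `[a, a + p)` by a multiple of `p`. -/
theorem exists_shift {p : ℝ} (hp : 0 < p) (a x : ℝ) :
    ∃ (k : ℤ) (y : ℝ), a ≤ y ∧ y < a + p ∧ x = y + k * p := by
  refine ⟨⌊(x - a) / p⌋, x - ⌊(x - a) / p⌋ * p, ?_, ?_, by ring⟩
  · have h := Int.floor_le ((x - a) / p)
    rw [le_div_iff₀ hp] at h
    linarith
  · have h := Int.lt_floor_add_one ((x - a) / p)
    rw [div_lt_iff₀ hp] at h
    linarith

theorem Pd.ext {p : ℝ} (hp : 0 < p) {e f : Equiv.Perm ℝ} (he : e ∈ Pd p) (hf : f ∈ Pd p)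
    {a : ℝ} (h : ∀ x, a ≤ x → x ≤ a + p → e x = f x) : e = f := by
  ext x
  obtain ⟨k, y, hy1, hy2, rfl⟩ := exists_shift hp a x
  rw [Pd.per_int he, Pd.per_int hf, h y hy1 hy2.le]

/-- Periodic diffeomorphisms supported in `[a, b] + p ℤ`. -/
def Sp (p a b : ℝ) : Subgroup (Equiv.Perm ℝ) where
  carrier := {e | e ∈ Pd p ∧ ∀ x, b ≤ x → x ≤ a + p → e x = x}
  mul_mem' := by
    rintro e f ⟨he, he'⟩ ⟨hf, hf'⟩
    refine ⟨(Pd p).mul_mem he hf, fun x hx1 hx2 => ?_⟩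
    simp only [Equiv.Perm.mul_apply]
    rw [hf' x hx1 hx2, he' x hx1 hx2]
  one_mem' := ⟨(Pd p).one_mem, fun x _ _ => rfl⟩
  inv_mem' := by
    rintro e ⟨he, he'⟩
    refine ⟨(Pd p).inv_mem he, fun x hx1 hx2 => ?_⟩
    rw [Equiv.Perm.inv_eq_iff_eq, he' x hx1 hx2]

theorem Sp_le_Pr (p a b : ℝ) : Sp p a b ≤ Pd p := fun _ h => h.1

theorem Sp_mono {p a b c d : ℝ} (h1 : c ≤ a) (h2 : b ≤ d) : Sp p a b ≤ Sp p c d := by
  rintro e ⟨he, he'⟩
  exact ⟨he, fun x hx1 hx2 => he' x (h2.trans hx1) (by linarith)⟩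

theorem Sp.fix' {p a b : ℝ} {e : Equiv.Perm ℝ} (he : e ∈ Sp p a b) {x : ℝ}
    (h1 : b - p ≤ x) (h2 : x ≤ a) : e x = x := by
  have := he.2 (x + p) (by linarith) (by linarith)
  rw [he.1.2] at this
  linarith

theorem Sp.conj {p a b : ℝ} {e g : Equiv.Perm ℝ} (he : e ∈ Sp p a b) (hg : g ∈ Pd p) :
    g * e * g⁻¹ ∈ Sp p (g a) (g b) := by
  refine ⟨(Pd p).mul_mem ((Pd p).mul_mem hg he.1) ((Pd p).inv_mem hg), fun x hx1 hx2 => ?_⟩
  simp only [Equiv.Perm.mul_apply]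
  rw [he.2, papply_inv]
  · rw [← Dg.apply_le hg.1, papply_inv]; exact hx1
  · rw [← Dg.apply_le hg.1, papply_inv, hg.2]; exact hx2

theorem Sp.commute {p α β γ δ : ℝ} (hp : 0 < p) (h1 : α ≤ β) (h2 : β ≤ γ) (h3 : γ ≤ δ)
    (h4 : δ ≤ α + p) {a b : Equiv.Perm ℝ} (ha : a ∈ Sp p α β) (hb : b ∈ Sp p γ δ) :
    Commute a b := by
  have haP := ha.1
  have hbP := hb.1
  have ma := Dg.strictMono haP.1
  have mb := Dg.strictMono hbP.1
  refine Pd.ext hp ((Pd p).mul_mem haP hbP) ((Pd p).mul_mem hbP haP) (a := α) ?_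
  intro x hx1 hx2
  simp only [Equiv.Perm.mul_apply]
  have haα : a α = α := Sp.fix' ha (by linarith) le_rfl
  have haβ : a β = β := ha.2 β le_rfl (by linarith)
  have hbβ : b β = β := Sp.fix' hb (by linarith) h2
  have hbαp : b (α + p) = α + p := hb.2 _ h4 (by linarith)
  rcases le_total x β with hx | hx
  · have e1 : b x = x := Sp.fix' hb (by linarith) (hx.trans h2)
    rw [e1]
    have k1 : α ≤ a x := by rw [← haα]; exact ma.monotone hx1
    have k2 : a x ≤ β := by rw [← haβ]; exact ma.monotone hx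
    rw [Sp.fix' hb (by linarith) (k2.trans h2)]
  · rw [ha.2 x hx hx2]
    have k1 : β ≤ b x := by rw [← hbβ]; exact mb.monotone hx
    have k2 : b x ≤ α + p := by rw [← hbαp]; exact mb.monotone hx2
    rw [ha.2 _ k1 k2]

/-- Periodic extension of a compactly supported diffeomorphism. -/
theorem Su.extend {p a b : ℝ} (hab : a ≤ b) (hbp : b < a + p) {e : Equiv.Perm ℝ}
    (he : e ∈ Su a b) : ∃ f ∈ Sp p a b, ∀ x, a ≤ x → x ≤ a + p → f x = e x := by
  obtain ⟨f, hf, hfp, hfe⟩ := perExt (Dg.si he.1) (c := (a + (b - p)) / 2) (e := (a + p - b) / 2)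
    (p := p) (by linarith) (by linarith) (by
      intro x hx1 hx2
      rw [Su.fix_right he (x := x + p) (by linarith), Su.fix_left he (x := x) (by linarith)])
  have hfe' : ∀ x, a ≤ x → x ≤ a + p → f x = e x := by
    intro x hx1 hx2
    rcases le_total x ((a + (b - p)) / 2 + p) with h | h
    · exact hfe x (by linarith) h
    · have h1 := hfp (x - p)
      rw [sub_add_cancel] at h1
      rw [h1, hfe (x - p) (by linarith) (by linarith), Su.fix_left he (x := x - p) (by linarith),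
        Su.fix_right he (x := x) (by linarith)]
      ring
  refine ⟨f, ⟨⟨hf, hfp⟩, fun x hx1 hx2 => ?_⟩, hfe'⟩
  rw [hfe' x (by linarith) hx2, Su.fix_right he hx1]

/-- Restriction to one period of a periodic diffeomorphism supported in `[u, v] + p ℤ`. -/
theorem Sp.restrict {p a b u v : ℝ} (hau : a < u) (huv : u ≤ v) (hvb : v < b) (hbp : b < a + p)
    {f : Equiv.Perm ℝ} (hf : f ∈ Sp p u v) :
    ∃ e ∈ Su u v, ∀ x, a ≤ x → x ≤ a + p → f x = e x := by
  obtain ⟨w₁, hw₁, h1, h2⟩ := glueD Dg.one_mem hf.1.1 hau (by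
    intro x hx1 hx2
    rw [Sp.fix' hf (by linarith) hx2]; rfl)
  obtain ⟨w₂, hw₂, h3, h4⟩ := glueD hw₁ Dg.one_mem hvb (by
    intro x hx1 hx2
    rw [h2 x (by show a ≤ x; linarith), hf.2 x hx1 (by linarith)]; rfl)
  refine ⟨w₂, ⟨hw₂, fun x hx => ?_⟩, fun x hx1 hx2 => ?_⟩
  · by_cases hxu : x < u
    · rw [h3 x (by linarith), h1 x hxu.le]; rfl
    · have : v < x := by
        by_contra h
        exact hx ⟨not_lt.1 hxu, not_lt.1 h⟩
      rw [h4 x this.le]; rfl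
  · rcases le_total x b with h | h
    · rw [h3 x h, h2 x hx1]
    · rw [h4 x (by show v ≤ x; linarith), hf.2 x (by linarith) (by linarith)]; rfl

theorem final_geo {F B H0 G0 : Equiv.Perm ℝ} (hF : F ∈ Pd 4) (hB : B ∈ Pd 4) (hH0 : H0 ∈ Pd 4)
    (hG0 : G0 ∈ Pd 4) (hconj : G0 * H0 * G0⁻¹ = B) {d u v : ℝ} (hdu : d < u) (huv : u ≤ v)
    (hvd : v < B d) (h14 : (B ^ 14) d ≤ d + 4)
    (hFB : ∀ x, v ≤ x → x ≤ u + 4 → F (H0 x) = B x)
    (hE4 : ∀ x, B d ≤ x → x ≤ (B ^ 7) d → F x = (B ^ 8) x) :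
    ∃ C ∈ Pd 4, ∃ H ∈ Pd 4, F = ⁅C, H⁆ := by
  have mB := Dg.strictMono hB.1
  have hdB : d < B d := by linarith
  -- monotonicity of the orbit
  have hstep : ∀ j : ℕ, (B ^ j) d ≤ (B ^ (j + 1)) d := by
    intro j
    rw [pow_succ, Equiv.Perm.mul_apply]
    exact (Dg.strictMono (Dg.pow_mem hB.1 j)).monotone hdB.le
  have horb : Monotone fun j : ℕ => (B ^ j) d := monotone_nat_of_le_succ hstep
  have horb' : ∀ i j : ℕ, i ≤ j → (B ^ i) d ≤ (B ^ j) d := fun i j h => horb h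
  have hB1 : (B ^ 1) d = B d := by rw [pow_one]
  have hB2lt : B d < (B ^ 2) d := by
    rw [pow_two, Equiv.Perm.mul_apply]; exact mB hdB
  have hBd4 : B d < d + 4 := lt_of_lt_of_le hB2lt ((horb' 2 14 (by norm_num)).trans h14)
  set Ψ : Equiv.Perm ℝ := B⁻¹ * F * H0 with hΨ
  have hΨP : Ψ ∈ Pd 4 := (Pd 4).mul_mem ((Pd 4).mul_mem ((Pd 4).inv_mem hB) hF) hH0
  have hΨS : Ψ ∈ Sp 4 u v := by
    refine ⟨hΨP, fun x hx1 hx2 => ?_⟩
    rw [hΨ, Equiv.Perm.mul_apply, Equiv.Perm.mul_apply, hFB x hx1 hx2, pinv_apply]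
  have hFH : F * H0 = B * Ψ := by rw [hΨ]; group
  have hΨS' : Ψ ∈ Sp 4 d (B d) := Sp_mono hdu.le hvd.le hΨS
  -- commutation
  have hcomm : ∀ m, 1 ≤ m → m ≤ 13 → ∀ a ∈ Sp 4 d (B d), ∀ b ∈ Sp 4 d (B d),
      Commute (B ^ m * a * (B ^ m)⁻¹) b := by
    intro m hm1 hm2 a ha b hb
    have h1 := Sp.conj ha ((Pd 4).pow_mem hB m)
    have h2 : (B ^ m) (B d) = (B ^ (m + 1)) d := by rw [pow_succ, Equiv.Perm.mul_apply]
    rw [h2] at h1
    refine (Sp.commute (by norm_num) hdB.le ?_ (hstep m) ?_ hb h1).symm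
    · rw [← hB1]; exact horb' 1 m hm1
    · exact (horb' (m + 1) 14 (by omega)).trans h14
  have hθfix : ∀ x, B d ≤ x → x ≤ (B ^ 7) d → ((B ^ 7)⁻¹ * H0⁻¹) x = x := by
    intro x hx1 hx2
    rw [Equiv.Perm.mul_apply, Equiv.Perm.inv_eq_iff_eq, Equiv.Perm.inv_eq_iff_eq]
    have hF' := Dg.strictMono hF.1
    apply hF'.injective
    have m7 := (Dg.strictMono (Dg.pow_mem hB.1 7)).monotone
    have h1 : (B ^ 7) (B d) ≤ (B ^ 7) x := m7 hx1
    have h2 : (B ^ 7) x ≤ (B ^ 7) ((B ^ 7) d) := m7 hx2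
    rw [← Equiv.Perm.mul_apply, ← pow_add] at h2
    rw [← Equiv.Perm.mul_apply, ← pow_succ] at h1
    have h3 : B d ≤ (B ^ (7 + 1)) d := by rw [← hB1]; exact horb' 1 8 (by norm_num)
    have h4 : (B ^ (7 + 7)) d ≤ d + 4 := h14
    rw [hFB _ (by linarith) (by linarith), hE4 x hx1 hx2, show (8 : ℕ) = 7 + 1 by norm_num,
      pow_succ', Equiv.Perm.mul_apply]
  have h7 : ∀ i, 1 ≤ i → i ≤ 6 → ∀ a ∈ Sp 4 d (B d),
      Commute ((B ^ 7)⁻¹ * H0⁻¹) (B ^ i * a * (B ^ i)⁻¹) := by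
    intro i hi1 hi2 a ha
    have h1 := Sp.conj ha ((Pd 4).pow_mem hB i)
    have h2 : (B ^ i) (B d) = (B ^ (i + 1)) d := by rw [pow_succ, Equiv.Perm.mul_apply]
    rw [h2] at h1
    have h3 : B ^ i * a * (B ^ i)⁻¹ ∈ Sp 4 (B d) ((B ^ 7) d) := by
      refine Sp_mono ?_ ?_ h1
      · rw [← hB1]; exact horb' 1 i hi1
      · exact horb' (i + 1) 7 (by omega)
    have h17 : B d ≤ (B ^ 7) d := by rw [← hB1]; exact horb' 1 7 (by norm_num)
    have h714 : (B ^ 7) d ≤ d + 4 := (horb' 7 14 (by norm_num)).trans h14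
    have h4 : (B ^ 7)⁻¹ * H0⁻¹ ∈ Sp 4 ((B ^ 7) d) (B d + 4) := by
      have hP : (B ^ 7)⁻¹ * H0⁻¹ ∈ Pd 4 :=
        (Pd 4).mul_mem ((Pd 4).inv_mem ((Pd 4).pow_mem hB 7)) ((Pd 4).inv_mem hH0)
      refine ⟨hP, fun x hx1 hx2 => ?_⟩
      have h5 := hθfix (x - 4) (by linarith) (by linarith)
      rw [Pd.per_sub hP] at h5
      linarith
    exact (Sp.commute (by norm_num) h17 le_rfl (by linarith) le_rfl h3 h4).symm
  -- Theorem P
  obtain ⟨ψ, hψ, hψΨ⟩ := Sp.restrict (a := d) (b := B d) hdu huv hvd hBd4 hΨS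
  obtain ⟨F₁, hF₁, g₁, hg₁, P₁, hP₁, Q₁, hQ₁, hprod⟩ :=
    theoremP hdu huv hvd ((Su u v).inv_mem hψ)
  -- transfer
  have hR_mul : ∀ {e f E F' : Equiv.Perm ℝ}, e ∈ Su d (B d) → f ∈ Su d (B d) →
      (∀ x, d ≤ x → x ≤ d + 4 → E x = e x) → (∀ x, d ≤ x → x ≤ d + 4 → F' x = f x) →
      ∀ x, d ≤ x → x ≤ d + 4 → (E * F') x = (e * f) x := by
    intro e f E F' he hf hE hF' x hx1 hx2
    simp only [Equiv.Perm.mul_apply]
    rw [hF' x hx1 hx2]
    apply hE
    · rw [← Su.fix_left hf (x := d) le_rfl]; exact (Dg.strictMono hf.1).monotone hx1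
    · rw [← Su.fix_right hf (x := d + 4) hBd4.le]; exact (Dg.strictMono hf.1).monotone hx2
  have hR_inv : ∀ {e E : Equiv.Perm ℝ}, e ∈ Su d (B d) →
      (∀ x, d ≤ x → x ≤ d + 4 → E x = e x) →
      ∀ x, d ≤ x → x ≤ d + 4 → E⁻¹ x = e⁻¹ x := by
    intro e E he hE x hx1 hx2
    rw [Equiv.Perm.inv_eq_iff_eq, hE, papply_inv]
    · have h := (Dg.strictMono (Dg.inv_mem he.1)).monotone hx1
      rwa [Su.fix_left ((Su d (B d)).inv_mem he) (x := d) le_rfl] at h
    · have h := (Dg.strictMono (Dg.inv_mem he.1)).monotone hx2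
      rwa [Su.fix_right ((Su d (B d)).inv_mem he) (x := d + 4) hBd4.le] at h
  have hR_comm : ∀ {e f E F' : Equiv.Perm ℝ}, e ∈ Su d (B d) → f ∈ Su d (B d) →
      (∀ x, d ≤ x → x ≤ d + 4 → E x = e x) → (∀ x, d ≤ x → x ≤ d + 4 → F' x = f x) →
      ∀ x, d ≤ x → x ≤ d + 4 → ⁅E, F'⁆ x = ⁅e, f⁆ x := by
    intro e f E F' he hf hE hF'
    rw [commutatorElement_def, commutatorElement_def]
    have ie := (Su d (B d)).inv_mem he
    have iF := (Su d (B d)).inv_mem hf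
    exact hR_mul ((Su d (B d)).mul_mem ((Su d (B d)).mul_mem he hf) ie) iF
      (hR_mul ((Su d (B d)).mul_mem he hf) ie (hR_mul he hf hE hF') (hR_inv he hE))
      (hR_inv hf hF')
  obtain ⟨F₂, hF₂, hF₂'⟩ := Su.extend hdB.le hBd4 hF₁
  obtain ⟨g₂, hg₂, hg₂'⟩ := Su.extend hdB.le hBd4 hg₁
  obtain ⟨P₂, hP₂, hP₂'⟩ := Su.extend hdB.le hBd4 hP₁
  obtain ⟨Q₂, hQ₂, hQ₂'⟩ := Su.extend hdB.le hBd4 hQ₁
  have hψd : ψ ∈ Su d (B d) := Su_mono hdu.le hvd.le hψ
  have hΨeq : Ψ⁻¹ = ⁅F₂, g₂⁆ * ⁅P₂, Q₂⁆ := by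
    have hcP : ∀ {e f : Equiv.Perm ℝ}, e ∈ Pd 4 → f ∈ Pd 4 → ⁅e, f⁆ ∈ Pd 4 := by
      intro e f he hf
      rw [commutatorElement_def]
      exact (Pd 4).mul_mem ((Pd 4).mul_mem ((Pd 4).mul_mem he hf) ((Pd 4).inv_mem he))
        ((Pd 4).inv_mem hf)
    have hcS : ∀ {e f : Equiv.Perm ℝ}, e ∈ Su d (B d) → f ∈ Su d (B d) →
        ⁅e, f⁆ ∈ Su d (B d) := by
      intro e f he hf
      rw [commutatorElement_def]
      exact (Su d (B d)).mul_mem ((Su d (B d)).mul_mem ((Su d (B d)).mul_mem he hf)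
        ((Su d (B d)).inv_mem he)) ((Su d (B d)).inv_mem hf)
    refine Pd.ext (a := d) (by norm_num) ((Pd 4).inv_mem hΨP)
      ((Pd 4).mul_mem (hcP hF₂.1 hg₂.1) (hcP hP₂.1 hQ₂.1)) ?_
    intro x hx1 hx2
    rw [hR_inv hψd hψΨ x hx1 hx2, hprod]
    exact (hR_mul (hcS hF₁ hg₁) (hcS hP₁ hQ₁) (hR_comm hF₁ hg₁ hF₂' hg₂')
      (hR_comm hP₁ hQ₁ hP₂' hQ₂') x hx1 hx2).symm
  exact final_group (Sp_le_Pr 4 d (B d)) hB hH0 hG0 hconj hFH hΨS' hcomm h7 hQ₂ hP₂ hg₂ hF₂ hΨeq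

end W4ec

end

section

/-!
# Periodic diffeomorphisms with two intervals of fixed points, with standard dynamics in between
-/

open Set Filter Topology
open scoped ContDiff commutatorElement

namespace W4ec

/-- `H` is `g s⁻¹ g⁻¹` on `[α₁, α₂]`, the identity on `[α₂, α₃]`, `g' s g'⁻¹` on `[α₃, α₄]`,
the identity on `[α₄, α₁ + p]`. -/
structure Bump2 (p : ℝ) (s g g' : Equiv.Perm ℝ) (H : Equiv.Perm ℝ) : Prop where
  mem : H ∈ Pd p
  e12 : ∀ x, g 0 ≤ x → x ≤ g 1 → H x = g (s⁻¹ (g⁻¹ x))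
  e23 : ∀ x, g 1 ≤ x → x ≤ g' 0 → H x = x
  e34 : ∀ x, g' 0 ≤ x → x ≤ g' 1 → H x = g' (s (g'⁻¹ x))
  e41 : ∀ x, g' 1 ≤ x → x ≤ g 0 + p → H x = x

theorem exists_Bump2 {p : ℝ} {s g g' : Equiv.Perm ℝ} (hs : s ∈ Su 0 1) (hg : g ∈ Dg)
    (hg' : g' ∈ Dg) (h23 : g 1 ≤ g' 0) (h41 : g' 1 < g 0 + p) :
    ∃ H, Bump2 p s g g' H := by
  have h12 : g 0 < g 1 := Dg.strictMono hg zero_lt_one
  have h34 : g' 0 < g' 1 := Dg.strictMono hg' zero_lt_one
  have hp : 0 < p := by linarith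
  have hw1 : g * s⁻¹ * g⁻¹ ∈ Su (g 0) (g 1) := Su.conj ((Su 0 1).inv_mem hs) hg
  have hw2 : g' * s * g'⁻¹ ∈ Su (g' 0) (g' 1) := Su.conj hs hg'
  set w : Equiv.Perm ℝ := (g * s⁻¹ * g⁻¹) * (g' * s * g'⁻¹) with hw
  have hwD : w ∈ Dg := Dg.mul_mem hw1.1 hw2.1
  have hwL : ∀ x ≤ g 0, w x = x := by
    intro x hx
    rw [hw, Equiv.Perm.mul_apply, Su.fix_left hw2 (by linarith), Su.fix_left hw1 hx]
  have hwR : ∀ x ≥ g' 1, w x = x := by
    intro x hx
    rw [hw, Equiv.Perm.mul_apply, Su.fix_right hw2 hx, Su.fix_right hw1 (by linarith)]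
  obtain ⟨H, hH, hHp, hHw⟩ := perExt (Dg.si hwD) (c := (g 0 + (g' 1 - p)) / 2)
    (e := (g 0 + p - g' 1) / 2) hp (by linarith) (by
      intro x hx1 hx2
      rw [hwR (x + p) (by show g' 1 ≤ x + p; linarith), hwL x (by linarith)])
  have hHw' : ∀ x, g 0 ≤ x → x ≤ g 0 + p → H x = w x := by
    intro x hx1 hx2
    rcases le_total x ((g 0 + (g' 1 - p)) / 2 + p) with h | h
    · exact hHw x (by linarith) h
    · have h1 := hHp (x - p)
      rw [sub_add_cancel] at h1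
      rw [h1, hHw (x - p) (by linarith) (by linarith), hwL (x - p) (by linarith),
        hwR x (by show g' 1 ≤ x; linarith)]
      ring
  refine ⟨H, ⟨hH, hHp⟩, ?_, ?_, ?_, ?_⟩
  · intro x hx1 hx2
    rw [hHw' x hx1 (by linarith), hw, Equiv.Perm.mul_apply, Su.fix_left hw2 (hx2.trans h23)]
    rfl
  · intro x hx1 hx2
    rw [hHw' x (by linarith) (by linarith), hw, Equiv.Perm.mul_apply, Su.fix_left hw2 hx2,
      Su.fix_right hw1 hx1]
  · intro x hx1 hx2
    rw [hHw' x (by linarith) (by linarith), hw, Equiv.Perm.mul_apply]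
    rw [Su.fix_right hw1]
    · rfl
    · calc g 1 ≤ g' 0 := h23
        _ = (g' * s * g'⁻¹) (g' 0) := (Su.fix_left hw2 le_rfl).symm
        _ ≤ _ := (Dg.strictMono hw2.1).monotone hx1
  · intro x hx1 hx2
    rw [hHw' x (by linarith) hx2, hwR x hx1]

/-- Two such diffeomorphisms are conjugate. -/
theorem Bump2.conj {p : ℝ} {s g g' k k' H B : Equiv.Perm ℝ} (hs : s ∈ Su 0 1)
    (hg : g ∈ Dg) (hg' : g' ∈ Dg) (hk : k ∈ Dg) (hk' : k' ∈ Dg)
    (hH : Bump2 p s g g' H) (hB : Bump2 p s k k' B)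
    (h23 : g 1 < g' 0) (h41 : g' 1 < g 0 + p) (l23 : k 1 < k' 0) (l41 : k' 1 < k 0 + p) :
    ∃ G ∈ Pd p, G * H * G⁻¹ = B := by
  have h12 : g 0 < g 1 := Dg.strictMono hg zero_lt_one
  have h34 : g' 0 < g' 1 := Dg.strictMono hg' zero_lt_one
  have l12 : k 0 < k 1 := Dg.strictMono hk zero_lt_one
  have l34 : k' 0 < k' 1 := Dg.strictMono hk' zero_lt_one
  have hp : 0 < p := by linarith
  -- the three parts
  set X1 : Equiv.Perm ℝ := k' * g'⁻¹ with hX1
  set X0 : Equiv.Perm ℝ := tr (-p) * X1 * tr p with hX0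
  set Y : Equiv.Perm ℝ := k * g⁻¹ with hY
  have hX1D : X1 ∈ Dg := Dg.mul_mem hk' (Dg.inv_mem hg')
  have hX0D : X0 ∈ Dg := Dg.mul_mem (Dg.mul_mem (tr_mem _) hX1D) (tr_mem _)
  have hYD : Y ∈ Dg := Dg.mul_mem hk (Dg.inv_mem hg)
  have hX0a : ∀ x, X0 x = X1 (x + p) - p := by
    intro x; rw [hX0, sub_eq_add_neg]; rfl
  have hX1g : ∀ t, X1 (g' t) = k' t := by
    intro t; rw [hX1, Equiv.Perm.mul_apply, pinv_apply]
  have hYg : ∀ t, Y (g t) = k t := by
    intro t; rw [hY, Equiv.Perm.mul_apply, pinv_apply]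
  obtain ⟨w₁, hw₁, a1, a2⟩ := interpD hX0D hYD (a := g' 1 - p) (b := g 0) (by linarith) (by
    rw [hX0a, sub_add_cancel, hX1g, hYg]; linarith)
  obtain ⟨w, hw, b1, b2⟩ := interpD hw₁ hX1D h23 (by
    rw [a2 (g 1) h12.le, hX1g, hYg]; exact l23)
  -- values of `w`
  have w0 : ∀ x ≤ g' 1 - p, w x = X0 x := by
    intro x hx; rw [b1 x (by linarith), a1 x hx]
  have wY : ∀ x, g 0 ≤ x → x ≤ g 1 → w x = Y x := by
    intro x hx1 hx2; rw [b1 x hx2, a2 x hx1]
  have w1 : ∀ x ≥ g' 0, w x = X1 x := b2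
  obtain ⟨G, hG, hGp, hGw⟩ := perExt (Dg.si hw) (c := (g' 0 + g' 1) / 2 - p)
    (e := (g' 1 - g' 0) / 2) hp (by linarith) (by
      intro x hx1 hx2
      rw [w1 (x + p) (by show g' 0 ≤ x + p; linarith), w0 x (by linarith), hX0a]; ring)
  have hGw' : ∀ x, g' 1 - p ≤ x → x ≤ g' 1 → G x = w x := by
    intro x hx1 hx2
    rcases le_total x ((g' 0 + g' 1) / 2 - p + p) with h | h
    · exact hGw x (by linarith) h
    · have h1 := hGp (x - p)
      rw [sub_add_cancel] at h1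
      rw [h1, hGw (x - p) (by linarith) (by linarith), w0 (x - p) (by linarith), hX0a,
        sub_add_cancel, w1 x (by show g' 0 ≤ x; linarith)]
      rw [sub_add_cancel]
  have hGP : G ∈ Pd p := ⟨hG, hGp⟩
  have mG := Dg.strictMono hG
  refine ⟨G, hGP, ?_⟩
  have hGg0 : G (g 0) = k 0 := by rw [hGw' _ (by linarith) (by linarith), wY _ le_rfl h12.le, hYg]
  have hGg1 : G (g 1) = k 1 := by rw [hGw' _ (by linarith) (by linarith), wY _ h12.le le_rfl, hYg]
  have hGg'0 : G (g' 0) = k' 0 := by rw [hGw' _ (by linarith) (by linarith), w1 _ le_rfl, hX1g]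
  have hGg'1 : G (g' 1) = k' 1 := by
    rw [hGw' _ (by linarith) le_rfl, w1 _ h34.le, hX1g]
  have hmain : G * H = B * G := by
    refine Pd.ext hp ((Pd p).mul_mem hGP hH.mem) ((Pd p).mul_mem hB.mem hGP) (a := g' 1 - p) ?_
    intro x hx1 hx2
    rw [sub_add_cancel] at hx2
    simp only [Equiv.Perm.mul_apply]
    rcases le_total x (g 0) with hx | hx
    · have e1 : H x = x := by
        have h1 := hH.e41 (x + p) (by linarith) (by linarith)
        rw [hH.mem.2] at h1; linarith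
      have e2 : B (G x) = G x := by
        have h2 : k' 1 - p ≤ G x := by
          rw [← hGg'1, ← Pd.per_sub hGP]; exact mG.monotone hx1
        have h3 : G x ≤ k 0 := by rw [← hGg0]; exact mG.monotone hx
        have h1 := hB.e41 (G x + p) (by linarith) (by linarith)
        rw [hB.mem.2] at h1; linarith
      rw [e1, e2]
    rcases le_total x (g 1) with hx' | hx'
    · have e0 : G x = Y x := by rw [hGw' x hx1 hx2, wY x hx hx']
      have h2 : k 0 ≤ G x := by rw [← hGg0]; exact mG.monotone hx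
      have h3 : G x ≤ k 1 := by rw [← hGg1]; exact mG.monotone hx'
      rw [hB.e12 _ h2 h3, hH.e12 x hx hx', e0]
      have hginv : s⁻¹ (g⁻¹ x) ∈ Icc (0:ℝ) 1 := by
        have ms := (Dg.strictMono (Dg.inv_mem hs.1)).monotone
        have h4 : 0 ≤ g⁻¹ x := by rw [← Dg.apply_le hg, papply_inv]; exact hx
        have h5 : g⁻¹ x ≤ 1 := by rw [← Dg.apply_le hg, papply_inv]; exact hx'
        constructor
        · have := ms h4
          rwa [Su.fix_left ((Su 0 1).inv_mem hs) le_rfl] at this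
        · have := ms h5
          rwa [Su.fix_right ((Su 0 1).inv_mem hs) le_rfl] at this
      have h4 : g 0 ≤ g (s⁻¹ (g⁻¹ x)) := (Dg.strictMono hg).monotone hginv.1
      have h5 : g (s⁻¹ (g⁻¹ x)) ≤ g 1 := (Dg.strictMono hg).monotone hginv.2
      rw [hGw' _ (by linarith) (by linarith), wY _ h4 h5, hYg]
      have h6 : Y x = k (g⁻¹ x) := rfl
      rw [h6, pinv_apply]
    rcases le_total x (g' 0) with hx'' | hx''
    · rw [hH.e23 x hx' hx'']
      have h2 : k 1 ≤ G x := by rw [← hGg1]; exact mG.monotone hx'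
      have h3 : G x ≤ k' 0 := by rw [← hGg'0]; exact mG.monotone hx''
      rw [hB.e23 _ h2 h3]
    · have e0 : G x = X1 x := by rw [hGw' x hx1 hx2, w1 x hx'']
      have h2 : k' 0 ≤ G x := by rw [← hGg'0]; exact mG.monotone hx''
      have h3 : G x ≤ k' 1 := by rw [← hGg'1]; exact mG.monotone hx2
      rw [hB.e34 _ h2 h3, hH.e34 x hx'' hx2, e0]
      have hginv : s (g'⁻¹ x) ∈ Icc (0:ℝ) 1 := by
        have ms := (Dg.strictMono hs.1).monotone
        have h4 : 0 ≤ g'⁻¹ x := by rw [← Dg.apply_le hg', papply_inv]; exact hx''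
        have h5 : g'⁻¹ x ≤ 1 := by rw [← Dg.apply_le hg', papply_inv]; exact hx2
        constructor
        · have := ms h4
          rwa [Su.fix_left hs le_rfl] at this
        · have := ms h5
          rwa [Su.fix_right hs le_rfl] at this
      have h4 : g' 0 ≤ g' (s (g'⁻¹ x)) := (Dg.strictMono hg').monotone hginv.1
      have h5 : g' (s (g'⁻¹ x)) ≤ g' 1 := (Dg.strictMono hg').monotone hginv.2
      rw [hGw' _ (by linarith) h5, w1 _ h4, hX1g]
      have h6 : X1 x = k' (g'⁻¹ x) := rfl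
      rw [h6, pinv_apply]
  rw [hmain]; group

end W4ec

end

section

/-!
# The standard flat diffeomorphism of `[0, 1]`, orbits
-/

open Set Filter Topology
open scoped ContDiff commutatorElement

namespace W4ec

/-- `s` is the diffeomorphism of `[0, 1]` which is the translation by one in the chart `om`. -/
structure Std (om : ℝ → ℝ) (s : Equiv.Perm ℝ) : Prop where
  si : SI om
  rng : range om = Ioo 0 1
  mem : s ∈ Su 0 1
  eq : ∀ t, s (om t) = om (t + 1)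

theorem exists_Std : ∃ (om : ℝ → ℝ) (s : Equiv.Perm ℝ), Std om s := by
  obtain ⟨om, hom, homr, homT⟩ := exists_omega
  obtain ⟨e, he, he', he''⟩ := homT (tr 1) (tr_mem 1) ⟨0, 1, 1, fun x _ => rfl, fun x _ => rfl⟩
  exact ⟨om, e, hom, homr, ⟨he, fun x hx => he'' x (fun h => hx ⟨h.1.le, h.2.le⟩)⟩, he'⟩

namespace Std

variable {om : ℝ → ℝ} {s : Equiv.Perm ℝ}

theorem pos (h : Std om s) (t : ℝ) : 0 < om t := by
  have : om t ∈ Ioo (0:ℝ) 1 := by rw [← h.rng]; exact mem_range_self t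
  exact this.1

theorem lt_one (h : Std om s) (t : ℝ) : om t < 1 := by
  have : om t ∈ Ioo (0:ℝ) 1 := by rw [← h.rng]; exact mem_range_self t
  exact this.2

theorem surj (h : Std om s) {x : ℝ} (h0 : 0 < x) (h1 : x < 1) : ∃ t, om t = x := by
  have : x ∈ range om := by rw [h.rng]; exact ⟨h0, h1⟩
  exact this

theorem lt (h : Std om s) {t u : ℝ} (htu : t < u) : om t < om u := h.si.strictMono htu

theorem inj (h : Std om s) {t u : ℝ} (htu : om t = om u) : t = u := h.si.strictMono.injective htu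

theorem pow (h : Std om s) (n : ℕ) (t : ℝ) : (s ^ n) (om t) = om (t + n) := by
  induction n with
  | zero => simp
  | succ n ih =>
    rw [pow_succ', Equiv.Perm.mul_apply, ih, h.eq]
    push_cast
    rw [add_assoc]

theorem inv (h : Std om s) (t : ℝ) : s⁻¹ (om t) = om (t - 1) := by
  rw [Equiv.Perm.inv_eq_iff_eq, h.eq, sub_add_cancel]

theorem powinv (h : Std om s) (n : ℕ) (t : ℝ) : (s ^ n)⁻¹ (om t) = om (t - n) := by
  rw [Equiv.Perm.inv_eq_iff_eq, h.pow, sub_add_cancel]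

theorem gt (h : Std om s) {x : ℝ} (h0 : 0 < x) (h1 : x < 1) : x < s x := by
  obtain ⟨t, rfl⟩ := h.surj h0 h1
  rw [h.eq]
  exact h.lt (by linarith)

theorem inv_lt (h : Std om s) {x : ℝ} (h0 : 0 < x) (h1 : x < 1) : s⁻¹ x < x := by
  obtain ⟨t, rfl⟩ := h.surj h0 h1
  rw [h.inv]
  exact h.lt (by linarith)

theorem mono (h : Std om s) : StrictMono s := Dg.strictMono h.mem.1

theorem s0 (h : Std om s) : s 0 = 0 := Su.fix_left h.mem le_rfl

theorem s1 (h : Std om s) : s 1 = 1 := Su.fix_right h.mem le_rfl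

end Std

theorem reach_up {φ : Equiv.Perm ℝ} (hφ : φ ∈ Dg) {α β : ℝ}
    (h : ∀ x, α ≤ x → x ≤ β → x < φ x) : ∃ n : ℕ, β < (φ ^ n) α := by
  by_contra hcon
  push Not at hcon
  have hge : ∀ n : ℕ, α ≤ (φ ^ n) α := by
    intro n
    induction n with
    | zero => simp
    | succ n ih =>
      rw [pow_succ', Equiv.Perm.mul_apply]
      exact ih.trans (h _ ih (hcon n)).le
  have hmono : Monotone fun n : ℕ => (φ ^ n) α := by
    apply monotone_nat_of_le_succ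
    intro n
    have := h _ (hge n) (hcon n)
    rw [pow_succ', Equiv.Perm.mul_apply]
    exact this.le
  have hbdd : BddAbove (range fun n : ℕ => (φ ^ n) α) := ⟨β, by rintro _ ⟨n, rfl⟩; exact hcon n⟩
  have hlim := tendsto_atTop_ciSup hmono hbdd
  set L := ⨆ n : ℕ, (φ ^ n) α with hL
  have hL1 : α ≤ L := ge_of_tendsto' hlim hge
  have hL2 : L ≤ β := le_of_tendsto' hlim hcon
  have h1 : Tendsto (fun n : ℕ => φ ((φ ^ n) α)) atTop (𝓝 (φ L)) :=
    ((Dg.continuous hφ).tendsto L).comp hlim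
  have h2 : Tendsto (fun n : ℕ => φ ((φ ^ n) α)) atTop (𝓝 L) := by
    have := hlim.comp (tendsto_add_atTop_nat 1)
    refine this.congr ?_
    intro n
    simp only [Function.comp_apply, pow_succ', Equiv.Perm.mul_apply]
  have h3 := tendsto_nhds_unique h1 h2
  have h4 := h L hL1 hL2
  linarith

theorem reach_down {φ : Equiv.Perm ℝ} (hφ : φ ∈ Dg) {α β : ℝ}
    (h : ∀ x, α ≤ x → x ≤ β → φ x < x) : ∃ n : ℕ, (φ ^ n) β < α := by
  by_contra hcon
  push Not at hcon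
  have hge : ∀ n : ℕ, (φ ^ n) β ≤ β := by
    intro n
    induction n with
    | zero => simp
    | succ n ih =>
      rw [pow_succ', Equiv.Perm.mul_apply]
      exact (h _ (hcon n) ih).le.trans ih
  have hmono : Antitone fun n : ℕ => (φ ^ n) β := by
    apply antitone_nat_of_succ_le
    intro n
    have := h _ (hcon n) (hge n)
    rw [pow_succ', Equiv.Perm.mul_apply]
    exact this.le
  have hbdd : BddBelow (range fun n : ℕ => (φ ^ n) β) := ⟨α, by rintro _ ⟨n, rfl⟩; exact hcon n⟩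
  have hlim := tendsto_atTop_ciInf hmono hbdd
  set L := ⨅ n : ℕ, (φ ^ n) β with hL
  have hL1 : L ≤ β := le_of_tendsto' hlim hge
  have hL2 : α ≤ L := ge_of_tendsto' hlim hcon
  have h1 : Tendsto (fun n : ℕ => φ ((φ ^ n) β)) atTop (𝓝 (φ L)) :=
    ((Dg.continuous hφ).tendsto L).comp hlim
  have h2 : Tendsto (fun n : ℕ => φ ((φ ^ n) β)) atTop (𝓝 L) := by
    have := hlim.comp (tendsto_add_atTop_nat 1)
    refine this.congr ?_
    intro n
    simp only [Function.comp_apply, pow_succ', Equiv.Perm.mul_apply]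
  have h3 := tendsto_nhds_unique h1 h2
  have h4 := h L hL2 hL1
  linarith

end W4ec

end
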