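import Mathlib
import Pool.Agent.Work.MP_4ec80c_gt.Bd.B05

/-! Bundle of small proof modules (one section per former module). -/

section

/-!
# First part of the construction
-/

open Set Filter Topology
open scoped ContDiff commutatorElement

namespace W4ec

/-- values of the normalised map -/
theorem F_vals {F : Equiv.Perm ℝ} (hF : F ∈ Pd 4)
    (hF1 : ∀ x, -(1/4) ≤ x → x ≤ 5/4 → F x = x + 1) :
    (∀ x, 15/4 ≤ x → x ≤ 21/4 → F x = x + 1) ∧
    (∀ x, 5/4 ≤ x → 9/4 ≤ F x) := by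
  constructor
  · intro x hx1 hx2
    have h1 := hF.2 (x - 4)
    rw [sub_add_cancel] at h1
    rw [h1, hF1 _ (by linarith) (by linarith)]; ring
  · intro x hx
    have h1 := (Dg.strictMono hF.1).monotone hx
    rw [hF1 _ (by norm_num) le_rfl] at h1
    linarith

theorem part_one {om : ℝ → ℝ} {s : Equiv.Perm ℝ} (hs : Std om s) {F : Equiv.Perm ℝ}
    (hF : F ∈ Pd 4) (hF1 : ∀ x, -(1/4) ≤ x → x ≤ 5/4 → F x = x + 1) :
    ∃ g₂ ∈ Dg, ∃ g₄ ∈ Dg, ∃ b₂ ∈ Dg, ∃ γ ∈ Dg,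
      g₂ 0 = 143/64 ∧ g₂ 1 = 31/8 ∧
      g₄ 0 = 138/64 ∧ g₄ (om 0) = 139/64 ∧ g₄ (om 1) = 141/64 ∧ g₄ 1 = 142/64 ∧
      (∀ x ≤ 4, b₂ x = γ (s (γ⁻¹ x))) ∧ γ 0 = 139/64 ∧ γ⁻¹ 4 < 1 ∧
      (∀ x, 141/64 ≤ x → x ≤ 142/64 → b₂ x = F (g₄ (s⁻¹ (g₄⁻¹ x)))) ∧
      (∀ x, 142/64 ≤ x → x ≤ 143/64 → b₂ x = F x) ∧
      (∀ x, 143/64 ≤ x → x ≤ 31/8 → b₂ x = F (g₂ (s (g₂⁻¹ x)))) ∧
      (∀ x, 31/8 ≤ x → x ≤ 4 → b₂ x = x + 1) := by
  obtain ⟨hFa, hFb⟩ := F_vals hF hF1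
  have mF := Dg.strictMono hF.1
  have ms := hs.mono
  -- `h_+`
  have hF31 : F (31/8) = 39/8 := by rw [hFa _ (by norm_num) (by norm_num)]; norm_num
  have hFinv : F⁻¹ (31/8) < 31/8 := by
    rw [← Dg.apply_lt hF.1, papply_inv, hF31]; norm_num
  have hFp : (143/64 : ℝ) < F (143/64) := by
    have := hFb (143/64) (by norm_num)
    linarith
  obtain ⟨xs, hxs1, hxs2⟩ : ∃ xs : ℝ, 143/64 < xs ∧ xs < min (F (143/64)) (31/8) :=
    exists_between (lt_min hFp (by norm_num))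
  rw [lt_min_iff] at hxs2
  obtain ⟨ys, hys1, hys2⟩ : ∃ ys : ℝ, max (F⁻¹ (31/8)) xs < ys ∧ ys < 31/8 :=
    exists_between (max_lt hFinv hxs2.2)
  rw [max_lt_iff] at hys1
  have hom0 : (0:ℝ) < om 0 := hs.pos 0
  have hom1 : om 1 < 1 := hs.lt_one 1
  have hom01 : om 0 < om 1 := hs.lt (by norm_num)
  obtain ⟨g₂, hg₂, g20, g2a, g2b, g21⟩ := pts4 (x₁ := 0) (x₂ := om 0) (x₃ := om 1) (x₄ := 1)
    (y₁ := 143/64) (y₂ := xs) (y₃ := ys) (y₄ := 31/8) hom0 hom01 hom1 hxs1 hys1.2 hys2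
  obtain ⟨g₄, hg₄, g40, g4a, g4b, g41⟩ := pts4 (x₁ := 0) (x₂ := om 0) (x₃ := om 1) (x₄ := 1)
    (y₁ := 138/64) (y₂ := 139/64) (y₃ := 141/64) (y₄ := 142/64) hom0 hom01 hom1
    (by norm_num) (by norm_num) (by norm_num)
  have hhp : g₂ * s * g₂⁻¹ ∈ Su (143/64) (31/8) := by
    have := Su.conj hs.mem hg₂
    rwa [g20, g21] at this
  have hhr : g₄ * s⁻¹ * g₄⁻¹ ∈ Su (138/64) (142/64) := by
    have := Su.conj ((Su 0 1).inv_mem hs.mem) hg₄
    rwa [g40, g41] at this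
  have mhp := Dg.strictMono hhp.1
  have mhr := Dg.strictMono hhr.1
  set bb : Equiv.Perm ℝ := F * (g₄ * s⁻¹ * g₄⁻¹) * (g₂ * s * g₂⁻¹) with hbb
  have hbbD : bb ∈ Dg := Dg.mul_mem (Dg.mul_mem hF.1 hhr.1) hhp.1
  have hbbL : ∀ x ≤ 143/64, bb x = F ((g₄ * s⁻¹ * g₄⁻¹) x) := by
    intro x hx
    rw [hbb, Equiv.Perm.mul_apply, Su.fix_left hhp hx]; rfl
  have hbb1 : ∀ x, 142/64 ≤ x → x ≤ 143/64 → bb x = F x := by
    intro x hx1 hx2
    rw [hbbL x hx2, Su.fix_right hhr hx1]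
  have hbb2 : ∀ x, 143/64 ≤ x → bb x = F ((g₂ * s * g₂⁻¹) x) := by
    intro x hx1
    rw [hbb, Equiv.Perm.mul_apply, Equiv.Perm.mul_apply, Su.fix_right hhr]
    have h1 : (143/64 : ℝ) ≤ (g₂ * s * g₂⁻¹) x := by
      rw [← Su.fix_left hhp (x := 143/64) le_rfl]
      exact mhp.monotone hx1
    exact le_trans (by norm_num) h1
  have hbb3 : ∀ x, 31/8 ≤ x → bb x = F x := by
    intro x hx1
    rw [hbb2 x (by linarith), Su.fix_right hhp hx1]
  -- `g₀`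
  obtain ⟨u, hu, hu0, hua⟩ := pts2 (x₁ := 0) (x₂ := om 0) (y₁ := 139/64) (y₂ := 141/64) hom0
    (by norm_num)
  have mu := Dg.strictMono hu
  set v : Equiv.Perm ℝ := bb * u * s⁻¹ with hv
  have hvD : v ∈ Dg := Dg.mul_mem (Dg.mul_mem hbbD hu) (Dg.inv_mem hs.mem.1)
  have hom0h : om 0 < om (1/2) := hs.lt (by norm_num)
  have homh0 : om (-(1/2)) < om 0 := hs.lt (by norm_num)
  have hval : 9/4 ≤ bb (u (om (-(1/2)))) := by
    have h1 : (139/64 : ℝ) ≤ u (om (-(1/2))) := by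
      rw [← hu0]; exact mu.monotone (hs.pos _).le
    have h2 : u (om (-(1/2))) ≤ 141/64 := by rw [← hua]; exact mu.monotone homh0.le
    rw [hbbL _ (by linarith)]
    apply hFb
    have h3 : (g₄ * s⁻¹ * g₄⁻¹) (138/64) ≤ (g₄ * s⁻¹ * g₄⁻¹) (u (om (-(1/2)))) :=
      mhr.monotone (by linarith)
    rw [Su.fix_left hhr le_rfl] at h3
    exact le_trans (by norm_num) h3
  obtain ⟨g₀, hg₀, g0L, g0R⟩ := interpD hu hvD hom0h (by
    rw [hv, Equiv.Perm.mul_apply, Equiv.Perm.mul_apply, hs.inv, hua]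
    rw [show (1/2 - 1 : ℝ) = -(1/2) by norm_num]
    linarith)
  have mg0 := Dg.strictMono hg₀
  have hg0a : g₀ (om 0) = 141/64 := by rw [g0L _ le_rfl, hua]
  have hg00 : g₀ 0 = 139/64 := by rw [g0L _ hom0.le, hu0]
  -- `b₂`
  have hlt : u (om (-(1/2))) < 141/64 := by rw [← hua]; exact mu homh0
  obtain ⟨b₂, hb₂, b2L, b2R⟩ := glueD (u := g₀ * s * g₀⁻¹) (v := bb)
    (Dg.mul_mem (Dg.mul_mem hg₀ hs.mem.1) (Dg.inv_mem hg₀)) hbbD hlt (by
      intro x hx1 hx2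
      -- `x = u t`
      obtain ⟨t, rfl⟩ : ∃ t, u t = x := ⟨u⁻¹ x, papply_inv _ _⟩
      have ht1 : om (-(1/2)) ≤ t := by rwa [Dg.apply_le hu] at hx1
      have ht2 : t ≤ om 0 := by rwa [← hua, Dg.apply_le hu] at hx2
      have e1 : g₀ t = u t := g0L t ht2
      have e2 : om (1/2) ≤ s t := by
        have := ms.monotone ht1
        rw [hs.eq] at this
        rwa [show (-(1/2) + 1 : ℝ) = 1/2 by norm_num] at this
      simp only [Equiv.Perm.mul_apply]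
      rw [← e1, pinv_apply, g0R _ e2, hv]
      simp only [Equiv.Perm.mul_apply]
      rw [pinv_apply, e1])
  have mb2 := Dg.strictMono hb₂
  have b2g0 : ∀ t ≤ om 0, b₂ (g₀ t) = g₀ (s t) := by
    intro t ht
    have h1 : g₀ t ≤ 141/64 := by rw [← hg0a]; exact mg0.monotone ht
    rw [b2L _ h1]
    simp only [Equiv.Perm.mul_apply]
    rw [pinv_apply]
  have b2bb : ∀ x, 141/64 ≤ x → b₂ x = bb x := fun x hx => b2R x (by show _ ≤ x; linarith)
  -- `b₂ > id` on `[z, 4]`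
  have hgt : ∀ x, 141/64 ≤ x → x ≤ 4 → x < b₂ x := by
    intro x hx1 hx2
    rw [b2bb x hx1]
    rcases le_total x (143/64) with h | h
    · rw [hbbL x h]
      have h1 : (138/64 : ℝ) ≤ (g₄ * s⁻¹ * g₄⁻¹) x := by
        rw [← Su.fix_left hhr (x := 138/64) le_rfl]
        exact mhr.monotone (by linarith)
      have := hFb _ (le_trans (by norm_num) h1)
      linarith
    · rcases le_total x (31/8) with h' | h'
      · rw [hbb2 x h]
        rcases le_total x xs with h'' | h''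
        · have h1 : (143/64 : ℝ) ≤ (g₂ * s * g₂⁻¹) x := by
            rw [← Su.fix_left hhp (x := 143/64) le_rfl]
            exact mhp.monotone h
          have h2 := mF.monotone h1
          linarith [hxs2.1]
        · have h1 : (g₂ * s * g₂⁻¹) xs ≤ (g₂ * s * g₂⁻¹) x := mhp.monotone h''
          have h2 : (g₂ * s * g₂⁻¹) xs = ys := by
            simp only [Equiv.Perm.mul_apply]
            rw [← g2a, pinv_apply, hs.eq, zero_add, g2b]
          rw [h2] at h1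
          have h3 : F (F⁻¹ (31/8)) < F ((g₂ * s * g₂⁻¹) x) := mF (lt_of_lt_of_le hys1.1 h1)
          rw [papply_inv] at h3
          linarith
      · rw [hbb3 x h', hFa x (by linarith) (by linarith)]; linarith
  obtain ⟨n, hn⟩ := reach_up hb₂ hgt
  -- `γ`
  set γ : Equiv.Perm ℝ := b₂ ^ n * g₀ * (s ^ n)⁻¹ with hγ
  have hγD : γ ∈ Dg :=
    Dg.mul_mem (Dg.mul_mem (Dg.pow_mem hb₂ n) hg₀) (Dg.inv_mem (Dg.pow_mem hs.mem.1 n))
  have hγ1 : ∀ t ≤ om n, b₂ (γ t) = γ (s t) := by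
    intro t ht
    have h1 : (s ^ n)⁻¹ t ≤ om 0 := by
      have h2 := (Dg.strictMono (Dg.inv_mem (Dg.pow_mem hs.mem.1 n))).monotone ht
      rwa [hs.powinv, sub_self] at h2
    have h3 : (s ^ n)⁻¹ (s t) = s ((s ^ n)⁻¹ t) := by
      have : (s ^ n)⁻¹ * s = s * (s ^ n)⁻¹ := by
        have hc : Commute s (s ^ n) := (Commute.refl s).pow_right n
        exact (hc.inv_right).eq.symm
      have h4 := congrArg (fun e : Equiv.Perm ℝ => e t) this
      simpa [Equiv.Perm.mul_apply] using h4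
    rw [hγ]
    simp only [Equiv.Perm.mul_apply]
    rw [h3, ← b2g0 _ h1]
    have : b₂ * b₂ ^ n = b₂ ^ n * b₂ := (pow_succ' b₂ n).symm.trans (pow_succ b₂ n)
    have h4 := congrArg (fun e : Equiv.Perm ℝ => e (g₀ ((s ^ n)⁻¹ t))) this
    simpa [Equiv.Perm.mul_apply] using h4
  have hγn : 4 < γ (om n) := by
    rw [hγ]
    simp only [Equiv.Perm.mul_apply]
    rw [hs.powinv, sub_self, hg0a]
    exact hn
  have hγ0 : γ 0 = 139/64 := by
    have h1 : (s ^ n)⁻¹ 0 = 0 := Su.fix_left ((Su 0 1).inv_mem ((Su 0 1).pow_mem hs.mem n)) le_rfl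
    have h2 : b₂ (139/64) = 139/64 := by
      rw [← hg00, b2g0 0 hom0.le, hs.s0]
    have h3 : ∀ m : ℕ, (b₂ ^ m) (139/64) = 139/64 := by
      intro m
      induction m with
      | zero => rfl
      | succ m ih => rw [pow_succ, Equiv.Perm.mul_apply, h2, ih]
    rw [hγ]
    simp only [Equiv.Perm.mul_apply]
    rw [h1, hg00, h3]
  have hγinv : ∀ x ≤ 4, γ⁻¹ x ≤ om n := by
    intro x hx
    rw [← Dg.apply_le hγD, papply_inv]; linarith
  refine ⟨g₂, hg₂, g₄, hg₄, b₂, hb₂, γ, hγD, g20, g21, g40, g4a, g4b, g41, ?_, hγ0, ?_, ?_, ?_, ?_,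
    ?_⟩
  · intro x hx
    have h1 := hγ1 _ (hγinv x hx)
    rwa [papply_inv] at h1
  · exact lt_of_le_of_lt (hγinv 4 le_rfl) (hs.lt_one _)
  · intro x hx1 hx2
    rw [b2bb x hx1, hbbL x (by linarith)]; rfl
  · intro x hx1 hx2
    rw [b2bb x (by linarith), hbb1 x hx1 hx2]
  · intro x hx1 hx2
    rw [b2bb x (by linarith), hbb2 x hx1]; rfl
  · intro x hx1 hx2
    rw [b2bb x (by linarith), hbb3 x hx1, hFa x (by linarith) (by linarith)]

end W4ec

end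

section

/-!
# Second part of the construction
-/

open Set Filter Topology
open scoped ContDiff commutatorElement

namespace W4ec

theorem SI.add_mono {w ξ : ℝ → ℝ} (hw : SI w) (hξ : ContDiff ℝ ∞ ξ) (hξ' : ∀ x, 0 ≤ deriv ξ x) :
    SI (fun x => w x + ξ x) where
  smooth := hw.smooth.add hξ
  pos := by
    intro x
    have h1 : HasDerivAt ξ (deriv ξ x) x := ((hξ.differentiable (by simp)) x).hasDerivAt
    have h2 : deriv (fun x => w x + ξ x) x = deriv w x + deriv ξ x :=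
      ((hw.hasDerivAt x).add h1).deriv
    rw [h2]
    have := hw.pos x
    have := hξ' x
    linarith

/-- the function `ξ` -/
theorem exists_xi (c : ℝ) : ∃ ξ : ℝ → ℝ, ContDiff ℝ ∞ ξ ∧ (∀ x, 0 ≤ deriv ξ x) ∧
    (∀ x ≤ c, ξ x = 0) ∧ (∀ x, c < x → 0 < ξ x) ∧ (∀ x, c + 1/16 ≤ x → ξ x = 7) := by
  have hd : (0:ℝ) < 1/16 := by norm_num
  refine ⟨fun x => 7 * step c (1/16) x, contDiff_const.mul (step_contDiff _ _), ?_, ?_, ?_, ?_⟩
  · intro x
    have h1 : deriv (fun x => 7 * step c (1/16) x) x = 7 * deriv (step c (1/16)) x :=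
      (((step_differentiable c (1/16)) x).hasDerivAt.const_mul 7).deriv
    rw [h1]
    have := step_deriv_nonneg (a := c) hd x
    positivity
  · intro x hx
    show 7 * step c (1/16) x = 0
    rw [step_zero hd hx, mul_zero]
  · intro x hx
    have : 0 < step c (1/16) x := by
      unfold step
      exact Real.smoothTransition.pos_of_pos (div_pos (by linarith) hd)
    positivity
  · intro x hx
    show 7 * step c (1/16) x = 7
    rw [step_one hd hx, mul_one]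

theorem part_two {om : ℝ → ℝ} {s : Equiv.Perm ℝ} (hs : Std om s)
    {b₂ γ : Equiv.Perm ℝ} (hγ : γ ∈ Dg)
    (h1 : ∀ x ≤ 4, b₂ x = γ (s (γ⁻¹ x))) (hγ0 : γ 0 = 139/64) (hγ4 : γ⁻¹ 4 < 1)
    (h2 : ∀ x, 31/8 ≤ x → x ≤ 4 → b₂ x = x + 1) :
    ∃ k ∈ Dg, k (139/64) = 0 ∧ k (49/8) = 1 ∧ (∀ x ≤ 5, k x = γ⁻¹ x) ∧
      (∀ x, 65/16 ≤ x → x ≤ 81/16 → (s ^ 8) (k x) = k (x + 1)) ∧
      (∀ x, 4 < x → x ≤ 81/16 → s (k x) < k (x + 1)) ∧
      s (k (41/8)) < k (97/16) := by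
  have mγ := Dg.strictMono hγ
  have hγi := Dg.inv_mem hγ
  have mγi := Dg.strictMono hγi
  have ms := hs.mono
  -- `t₁`, `t₂`
  have hγi0 : γ⁻¹ (139/64) = 0 := by rw [Equiv.Perm.inv_eq_iff_eq, hγ0]
  have hpos : 0 < γ⁻¹ (31/8) := by rw [← hγi0]; exact mγi (by norm_num)
  have hγi31 : γ⁻¹ (31/8) < 1 := lt_trans (mγi (by norm_num)) hγ4
  have hγi5' : γ⁻¹ 5 = s (γ⁻¹ 4) := by
    have := h1 4 le_rfl
    rw [h2 4 (by norm_num) le_rfl] at this
    rw [Equiv.Perm.inv_eq_iff_eq, ← this]; norm_num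
  have hγi5 : γ⁻¹ 5 < 1 := by
    rw [hγi5', ← hs.s1]; exact ms hγ4
  have hγi5pos : 0 < γ⁻¹ 5 := lt_trans hpos (mγi (by norm_num))
  obtain ⟨t₁, ht₁⟩ := hs.surj hpos hγi31
  obtain ⟨t₂, ht₂⟩ := hs.surj hγi5pos hγi5
  have ht12 : t₁ < t₂ := by
    rw [← hs.si.strictMono.lt_iff_lt, ht₁, ht₂]; exact mγi (by norm_num)
  obtain ⟨om', hom', hom'eq⟩ := hs.si.exists_Dg_Icc t₁ t₂
  have hom'i := Dg.inv_mem hom'
  set Q : Equiv.Perm ℝ := om'⁻¹ * γ⁻¹ with hQ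
  have hQD : Q ∈ Dg := Dg.mul_mem hom'i hγi
  have mQ := Dg.strictMono hQD
  have hQ1 : Q (31/8) = t₁ := by
    rw [hQ, Equiv.Perm.mul_apply, Equiv.Perm.inv_eq_iff_eq, hom'eq _ le_rfl ht12.le, ht₁]
  have hQ2 : Q 5 = t₂ := by
    rw [hQ, Equiv.Perm.mul_apply, Equiv.Perm.inv_eq_iff_eq, hom'eq _ ht12.le le_rfl, ht₂]
  have hQom : ∀ x, 31/8 ≤ x → x ≤ 5 → om (Q x) = γ⁻¹ x := by
    intro x hx1 hx2
    have a1 : t₁ ≤ Q x := by rw [← hQ1]; exact mQ.monotone hx1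
    have a2 : Q x ≤ t₂ := by rw [← hQ2]; exact mQ.monotone hx2
    rw [← hom'eq _ a1 a2, hQ, Equiv.Perm.mul_apply, papply_inv]
  have hQper : ∀ x, 31/8 ≤ x → x ≤ 4 → Q (x + 1) = Q x + 1 := by
    intro x hx1 hx2
    apply hs.inj
    rw [hQom _ (by linarith) (by linarith), ← hs.eq, hQom x hx1 (by linarith),
      Equiv.Perm.inv_eq_iff_eq, ← h1 x hx2, h2 x hx1 hx2]
  -- `ξ`
  obtain ⟨ξ, hξ, hξ', ξ0, ξpos, ξ7⟩ := exists_xi 5
  have hshift : SI (fun x : ℝ => x + (-1)) := SI.add_const _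
  -- `Q₁`
  have hQ₁SI : SI (fun x => Q (x + (-1)) + 1 + ξ x) :=
    ((SI.add_const 1).comp ((Dg.si hQD).comp hshift)).add_mono hξ hξ'
  obtain ⟨Q₁, hQ₁, hQ₁L, hQ₁R⟩ := glue (Dg.si hQD) hQ₁SI (a := 39/8) (b := 5) (by norm_num) (by
    intro x hx1 hx2
    have := hQper (x + (-1)) (by linarith) (by linarith)
    rw [neg_add_cancel_right] at this
    rw [ξ0 x hx2, this]; ring)
  have hQ₂SI : SI (fun x => Q₁ (x + (-1)) + 1 + ξ x) :=
    ((SI.add_const 1).comp (hQ₁.comp hshift)).add_mono hξ hξ'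
  obtain ⟨R, hR, hRL, hRR⟩ := glue (Dg.si hQD) hQ₂SI (a := 39/8) (b := 5) (by norm_num) (by
    intro x hx1 hx2
    have := hQper (x + (-1)) (by linarith) (by linarith)
    rw [neg_add_cancel_right] at this
    rw [ξ0 x hx2, this, hQ₁L _ (by linarith)]; ring)
  have hRR' : ∀ x, 39/8 ≤ x → R x = Q₁ (x + (-1)) + 1 + ξ x := fun x hx => hRR x hx
  have hQ₁R' : ∀ x, 39/8 ≤ x → Q₁ x = Q (x + (-1)) + 1 + ξ x := fun x hx => hQ₁R x hx
  have mR := hR.strictMono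
  -- the functional equation for `R`
  have hRQ₁ : ∀ x ≤ 6, Q₁ x = R x := by
    intro x hx
    rcases le_total x 5 with h | h
    · rw [hQ₁L x h, hRL x h]
    · rw [hQ₁R' x (by linarith), hRR' x (by linarith), hQ₁L _ (by linarith)]
  have hReq : ∀ x, 4 ≤ x → x ≤ 6 → R (x + 1) = R x + 1 + ξ (x + 1) := by
    intro x hx1 hx2
    rw [hRR' (x + 1) (by linarith), add_neg_cancel_right, hRQ₁ x hx2]
  have hReq8 : ∀ x, 65/16 ≤ x → x ≤ 6 → R (x + 1) = R x + 8 := by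
    intro x hx1 hx2
    rw [hReq x (by linarith) hx2, ξ7 _ (by linarith)]; ring
  -- `k`
  have homR : SI (fun x => om (R x)) := hs.si.comp hR
  obtain ⟨k₁, hk₁, hk₁L, hk₁R⟩ := glue (Dg.si hγi) homR (a := 31/8) (b := 5) (by norm_num) (by
    intro x hx1 hx2
    rw [hRL x hx2, hQom x hx1 hx2])
  have hk₁R' : ∀ x, 31/8 ≤ x → k₁ x = om (R x) := fun x hx => hk₁R x hx
  obtain ⟨k₂, hk₂, hk₂L, hk₂R⟩ := interp hk₁ (Dg.si (tr_mem (1 - 49/8))) (a := 97/16) (b := 49/8)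
    (by norm_num) (by
      rw [hk₁R' _ (by norm_num), tr_apply]
      have := hs.lt_one (R (97/16))
      linarith)
  obtain ⟨k, hk, hkeq⟩ := hk₂.exists_Dg_of_ends hγi (tr_mem (1 - 49/8)) (a := 5) (b := 49/8)
    (by
      intro x hx
      rw [hk₂L x (by linarith), hk₁L x hx]) hk₂R
  have hkL : ∀ x ≤ 5, k x = γ⁻¹ x := by
    intro x hx
    rw [hkeq, hk₂L x (by linarith), hk₁L x hx]
  have hkR : ∀ x, 31/8 ≤ x → x ≤ 97/16 → k x = om (R x) := by
    intro x hx1 hx2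
    rw [hkeq, hk₂L x hx2, hk₁R' x hx1]
  refine ⟨k, hk, ?_, ?_, hkL, ?_, ?_, ?_⟩
  · rw [hkL _ (by norm_num), hγi0]
  · rw [hkeq, hk₂R _ le_rfl, tr_apply]; ring
  · intro x hx1 hx2
    rw [hkR x (by linarith) (by linarith), hkR (x + 1) (by linarith) (by linarith),
      hReq8 x hx1 (by linarith), hs.pow]
    norm_num
  · intro x hx1 hx2
    rw [hkR x (by linarith) (by linarith), hkR (x + 1) (by linarith) (by linarith),
      hReq x (by linarith) (by linarith), hs.eq]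
    apply hs.lt
    have := ξpos (x + 1) (by linarith)
    linarith
  · rw [hkR _ (by norm_num) (by norm_num), hkR _ (by norm_num) (by norm_num), hs.eq]
    apply hs.lt
    have a1 : R (41/8) = R (33/8) + 8 := by
      have := hReq8 (33/8) (by norm_num) (by norm_num)
      rwa [show (33/8 + 1 : ℝ) = 41/8 by norm_num] at this
    have a2 : R (81/16) = R (65/16) + 8 := by
      have := hReq8 (65/16) (by norm_num) (by norm_num)
      rwa [show (65/16 + 1 : ℝ) = 81/16 by norm_num] at this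
    have a3 : R (97/16) = R (81/16) + 8 := by
      have := hReq8 (81/16) (by norm_num) (by norm_num)
      rwa [show (81/16 + 1 : ℝ) = 97/16 by norm_num] at this
    have a4 : R (33/8) ≤ R 5 := mR.monotone (by norm_num)
    have a5 : R 5 = R 4 + 1 := by
      have := hReq 4 le_rfl (by norm_num)
      rw [show (4 + 1 : ℝ) = 5 by norm_num, ξ0 5 le_rfl] at this
      linarith
    have a6 : R 4 ≤ R (65/16) := mR.monotone (by norm_num)
    linarith

end W4ec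

end
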